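import Mathlib

/-!
# Project UN (helper459): statements
-/

set_option autoImplicit false
set_option linter.all false

open Polynomial IsDedekindDomain NumberField
open scoped Classical IntermediateField TensorProduct

namespace Pool.Agent.H459.UN

/-- `x` is in the ring `O_w[θ]`, `O_w` the local ring of `w` in `F`. -/
def InR {F L : Type} [Field F] [NumberField F] [Field L] [NumberField L] [Algebra F L] (θ : L)
    (w : HeightOneSpectrum (𝓞 F)) (x : L) : Prop :=
  ∃ q : F[X], (∀ i, w.valuation F (q.coeff i) ≤ 1) ∧ aeval θ q = x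

theorem InR.mul {F L : Type} [Field F] [NumberField F] [Field L] [NumberField L] [Algebra F L] {θ : L}
    {w : HeightOneSpectrum (𝓞 F)} {x y : L} (hx : InR θ w x) (hy : InR θ w y) : InR θ w (x * y) := by
  obtain ⟨p, hp, rfl⟩ := hx
  obtain ⟨q, hq, rfl⟩ := hy
  refine ⟨p * q, fun i => ?_, map_mul _ _ _⟩
  rw [coeff_mul]
  refine Valuation.map_sum_le _ fun z _ => ?_
  rw [map_mul]
  exact mul_le_one' (hp _) (hq _)

theorem InR.one {F L : Type} [Field F] [NumberField F] [Field L] [NumberField L] [Algebra F L] (θ : L)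
    (w : HeightOneSpectrum (𝓞 F)) : InR θ w 1 := by
  refine ⟨1, fun i => ?_, map_one _⟩
  rw [coeff_one]
  split_ifs <;> simp

/-- The group `Lˣ² O_w[θ]ˣ`. -/
def Hw {F L : Type} [Field F] [NumberField F] [Field L] [NumberField L] [Algebra F L] (θ : L)
    (w : HeightOneSpectrum (𝓞 F)) : Subgroup Lˣ where
  carrier := {x | ∃ r u : Lˣ, x = r ^ 2 * u ∧ InR θ w (u : L) ∧ InR θ w ((u⁻¹ : Lˣ) : L)}
  mul_mem' := by
    rintro x y ⟨r, u, rfl, h1, h2⟩ ⟨s, v, rfl, h3, h4⟩
    refine ⟨r * s, u * v, by rw [mul_pow]; exact mul_mul_mul_comm _ _ _ _, ?_, ?_⟩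
    · rw [Units.val_mul]
      exact h1.mul h3
    · rw [mul_inv, Units.val_mul]
      exact h2.mul h4
  one_mem' := ⟨1, 1, by simp, by simpa using InR.one θ w, by simpa using InR.one θ w⟩
  inv_mem' := by
    rintro x ⟨r, u, rfl, h1, h2⟩
    refine ⟨r⁻¹, u⁻¹, by rw [mul_inv, inv_pow], h2, by rwa [inv_inv]⟩

/-- **S_CON** (conductor). Let `θ` be integral over `𝓞 F` and a generator of `L` over `F`, `w` a prime of `F`.
Elements of `L` which are small at all primes of `L` over `w` are in `O_w[θ]`.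

Proof. There is `0 ≠ d ∈ 𝓞 F` with `d 𝓞 L ⊆ 𝓞 F[θ]` (`𝓞 L` is a finite `𝓞 F`-module; write its generators in the basis
`θ ^ i` of `L` over `F` and take a common denominator). Choose `N` with `exp (- N) ≤ v_𝔓 (d)` for the finitely many
`𝔓 ∣ w`. If `v_𝔓 (x) ≤ exp (- N)` for all `𝔓 ∣ w`, then `x / d` is integral at all `𝔓 ∣ w`, so there is `m ∈ 𝓞 F`,
`m ∉ w`, with `m x / d ∈ 𝓞 L`: the ideal `J = {y ∈ 𝓞 L | y x / d ∈ 𝓞 L}` is not contained in any `𝔓 ∣ w`, so its
contraction to `𝓞 F` is not contained in `w` (otherwise by `Ideal.exists_ideal_over_prime_of_isIntegral` a prime over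
`w` would contain `J`). So `m x ∈ 𝓞 F[θ]`. -/
def S_CON : Prop := ∀ (F L : Type) [Field F] [NumberField F] [Field L] [NumberField L] [Algebra F L]
  (θ : L) (w : HeightOneSpectrum (𝓞 F)), IsIntegral (𝓞 F) θ → F⟮θ⟯ = ⊤ →
  ∃ N : ℕ, ∀ x : L, (∀ 𝔓 : HeightOneSpectrum (𝓞 L),
    w.asIdeal.map (algebraMap (𝓞 F) (𝓞 L)) ≤ 𝔓.asIdeal →
    𝔓.valuation L x ≤ WithZero.exp (-(N : ℤ))) → InR θ w x

/-- **S_NEW** (Newton). Let `θ` be integral over `𝓞 F` and a generator of `L` over `F`, `w` a prime of `F`.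
If `z ∈ Lˣ` is congruent to `1` modulo `4 𝔓` for all primes `𝔓` of `L` over `w` (in the sense of the
valuations), then `z` is a square times a unit of `O_w[θ]`.

Proof (with S_CON as hypothesis). If `z = 1 + y`, `v (y / 4) < 1` for all `𝔓 ∣ w` (`v = v_𝔓`), then `v (y / 2) < 1`,
`1 + y / 2` is a unit at all `𝔓 ∣ w` and `z = (1 + y / 2) ^ 2 z'`, `z' = 1 + y'`,
`y' / 4 = - (y / 4) ^ 2 / (1 + y / 2) ^ 2`, so `v (y' / 4) = v (y / 4) ^ 2`. By induction `z = r ^ 2 ρ` with
`v ((ρ - 1) / 4) ≤ exp (- 2 ^ n)` for all `𝔓 ∣ w`. For large `n` (S_CON) `ρ - 1` and `ρ⁻¹ - 1 = (1 - ρ) / ρ` are in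
`O_w[θ]`. (If `1 + y / 2 = 0`: impossible, as there is some `𝔓 ∣ w`; every prime has a prime over it.) -/
def S_NEW : Prop := ∀ (F L : Type) [Field F] [NumberField F] [Field L] [NumberField L] [Algebra F L]
  (θ : L) (w : HeightOneSpectrum (𝓞 F)), IsIntegral (𝓞 F) θ → F⟮θ⟯ = ⊤ →
  ∀ z : Lˣ, (∀ 𝔓 : HeightOneSpectrum (𝓞 L), w.asIdeal.map (algebraMap (𝓞 F) (𝓞 L)) ≤ 𝔓.asIdeal →
    𝔓.valuation L (((z : L) - 1) / 4) < 1) → z ∈ Hw θ w

/-- **S_IDX** (index). The index of `Lˣ² O_w[θ]ˣ` in `Lˣ`, `[L : F] = 3`, is at most `64` if `w` does not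
divide `2`, and bounded by a constant depending only on `F` otherwise.

Proof (with S_NEW as hypothesis). Let `Q` be the finite set of the primes `𝔓` of `L` over `w`, `#Q ≤ 3 = [L : F]`. It is
enough to find a map `t : Lˣ → X` to a finite type with at most `64` (`C`) elements such that `t x = t y` implies
`x y ∈ Hw θ w` (then `x⁻¹ y = x y (x⁻¹) ^ 2 ∈ Hw θ w`, and the index is at most `#X`, apply `t` to
representatives). The first component of `t x` is the vector `p (x)` of the parities of the `v_𝔓 (x)`, `𝔓 ∈ Q`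
(at most `2 ^ 3`). Choose for each value of `p` an element `b` with this value; then `x b` has even valuations
at all `𝔓 ∈ Q` and by approximation (Chinese remainders) `x b = s ^ 2 u` with `u` a unit at all `𝔓 ∈ Q`. If `w` does
not divide `2`, the second component is the vector of the truth values of `u` is a square modulo `𝔓`,
`𝔓 ∈ Q` (at most `2 ^ 3`). If `t x = t y`, `y b = s' ^ 2 u'`, then `u u'` is a square modulo all `𝔓 ∈ Q` (finite fields
of odd order), by the Chinese remainder theorem there is a `c` with `u u' / c ^ 2` congruent to `1` modulo all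
`𝔓 ∈ Q`, so `u u' ∈ Hw θ w` by S_NEW, and `x y = (s s' / b) ^ 2 u u'`. If `w` divides `2`, the second component is
the class in `𝓞 L / 4 w 𝓞 L` of an element of `𝓞 L` near to `u` (`v_𝔓 (u - c) < v_𝔓 (4)`, `𝔓 ∈ Q`); this ring has
`N(4 w) ^ 3 ≤ (4 ^ n N(w)) ^ 3 ≤ 2 ^ (9 n)` elements, `n = [F : ℚ]`; and `t x = t y` gives `u u' / u ^ 2` congruent to `1`
modulo `4 𝔓` for all `𝔓 ∈ Q`. -/
def S_IDX : Prop := ∀ (F : Type) [Field F] [NumberField F], ∃ C : ℕ,
  ∀ (L : Type) [Field L] [NumberField L] [Algebra F L] (θ : L) (w : HeightOneSpectrum (𝓞 F)),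
  IsIntegral (𝓞 F) θ → F⟮θ⟯ = ⊤ → Module.finrank F L = 3 → (Hw θ w).index ≠ 0 ∧
    ((2 : 𝓞 F) ∉ w.asIdeal → (Hw θ w).index ≤ 64) ∧ ((2 : 𝓞 F) ∈ w.asIdeal → (Hw θ w).index ≤ C)

/-- The primes whose square divides the discriminant. -/
def Zd {F : Type} [Field F] [NumberField F] (p : 𝓞 F × 𝓞 F) : Set (HeightOneSpectrum (𝓞 F)) :=
  {w | 4 * p.1 ^ 3 + 27 * p.2 ^ 2 ∈ w.asIdeal ^ 2}

/-- **S_RES** (residues). For a prime `w` of `F` not dividing `6` there are at most `3 N(w) ^ 2` pairs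
modulo `w ^ 2` with `4 a ^ 3 + 27 b ^ 2 = 0`.

Proof. If `a` is a unit modulo `w ^ 2`, then so is `b`, and for given `a` there are at most two `b`: `b ^ 2 = b' ^ 2`
means `(b - b') (b + b') = 0`, and one of the factors is a unit since their sum `2 b` is not in `w`; so there are
at most `2 N(w) ^ 2` of these. If `a ∈ w` then `b ∈ w`, at most `N(w)` possibilities for `a` and for `b`
(`w / w ^ 2` has `N(w)` elements). -/
def S_RES : Prop := ∀ (F : Type) [Field F] [NumberField F] (w : HeightOneSpectrum (𝓞 F)),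
  (6 : 𝓞 F) ∉ w.asIdeal →
  Nat.card {p : (𝓞 F ⧸ w.asIdeal ^ 2) × (𝓞 F ⧸ w.asIdeal ^ 2) // 4 * p.1 ^ 3 + 27 * p.2 ^ 2 = 0} ≤
    3 * Ideal.absNorm w.asIdeal ^ 2

/-- **S_AVZ** (average of the number of primes whose square divides the discriminant).

Proof (with S_RES as hypothesis; lattice points: library theorem `Pool.Agent.N490.PF.pts`, statement
`Pool.Agent.N783.PF.S_PTS`: at most `C (X ^ n / N(I) + 1)` elements of a residue class modulo `I` in the box of size
`X`, `n = [F : ℚ]`). (1) The primes `w ∣ 6`: finitely many, at most `#T ≤ C B ^ (5 n)` pairs each. (2) `w ∤ 6`,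
`N(w) ≤ B ^ n`: at most `3 N(w) ^ 2` residue classes modulo `w ^ 2`, each with at most
`C (B ^ (2 n) / N(w) ^ 2 + 1) (B ^ (3 n) / N(w) ^ 2 + 1) ≤ 4 C B ^ (5 n) / N(w) ^ 4` elements, so at most
`12 C B ^ (5 n) / N(w) ^ 2` pairs; the sum of the `1 / N(w) ^ 2` over all `w` is finite (at most `n` primes over each
rational prime `p`, each of norm `≥ p`; or at most `C X` ideals of norm `≤ X`). (3) `N(w) > B ^ n`: if `k` such
primes are in `Zd p`, then the product of their squares divides `Δ = 4 a ^ 3 + 27 b ^ 2`, whose norm is at most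
`(31 B ^ 6) ^ n`, so `B ^ (2 n k) ≤ 31 ^ n B ^ (6 n)` and (for `B ≥ 2`) `k ≤ 6`; for `B = 1` use `N(w) ≥ 2`:
`2 ^ (2 k) ≤ 31 ^ n`, `k ≤ 3 n`. -/
def S_AVZ : Prop := ∀ (F : Type) [Field F] [NumberField F], ∃ C : ℕ, ∀ B : ℕ, 1 ≤ B →
  ∀ T : Finset (𝓞 F × 𝓞 F), (∀ p ∈ T, 4 * p.1 ^ 3 + 27 * p.2 ^ 2 ≠ 0 ∧
    ∀ σ : F →+* ℂ, ‖σ (p.1 : F)‖ ≤ (B : ℝ) ^ 2 ∧ ‖σ (p.2 : F)‖ ≤ (B : ℝ) ^ 3) →
  ∑ p ∈ T, (Zd p).ncard ≤ C * B ^ (5 * Module.finrank ℚ F)

/-- The polynomial. -/
noncomputable def cb {K : Type} [Field K] (A B : K) : K[X] := X ^ 3 + C A * X + C B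

/-- **S_H90** (descent of invariant square classes of norm one).

Proof. `E = M[X] / (f)` is a field, `G = Gal(M / F)` acts on it through the coefficients (ring automorphisms `τ σ`,
with `τ (σ σ') = τ σ ∘ τ σ'`, different for different `σ`). Let `α` be the class of `h`, `n ^ 2 = N(α)`, `n ∈ M`. We
have `τ σ (α) = α s_σ ^ 2` with `s_σ ∈ Eˣ`. `N (τ σ x) = σ (N x)`, so `N(s_σ) ^ 2 = (σ n / n) ^ 2`; since `N (-1) = -1` we may
choose the sign with `N(s_σ) = σ n / n`. Then `s_(σ σ')` and `s_σ τ σ (s_σ')` have the same square and the same norm,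
so they are equal (again `N(-1) = -1`): a cocycle. Hilbert 90 (linear independence of the `τ σ`,
`linearIndependent_monoidHom`: `t = (∑ σ, s_σ τ σ (c))⁻¹ ≠ 0` for some `c`): `s_σ = τ σ (t) / t`. So `β = α / t ^ 2` is
invariant; its representative of degree `< 3` has invariant coefficients, i.e. it is the image of an `h₀ ∈ F[X]`
(`IsGalois F M`). And `N(β) = (n / N(t)) ^ 2`, where `n / N(t)` is invariant under `G`, so it is in `F`; the norm of `h₀`
over `F` maps to the norm over `M` (same matrix; e.g. `Algebra.norm_eq_matrix_det` with the power basis, or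
`AdjoinRoot`/`minpoly` base change). -/
def S_H90 : Prop := ∀ (F M : Type) [Field F] [NumberField F] [Field M] [NumberField M] [Algebra F M]
  [IsGalois F M] (A B : F), Irreducible (cb (algebraMap F M A) (algebraMap F M B)) →
  ∀ h : M[X], IsCoprime h (cb (algebraMap F M A) (algebraMap F M B)) →
  IsSquare (Algebra.norm M (AdjoinRoot.mk (cb (algebraMap F M A) (algebraMap F M B)) h)) →
  (∀ σ : M ≃ₐ[F] M, ∃ s : M[X], cb (algebraMap F M A) (algebraMap F M B) ∣
    h.map (σ : M →+* M) * h - s ^ 2) →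
  ∃ (h₀ : F[X]) (t : M[X]), IsCoprime h₀ (cb A B) ∧
    IsCoprime t (cb (algebraMap F M A) (algebraMap F M B)) ∧
    IsSquare (Algebra.norm F (AdjoinRoot.mk (cb A B) h₀)) ∧
    cb (algebraMap F M A) (algebraMap F M B) ∣ h - h₀.map (algebraMap F M) * t ^ 2

/-- The map `x - θ`. -/
noncomputable def kp {K L : Type} [Field K] [Field L] [Algebra K L] {W : WeierstrassCurve.Affine K} (θ : L) :
    W.Point → L
  | .zero => 1
  | .some x _ _ => algebraMap K L x - θ

/-- **S_KUH** (the map `x - θ` for `y ^ 2 = x ^ 3 + A x + B`, the cubic irreducible, is a homomorphism modulo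
squares).

Proof. There are no points of order two. If `P, Q, P + Q ≠ 0`, the points `P`, `Q`, `- (P + Q)` are on a line
`y = m x + c` (the tangent if `P = Q`) and `X ^ 3 + A X + B = (m X + c) ^ 2 + (X - x₁) (X - x₂) (X - x₃)`; in
`X = θ`: `κ P κ Q κ (P + Q) = (m θ + c) ^ 2`. The cases `P = 0`, `Q = 0`, `P + Q = 0` are trivial. -/
def S_KUH : Prop := ∀ (K L : Type) [Field K] [CharZero K] [Field L] [Algebra K L] (A B : K) (θ : L)
  (W : WeierstrassCurve.Affine K), W.a₁ = 0 → W.a₂ = 0 → W.a₃ = 0 → W.a₄ = A → W.a₆ = B →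
  Irreducible (cb A B) → aeval θ (cb A B) = 0 →
  ∀ P Q : W.Point, ∃ s : K[X], kp θ P * kp θ Q * kp θ (P + Q) = (aeval θ s) ^ 2

/-- **S_KUK** (the kernel of the map `x - θ` for `y ^ 2 = x ^ 3 + A x + B`, the cubic irreducible).

Proof. `P = 0` is trivial. Let `P = (x₀, y₀)`, `x₀ - θ = s ^ 2`, `s = u + v θ + w θ ^ 2` (reduce modulo the cubic). Then
`w ≠ 0` (compare coefficients of `1, θ, θ ^ 2`), and with `c = v / w` we have `(c - θ) s = d θ + e` with `d, e ∈ K`
(`θ ^ 3 = - A θ - B`), so `(c - θ) ^ 2 (x₀ - θ) = (d θ + e) ^ 2`; the polynomial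
`(c - X) ^ 2 (x₀ - X) - (d X + e) ^ 2` has degree `3`, leading coefficient `-1` and the zero `θ`, so it is
`- (X ^ 3 + A X + B)`: the line `y = d x + e` is tangent to the curve in `R = (c, d c + e)` and contains
`(x₀, ± y₀)`, so `P = R + R` or `P = (- R) + (- R)`. (`d c + e ≠ 0` because the cubic has no zero in `K`; `d` is the
slope of the tangent: compare coefficients.) -/
def S_KUK : Prop := ∀ (K L : Type) [Field K] [CharZero K] [Field L] [Algebra K L] (A B : K) (θ : L)
  (W : WeierstrassCurve.Affine K), W.a₁ = 0 → W.a₂ = 0 → W.a₃ = 0 → W.a₄ = A → W.a₆ = B →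
  Irreducible (cb A B) → aeval θ (cb A B) = 0 →
  ∀ P : W.Point, (∃ s : K[X], kp θ P = (aeval θ s) ^ 2) → ∃ Q, P = Q + Q

/-- **S_MOD** (a lattice without 2-torsion with an action of a 2-group). Let `A` be a finitely generated
abelian group without elements of order two, with an action `τ` of the 2-group `G`, such that the classes of
`A / 2 A` which are invariant under `G` are represented by at most `2 ^ r` elements. Then there are `r`
homomorphisms `A → ℤ` such that only elements of finite order are in the kernels of all their conjugates.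

Proof. `V = A / 2 A` is finite. There are `r` linear forms `φ i : V → 𝔽₂` whose restrictions to `V ^ G` separate the
points (`dim V ^ G ≤ r`). `N = {v | ∀ i g, φ i (g v) = 0}` is stable under `G` and has no invariants except `0`, so
`N = 0` since `G` is a 2-group and `N` a finite 2-group (`IsPGroup.card_modEq_card_fixedPoints`). The torsion of `A`
is finite of odd order, so it is contained in `2 A`, and `A / torsion` is free: the `φ i` lift to `Φ i : A → ℤ`.
If `K` is the set of the `a` with `Φ i (g a) = 0` for all `i, g`, then `K ⊆ 2 A` by `N = 0`, hence `K = 2 K`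
(`ℤ` has no torsion); `K` is finitely generated, so it is finite (of odd order). -/
def S_MOD : Prop := ∀ (A G : Type) [AddCommGroup A] [AddGroup.FG A] [Group G] [Finite G]
  (τ : G →* AddMonoid.End A) (k r : ℕ), Nat.card G = 2 ^ k → (∀ a : A, a + a = 0 → a = 0) →
  ∀ T : Finset A, T.card ≤ 2 ^ r →
  (∀ a : A, (∀ g : G, ∃ b : A, τ g a - a = b + b) → ∃ t ∈ T, ∃ b, a - t = b + b) →
  ∃ Φ : Fin r → A →+ ℤ, ∀ a : A, (∀ i (g : G), Φ i (τ g a) = 0) → IsOfFinAddOrder a

/-- The intertwining maps from `V` to `ℂ ⊗ A`. -/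
noncomputable def Intw {A G V : Type} [AddCommGroup A] [Group G] (τ : G →* AddMonoid.End A)
    [AddCommGroup V] [Module ℂ V] (ρ : Representation ℂ G V) :
    Submodule ℂ (V →ₗ[ℂ] (ℂ ⊗[ℤ] A)) where
  carrier := {φ | ∀ g v, φ (ρ g v) =
    TensorProduct.AlgebraTensorModule.map (LinearMap.id : ℂ →ₗ[ℂ] ℂ)
      (AddMonoidHom.toIntLinearMap (τ g)) (φ v)}
  add_mem' := by
    intro φ ψ h1 h2 g v
    rw [LinearMap.add_apply, LinearMap.add_apply, map_add, h1, h2]
  zero_mem' := by
    intro g v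
    rw [LinearMap.zero_apply, LinearMap.zero_apply, map_zero]
  smul_mem' := by
    intro c φ h1 g v
    rw [LinearMap.smul_apply, LinearMap.smul_apply, map_smul, h1]

/-- **S_MUL** (multiplicities).

Proof. `φ ↦ (v ↦ (id ⊗ Φ i) (φ v))_i` is an injective linear map from `Intw τ ρ` to `Fin r → (V →ₗ ℂ)`: if all
`(id ⊗ Φ i) (φ v)` vanish, then, with `ρ g v` for `v`, all `(id ⊗ (Φ i ∘ τ g)) (φ v)` vanish; `ℂ` is flat over `ℤ`, so
`φ v` is in the image of `ℂ ⊗ K`, `K` the common kernel of the `Φ i ∘ τ g`, and `ℂ ⊗ K = 0` as `K` is a torsion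
group. (Or: the map `A → ℤ ^ (r #G)` is injective modulo torsion, so `ℂ ⊗ A → ℂ ^ (r #G)` is injective: enough to
check `ℚ ⊗ A`, or write an element of `ℂ ⊗ A` in a basis of `A / torsion`.) The rank of `A` is at most `r #G` since
`A / K` embeds into `ℤ ^ (r #G)`. -/
def S_MUL : Prop := ∀ (A G V : Type) [AddCommGroup A] [AddGroup.FG A] [Group G] [Finite G]
  (τ : G →* AddMonoid.End A) [AddCommGroup V] [Module ℂ V] [FiniteDimensional ℂ V]
  (ρ : Representation ℂ G V) (r : ℕ) (Φ : Fin r → A →+ ℤ),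
  (∀ a : A, (∀ i (g : G), Φ i (τ g a) = 0) → IsOfFinAddOrder a) →
  Module.finrank ℂ (Intw τ ρ) ≤ r * Module.finrank ℂ V ∧
  Module.finrank ℤ A ≤ r * Nat.card G

end Pool.Agent.H459.UN
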