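import Pool.Agent.H459.UN.Stm

/-!
# Project UN (helper459): statement of EXPZ
-/

set_option autoImplicit false
set_option linter.all false

open Polynomial IsDedekindDomain NumberField
open scoped Classical

namespace Pool.Agent.H459.UN

/-- **S_EXPZ** (exponential moments of the number of primes whose square divides the discriminant). This is the
stronger form of `S_AVZ` (`Bavz.lean`, helper282, from which most lemmas can be taken) with `A ^ #(Zd p)` in place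
of `#(Zd p)`.

Proof (with S_RES as hypothesis; lattice points: `Pool.Agent.N490.PF.pts`, statement `Pool.Agent.N783.PF.S_PTS`: at
most `C (X ^ d / N(I) + 1)` elements of a residue class modulo `I` in the box of size `X`, `d = [F : ℚ]`).
`B = 1` is clear (finitely many pairs; or the bound `#(Zd p) ≤ 3 d + c` below), let `B ≥ 2`, `p ∈ T`,
`Δ = 4 a ^ 3 + 27 b ^ 2`. (1) `∏ w ∈ Zd p, w ^ 2` divides `Δ`, so `∏ w ∈ Zd p, N(w) ^ 2 ≤ |N Δ| ≤ (31 B ^ 6) ^ d`; hence at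
most `6` of the `w ∈ Zd p` have `N(w) > B ^ d`, and only a bounded number divide `6`. So
`A ^ #(Zd p) ≤ A ^ c₀ A ^ k`, `k` the number of elements of `Z' = {w ∈ Zd p | w ∤ 6, N(w) ≤ B ^ d}`. (2) Let `j = k / 6`
(integer part) and take six disjoint subsets of `Z'` with `j` elements each; for one of them, `S`, the product
`N(S)` of the norms is at most `B ^ d`: otherwise `∏ w ∈ Z', N(w) ^ 2 > B ^ (12 d) ≥ (31 B ^ 6) ^ d`
(`31 ≤ 2 ^ 6 ≤ B ^ 6`). As `k ≤ 6 j + 5`: `A ^ k ≤ A ^ 5 A ^ (6 #S)`. So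
`A ^ #(Zd p) ≤ A ^ (c₀ + 5) ∑ S, A ^ (6 #S)`, the sum over the finite sets `S ⊆ Zd p` of primes not dividing `6` with
`N(S) ≤ B ^ d`. (3) Sum over `p ∈ T` and interchange: for each `S` the number of `p ∈ T` with `S ⊆ Zd p` is at most the
number of classes of pairs modulo `𝔡 ^ 2`, `𝔡 = ∏ w ∈ S, w`, with `Δ = 0` modulo all `w ^ 2`, `w ∈ S` (at most
`∏ w ∈ S, 3 N(w) ^ 2` by S_RES and the Chinese remainder theorem: a pair modulo `𝔡 ^ 2` is determined by the pairs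
modulo the `w ^ 2`), times `C (B ^ (2 d) / N(𝔡) ^ 2 + 1) * C (B ^ (3 d) / N(𝔡) ^ 2 + 1) ≤ 4 C ^ 2 B ^ (5 d) / N(𝔡) ^ 4`;
together at most `4 C ^ 2 3 ^ #S B ^ (5 d) / N(S) ^ 2`. (4) `∑ S, (3 A ^ 6) ^ #S / N(S) ^ 2`, over the subsets `S` of the
finite set of primes with `N(w) ≤ B ^ d`, is `∏ w, (1 + 3 A ^ 6 / N(w) ^ 2) ≤ exp (3 A ^ 6 ∑ w, 1 / N(w) ^ 2)`
(`Finset.prod_one_add`, `Real.add_one_le_exp`), and the sum of the `1 / N(w) ^ 2` is bounded (in `Bavz.lean`). -/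
def S_EXPZ : Prop := ∀ (F : Type) [Field F] [NumberField F] (A : ℕ), ∃ C : ℕ, ∀ B : ℕ, 1 ≤ B →
  ∀ T : Finset (𝓞 F × 𝓞 F), (∀ p ∈ T, 4 * p.1 ^ 3 + 27 * p.2 ^ 2 ≠ 0 ∧
    ∀ σ : F →+* ℂ, ‖σ (p.1 : F)‖ ≤ (B : ℝ) ^ 2 ∧ ‖σ (p.2 : F)‖ ≤ (B : ℝ) ^ 3) →
  ∑ p ∈ T, A ^ (Zd p).ncard ≤ C * B ^ (5 * Module.finrank ℚ F)

end Pool.Agent.H459.UN
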