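import Mathlib
import Pool.Agent.H459.UN.Stm3
import Pool.Agent.H459.UN.Bavz

/-!
Exponential moments of the number of primes whose square divides `4 a ^ 3 + 27 b ^ 2` (part EXPZ of
project UN, helper459).
-/

set_option autoImplicit false
set_option linter.all false

open Polynomial IsDedekindDomain NumberField
open scoped Classical

namespace Pool.Agent.H400.UN

open Pool.Agent.H459.UN
open Pool.Agent.H282.UN
open Pool.Agent.N783.PF (Bd)

/-- a subset with at least (about) one `m`-th of the elements and the product at most the `m`-th root -/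
theorem exists_small {α : Type} (m : ℕ) (hm : 1 ≤ m) (f : α → ℝ) (hf : ∀ a, 1 ≤ f a) :
    ∀ (n : ℕ) (Z : Finset α), Z.card = n → ∃ S ⊆ Z, Z.card ≤ m * S.card + (m - 1) ∧
      (∏ a ∈ S, f a) ^ m ≤ ∏ a ∈ Z, f a := by
  intro n
  induction n using Nat.strong_induction_on with
  | _ n ih =>
    intro Z hZ
    rcases lt_or_ge n m with hlt | hge
    · refine ⟨∅, Finset.empty_subset _, by rw [Finset.card_empty]; omega, ?_⟩
      rw [Finset.prod_empty, one_pow]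
      calc (1 : ℝ) = ∏ a ∈ Z, (1 : ℝ) := by rw [Finset.prod_const_one]
        _ ≤ ∏ a ∈ Z, f a := Finset.prod_le_prod (fun _ _ => zero_le_one) fun a _ => hf a
    · obtain ⟨M, hMZ, hMc⟩ := Finset.exists_subset_card_eq (s := Z) (n := m) (by omega)
      have hMne : M.Nonempty := by
        rw [← Finset.card_pos]
        omega
      obtain ⟨a, haM, hamin⟩ := Finset.exists_min_image M f hMne
      have hcard : (Z \ M).card = n - m := by
        rw [Finset.card_sdiff_of_subset hMZ]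
        omega
      obtain ⟨S, hS, h1, h2⟩ := ih (n - m) (by omega) (Z \ M) hcard
      have haS : a ∉ S := fun h => (Finset.mem_sdiff.1 (hS h)).2 haM
      refine ⟨insert a S, ?_, ?_, ?_⟩
      · intro b hb
        rcases Finset.mem_insert.1 hb with rfl | hb
        · exact hMZ haM
        · exact (Finset.mem_sdiff.1 (hS hb)).1
      · rw [Finset.card_insert_of_notMem haS, mul_add, mul_one]
        rw [hcard] at h1
        omega
      · rw [Finset.prod_insert haS, mul_pow, ← Finset.prod_sdiff hMZ, mul_comm]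
        have h3 : f a ^ m ≤ ∏ b ∈ M, f b := by
          rw [← hMc, ← Finset.prod_const]
          refine Finset.prod_le_prod (fun _ _ => by linarith [hf a]) fun b hb => hamin b hb
        have h4 : 0 ≤ ∏ b ∈ Z \ M, f b := Finset.prod_nonneg fun b _ => by linarith [hf b]
        have h5 : 0 ≤ f a := by linarith [hf a]
        exact mul_le_mul h2 h3 (by positivity) h4

/-- counting by fibres -/
theorem card_le_fibres {α β : Type} (S : Finset α) (f : α → β) (E : Set β) (hE : E.Finite)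
    (hf : ∀ p ∈ S, f p ∈ E) (M : ℝ) (hM0 : 0 ≤ M)
    (hM : ∀ q ∈ S, ∃ U : Set α, U.Finite ∧ (∀ p ∈ S, f p = f q → p ∈ U) ∧ (U.ncard : ℝ) ≤ M) :
    (S.card : ℝ) ≤ E.ncard * M := by
  rw [Finset.card_eq_sum_card_image f S]
  push_cast
  have h1 : ∀ c ∈ S.image f, ((S.filter (fun p => f p = c)).card : ℝ) ≤ M := by
    intro c hc
    obtain ⟨q, hq, rfl⟩ := Finset.mem_image.1 hc
    obtain ⟨U, hU, h2, h3⟩ := hM q hq
    have h4 : (S.filter (fun p => f p = f q)).card ≤ U.ncard := by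
      rw [← Set.ncard_coe_finset]
      refine Set.ncard_le_ncard (fun p hp => ?_) hU
      obtain ⟨h5, h6⟩ := Finset.mem_filter.1 (Finset.mem_coe.1 hp)
      exact h2 p h5 h6
    have h5 : ((S.filter (fun p => f p = f q)).card : ℝ) ≤ U.ncard := by exact_mod_cast h4
    exact h5.trans h3
  refine (Finset.sum_le_sum h1).trans ?_
  rw [Finset.sum_const, nsmul_eq_mul]
  refine mul_le_mul_of_nonneg_right ?_ hM0
  have h2 : (S.image f).card ≤ E.ncard := by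
    rw [← Set.ncard_coe_finset]
    refine Set.ncard_le_ncard (fun c hc => ?_) hE
    obtain ⟨p, hp, rfl⟩ := Finset.mem_image.1 (Finset.mem_coe.1 hc)
    exact hf p hp
  exact_mod_cast h2

theorem arith {C0 B Nw s e t : ℝ} {d : ℕ} (hC0 : 0 < C0) (hB1 : 1 ≤ B) (hN0 : 0 < Nw)
    (hw : Nw ≤ B ^ d)
    (hs : s ≤ e * ((C0 * ((B ^ 2) ^ d / Nw ^ 2 + 1)) * (C0 * ((B ^ 3) ^ d / Nw ^ 2 + 1))))
    (he : e ≤ t * Nw ^ 2) (ht : 0 ≤ t) :
    s ≤ 4 * C0 ^ 2 * B ^ (5 * d) * (t / Nw ^ 2) := by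
  have hB0 : 0 < B := by linarith
  have hNB : Nw ^ 2 ≤ (B ^ 2) ^ d := by
    rw [← pow_mul, mul_comm 2 d, pow_mul]
    exact pow_le_pow_left₀ hN0.le hw 2
  have hNB3 : Nw ^ 2 ≤ (B ^ 3) ^ d := by
    refine hNB.trans ?_
    rw [← pow_mul, ← pow_mul]
    exact pow_le_pow_right₀ hB1 (by omega)
  have hN2p : 0 < Nw ^ 2 := by positivity
  have g1 : (B ^ 2) ^ d / Nw ^ 2 + 1 ≤ 2 * ((B ^ 2) ^ d / Nw ^ 2) := by
    have : 1 ≤ (B ^ 2) ^ d / Nw ^ 2 := (one_le_div hN2p).2 hNB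
    linarith
  have g2 : (B ^ 3) ^ d / Nw ^ 2 + 1 ≤ 2 * ((B ^ 3) ^ d / Nw ^ 2) := by
    have : 1 ≤ (B ^ 3) ^ d / Nw ^ 2 := (one_le_div hN2p).2 hNB3
    linarith
  have hM : (C0 * ((B ^ 2) ^ d / Nw ^ 2 + 1)) * (C0 * ((B ^ 3) ^ d / Nw ^ 2 + 1)) ≤
      (C0 * (2 * ((B ^ 2) ^ d / Nw ^ 2))) * (C0 * (2 * ((B ^ 3) ^ d / Nw ^ 2))) := by
    gcongr
  refine hs.trans ((mul_le_mul he hM (by positivity) (by positivity)).trans (le_of_eq ?_))
  have e5 : B ^ (5 * d) = (B ^ 2) ^ d * (B ^ 3) ^ d := by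
    rw [← pow_mul, ← pow_mul, ← pow_add]
    congr 1
    ring
  rw [e5]
  field_simp
  ring

section

variable {F : Type} [Field F] [NumberField F]

theorem mem_prod (W : Finset (HeightOneSpectrum (𝓞 F))) (x : 𝓞 F)
    (h : ∀ w ∈ W, x ∈ w.asIdeal ^ 2) : x ∈ ∏ w ∈ W, w.asIdeal ^ 2 := by
  refine Ideal.dvd_span_singleton.1 (Finset.prod_dvd_of_coprime ?_ ?_)
  · intro w _ w' _ hww
    have h1 : IsCoprime w.asIdeal w'.asIdeal := by
      rw [Ideal.isCoprime_iff_sup_eq]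
      exact w.isMaximal.coprime_of_ne w'.isMaximal
        (fun h => hww (HeightOneSpectrum.ext h))
    exact IsCoprime.pow h1
  · intro w hw
    exact Ideal.dvd_span_singleton.2 (h w hw)

/-- the pairs whose discriminant is divisible by the squares of all primes in `W` -/
theorem classesW (h : S_RES) {C0 : ℝ} (hC0 : 0 < C0)
    (hpts : ∀ (𝔞 : Ideal (𝓞 F)) (b : 𝓞 F) (R : ℝ), 𝔞 ≠ ⊥ → 0 ≤ R →
      {a : 𝓞 F | a - b ∈ 𝔞 ∧ Bd (a : F) R}.Finite ∧
      (({a : 𝓞 F | a - b ∈ 𝔞 ∧ Bd (a : F) R}.ncard : ℝ)) ≤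
        C0 * (R ^ Module.finrank ℚ F / (Ideal.absNorm 𝔞 : ℝ) + 1))
    (B : ℕ) (hB : 1 ≤ B) (T : Finset (𝓞 F × 𝓞 F))
    (hT : ∀ p ∈ T, Bd (p.1 : F) ((B : ℝ) ^ 2) ∧ Bd (p.2 : F) ((B : ℝ) ^ 3))
    (W : Finset (HeightOneSpectrum (𝓞 F))) (h6 : ∀ w ∈ W, (6 : 𝓞 F) ∉ w.asIdeal)
    (hw : ∏ w ∈ W, (Ideal.absNorm w.asIdeal : ℝ) ≤ (B : ℝ) ^ Module.finrank ℚ F) :
    ((T.filter (fun p => ∀ w ∈ W, Δ p ∈ w.asIdeal ^ 2)).card : ℝ) ≤
      4 * C0 ^ 2 * (B : ℝ) ^ (5 * Module.finrank ℚ F) *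
        ∏ w ∈ W, (3 / (Ideal.absNorm w.asIdeal : ℝ) ^ 2) := by
  set d := Module.finrank ℚ F with hd
  set I : Ideal (𝓞 F) := ∏ w ∈ W, w.asIdeal ^ 2 with hI
  have hI0 : I ≠ ⊥ := by
    rw [hI, ← Ideal.zero_eq_bot]
    exact Finset.prod_ne_zero_iff.2 fun w _ => pow_ne_zero 2 w.ne_bot
  obtain ⟨Nw, hNw⟩ : ∃ Nw : ℝ, Nw = ∏ w ∈ W, (Ideal.absNorm w.asIdeal : ℝ) := ⟨_, rfl⟩
  rw [← hNw] at hw
  have hN0 : 0 < Nw := by
    rw [hNw]
    exact Finset.prod_pos fun w _ => by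
      have := absNorm_pos w
      exact_mod_cast (show 0 < Ideal.absNorm w.asIdeal by omega)
  have hNI : (Ideal.absNorm I : ℝ) = Nw ^ 2 := by
    rw [hI, map_prod, hNw, ← Finset.prod_pow]
    push_cast [map_pow]
    rfl
  have hB1 : (1 : ℝ) ≤ B := by exact_mod_cast hB
  have hfin : ∀ w : HeightOneSpectrum (𝓞 F), Finite (𝓞 F ⧸ w.asIdeal ^ 2) := fun w =>
    Ideal.finiteQuotientOfFreeOfNeBot _ (pow_ne_zero 2 w.ne_bot)
  let f : 𝓞 F × 𝓞 F → ((w : W) → (𝓞 F ⧸ (w : HeightOneSpectrum (𝓞 F)).asIdeal ^ 2) ×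
      (𝓞 F ⧸ (w : HeightOneSpectrum (𝓞 F)).asIdeal ^ 2)) := fun p w =>
    (Ideal.Quotient.mk _ p.1, Ideal.Quotient.mk _ p.2)
  set S := T.filter (fun p => ∀ w ∈ W, Δ p ∈ w.asIdeal ^ 2) with hS
  -- the number of classes
  set E : Set ((w : W) → (𝓞 F ⧸ (w : HeightOneSpectrum (𝓞 F)).asIdeal ^ 2) ×
      (𝓞 F ⧸ (w : HeightOneSpectrum (𝓞 F)).asIdeal ^ 2)) :=
    {c | ∀ w, 4 * (c w).1 ^ 3 + 27 * (c w).2 ^ 2 = 0} with hE
  have hEf : E.Finite := Set.toFinite _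
  have himg : (E.ncard : ℝ) ≤ ∏ w ∈ W, (3 * (Ideal.absNorm w.asIdeal : ℝ) ^ 2) := by
    have e : E.ncard =
        ∏ w : W, Nat.card {p : (𝓞 F ⧸ (w : HeightOneSpectrum (𝓞 F)).asIdeal ^ 2) ×
          (𝓞 F ⧸ (w : HeightOneSpectrum (𝓞 F)).asIdeal ^ 2) // 4 * p.1 ^ 3 + 27 * p.2 ^ 2 = 0} := by
      rw [hE, ← Nat.card_coe_set_eq, ← Nat.card_pi]
      exact Nat.card_congr (Equiv.subtypePiEquivPi (p := fun (w : W)
        (p : (𝓞 F ⧸ (w : HeightOneSpectrum (𝓞 F)).asIdeal ^ 2) ×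
          (𝓞 F ⧸ (w : HeightOneSpectrum (𝓞 F)).asIdeal ^ 2)) => 4 * p.1 ^ 3 + 27 * p.2 ^ 2 = 0))
    have h2 : (∏ w : W, Nat.card {p : (𝓞 F ⧸ (w : HeightOneSpectrum (𝓞 F)).asIdeal ^ 2) ×
          (𝓞 F ⧸ (w : HeightOneSpectrum (𝓞 F)).asIdeal ^ 2) // 4 * p.1 ^ 3 + 27 * p.2 ^ 2 = 0}) ≤
        ∏ w : W, (3 * Ideal.absNorm (w : HeightOneSpectrum (𝓞 F)).asIdeal ^ 2) :=
      Finset.prod_le_prod' fun w _ => h F w (h6 w w.2)
    have h3 : (∏ w : W, (3 * Ideal.absNorm (w : HeightOneSpectrum (𝓞 F)).asIdeal ^ 2)) =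
        ∏ w ∈ W, (3 * Ideal.absNorm w.asIdeal ^ 2) :=
      Finset.prod_coe_sort W (fun w => 3 * Ideal.absNorm w.asIdeal ^ 2)
    have h4 := (e.le.trans h2).trans h3.le
    exact_mod_cast h4
  -- the number of pairs
  have hM0 : 0 ≤ (C0 * (((B : ℝ) ^ 2) ^ d / Nw ^ 2 + 1)) *
      (C0 * (((B : ℝ) ^ 3) ^ d / Nw ^ 2 + 1)) :=
    mul_nonneg (mul_nonneg hC0.le (add_nonneg (div_nonneg (pow_nonneg (pow_nonneg (Nat.cast_nonneg _) _) _)
      (pow_nonneg hN0.le _)) zero_le_one)) (mul_nonneg hC0.le (add_nonneg (div_nonneg (pow_nonneg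
        (pow_nonneg (Nat.cast_nonneg _) _) _) (pow_nonneg hN0.le _)) zero_le_one))
  have hcount : (S.card : ℝ) ≤ E.ncard *
      ((C0 * (((B : ℝ) ^ 2) ^ d / Nw ^ 2 + 1)) * (C0 * (((B : ℝ) ^ 3) ^ d / Nw ^ 2 + 1))) := by
    refine card_le_fibres S f E hEf ?_ _ hM0 ?_
    · intro p hp w
      have hp2 : Δ p ∈ (w : HeightOneSpectrum (𝓞 F)).asIdeal ^ 2 :=
        (Finset.mem_filter.1 hp).2 w w.2
      change 4 * (Ideal.Quotient.mk _ p.1) ^ 3 + 27 * (Ideal.Quotient.mk _ p.2) ^ 2 = 0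
      have h3 := Ideal.Quotient.eq_zero_iff_mem.2 hp2
      unfold Δ at h3
      rw [map_add, map_mul, map_mul, map_pow, map_pow, map_ofNat, map_ofNat] at h3
      exact h3
    · intro q hq
      obtain ⟨f1, n1⟩ := hpts I q.1 ((B : ℝ) ^ 2) hI0 (by positivity)
      obtain ⟨f2, n2⟩ := hpts I q.2 ((B : ℝ) ^ 3) hI0 (by positivity)
      rw [hNI] at n1 n2
      refine ⟨{a : 𝓞 F | a - q.1 ∈ I ∧ Bd (a : F) ((B : ℝ) ^ 2)} ×ˢ
          {a : 𝓞 F | a - q.2 ∈ I ∧ Bd (a : F) ((B : ℝ) ^ 3)}, f1.prod f2, ?_, ?_⟩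
      · intro p hpS hpf
        have hpT := hT p (Finset.mem_filter.1 hpS).1
        refine Set.mem_prod.2 ⟨⟨?_, hpT.1⟩, ⟨?_, hpT.2⟩⟩
        · refine mem_prod W _ fun w hw => ?_
          have := congrArg Prod.fst (congrFun hpf ⟨w, hw⟩)
          exact Ideal.Quotient.eq.1 this
        · refine mem_prod W _ fun w hw => ?_
          have := congrArg Prod.snd (congrFun hpf ⟨w, hw⟩)
          exact Ideal.Quotient.eq.1 this
      · rw [Set.ncard_prod]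
        push_cast
        exact mul_le_mul n1 n2 (Nat.cast_nonneg _) (by positivity)
  have hprod : ∏ w ∈ W, (3 * (Ideal.absNorm w.asIdeal : ℝ) ^ 2) = 3 ^ W.card * Nw ^ 2 := by
    rw [Finset.prod_mul_distrib, Finset.prod_pow, Finset.prod_const, hNw]
  have hprod2 : ∏ w ∈ W, (3 / (Ideal.absNorm w.asIdeal : ℝ) ^ 2) = 3 ^ W.card / Nw ^ 2 := by
    rw [Finset.prod_div_distrib, Finset.prod_pow, Finset.prod_const, hNw]
  rw [hprod] at himg
  rw [hprod2]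
  exact arith hC0 hB1 hN0 hw hcount himg (pow_nonneg (by norm_num) _)

end

theorem expz (h : S_RES) : S_EXPZ := by
  intro F _ _ A₀
  set d := Module.finrank ℚ F with hd
  set A : ℕ := A₀ + 1 with hA
  obtain ⟨-, C0, hC0, -, hpts⟩ := Pool.Agent.N490.PF.pts F
  obtain ⟨c, hc, hsum⟩ := sum_inv_sq F
  -- the primes dividing 6
  have hfac : ∀ x : 𝓞 F, x ≠ 0 → {w : HeightOneSpectrum (𝓞 F) | x ∈ w.asIdeal}.Finite := by
    intro x hx
    refine (Ideal.finite_factors (I := Ideal.span {x}) ?_).subset fun w hw => ?_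
    · rwa [Ne, Ideal.zero_eq_bot, Ideal.span_singleton_eq_bot]
    · exact Ideal.dvd_span_singleton.2 hw
  have h6f := hfac (6 : 𝓞 F) (by norm_num)
  set s6 : ℕ := h6f.toFinset.card with hs6
  set K : ℕ := s6 + (5 + 5 * d) + 5 with hK
  set D : ℝ := (A : ℝ) ^ K * (4 * C0 ^ 2 * Real.exp (3 * (A : ℝ) ^ 6 * c)) with hD
  refine ⟨⌈D⌉₊, fun B hB T hT => ?_⟩
  have hA1 : (1 : ℝ) ≤ A := by
    rw [hA]
    push_cast
    linarith [(Nat.cast_nonneg A₀ : (0 : ℝ) ≤ A₀)]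
  have hB1 : (1 : ℝ) ≤ B := by exact_mod_cast hB
  have hT' : ∀ p ∈ T, Bd (p.1 : F) ((B : ℝ) ^ 2) ∧ Bd (p.2 : F) ((B : ℝ) ^ 3) := fun p hp =>
    ⟨fun σ => ((hT p hp).2 σ).1, fun σ => ((hT p hp).2 σ).2⟩
  -- the small primes
  have hsm : {w : HeightOneSpectrum (𝓞 F) | (6 : 𝓞 F) ∉ w.asIdeal ∧
      (Ideal.absNorm w.asIdeal : ℝ) ≤ (B : ℝ) ^ d}.Finite := by
    have h1 : {I : Ideal (𝓞 F) | Ideal.absNorm I ≤ B ^ d}.Finite := by
      exact Ideal.finite_setOf_absNorm_le (B ^ d)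
    refine Set.Finite.of_finite_image (f := fun w : HeightOneSpectrum (𝓞 F) => w.asIdeal) ?_
      (fun w _ w' _ hww => HeightOneSpectrum.ext hww)
    refine h1.subset ?_
    rintro _ ⟨w, hw, rfl⟩
    have := hw.2
    exact_mod_cast this
  set Ws := hsm.toFinset with hWs
  set P : Finset (Finset (HeightOneSpectrum (𝓞 F))) := Ws.powerset.filter (fun W =>
    ∏ w ∈ W, (Ideal.absNorm w.asIdeal : ℝ) ≤ (B : ℝ) ^ d) with hP
  -- the decomposition
  have hdec : ∀ p ∈ T, ((A : ℝ) ^ (Zd p).ncard) ≤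
      (A : ℝ) ^ K * ∑ W ∈ P.filter (fun W => ∀ w ∈ W, Δ p ∈ w.asIdeal ^ 2), ((A : ℝ) ^ 6) ^ W.card := by
    intro p hp
    have hΔ : Δ p ≠ 0 := (hT p hp).1
    have hZf : (Zd p).Finite := (hfac (Δ p) hΔ).subset fun w hw =>
      Ideal.pow_le_self two_ne_zero hw
    set Z := hZf.toFinset with hZ
    have hZc : (Zd p).ncard = Z.card := Set.ncard_eq_toFinset_card _ hZf
    set L := Z.filter (fun w => (B : ℝ) ^ d ≤ Ideal.absNorm w.asIdeal) with hL
    have hLc : L.card ≤ 5 + 5 * d := by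
      refine large L (Δ p) hΔ B hB (fun w hw => ?_) (bd_disc (hT' p hp).1 (hT' p hp).2)
        (fun w hw => (Finset.mem_filter.1 hw).2)
      have := (Finset.mem_filter.1 hw).1
      rw [hZ, Set.Finite.mem_toFinset] at this
      exact this
    set Z' := Ws.filter (fun w => Δ p ∈ w.asIdeal ^ 2) with hZ'
    have hsub : Z ⊆ (h6f.toFinset ∪ L) ∪ Z' := by
      intro w hw
      have hwZ : Δ p ∈ w.asIdeal ^ 2 := by
        rw [hZ, Set.Finite.mem_toFinset] at hw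
        exact hw
      rw [Finset.mem_union, Finset.mem_union]
      by_cases h6 : (6 : 𝓞 F) ∈ w.asIdeal
      · exact Or.inl (Or.inl ((Set.Finite.mem_toFinset _).2 h6))
      · rcases le_total ((B : ℝ) ^ d) (Ideal.absNorm w.asIdeal : ℝ) with hb | hb
        · exact Or.inl (Or.inr (Finset.mem_filter.2 ⟨hw, hb⟩))
        · exact Or.inr (Finset.mem_filter.2 ⟨(Set.Finite.mem_toFinset _).2 ⟨h6, hb⟩, hwZ⟩)
    have h1 := (Finset.card_le_card hsub).trans ((Finset.card_union_le _ _).trans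
      (Nat.add_le_add_right ((Finset.card_union_le _ _).trans (Nat.add_le_add_left hLc _)) _))
    -- the subset
    obtain ⟨S, hSZ, hSc, hSp⟩ := exists_small 6 (by norm_num)
      (fun w : HeightOneSpectrum (𝓞 F) => (Ideal.absNorm w.asIdeal : ℝ)) (fun w => by
        have := absNorm_pos w
        exact_mod_cast (show 1 ≤ Ideal.absNorm w.asIdeal by omega)) _ Z' rfl
    have hSN : ∏ w ∈ S, (Ideal.absNorm w.asIdeal : ℝ) ≤ (B : ℝ) ^ d := by
      rcases Nat.lt_or_ge B 2 with hB2 | hB2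
      · -- `B = 1`
        have hBe : B = 1 := by omega
        have hSe : S = ∅ := by
          rw [Finset.eq_empty_iff_forall_notMem]
          intro w hw
          have h2 := (Finset.mem_filter.1 (hSZ hw)).1
          rw [hWs, Set.Finite.mem_toFinset] at h2
          have h3 := h2.2
          rw [hBe, Nat.cast_one, one_pow] at h3
          have h4 := absNorm_pos w
          have h5 : (2 : ℝ) ≤ Ideal.absNorm w.asIdeal := by exact_mod_cast h4
          linarith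
        rw [hSe, Finset.prod_empty]
        exact one_le_pow₀ hB1
      · have hB2' : (2 : ℝ) ≤ B := by exact_mod_cast hB2
        have h2 := prod_norm_le Z' 2 (Δ p) hΔ (fun w hw => (Finset.mem_filter.1 hw).2)
          (bd_disc (hT' p hp).1 (hT' p hp).2)
        rw [Finset.prod_pow, ← hd] at h2
        have h3 : 0 ≤ ∏ w ∈ S, (Ideal.absNorm w.asIdeal : ℝ) := by positivity
        have h4 : ((∏ w ∈ S, (Ideal.absNorm w.asIdeal : ℝ)) ^ 6) ^ 2 ≤
            (∏ w ∈ Z', (Ideal.absNorm w.asIdeal : ℝ)) ^ 2 :=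
          pow_le_pow_left₀ (by positivity) hSp 2
        have h5 : (31 * (B : ℝ) ^ 6) ^ d ≤ ((B : ℝ) ^ d) ^ 12 := by
          rw [← pow_mul, mul_comm d 12, pow_mul]
          refine pow_le_pow_left₀ (by positivity) ?_ d
          have h6 : (31 : ℝ) ≤ (B : ℝ) ^ 6 := by
            calc (31 : ℝ) ≤ 2 ^ 6 := by norm_num
              _ ≤ (B : ℝ) ^ 6 := pow_le_pow_left₀ (by norm_num) hB2' 6
          calc 31 * (B : ℝ) ^ 6 ≤ (B : ℝ) ^ 6 * (B : ℝ) ^ 6 := by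
                exact mul_le_mul_of_nonneg_right h6 (by positivity)
            _ = (B : ℝ) ^ 12 := by ring
        have h7 : (∏ w ∈ S, (Ideal.absNorm w.asIdeal : ℝ)) ^ 12 ≤ ((B : ℝ) ^ d) ^ 12 := by
          calc (∏ w ∈ S, (Ideal.absNorm w.asIdeal : ℝ)) ^ 12 =
              ((∏ w ∈ S, (Ideal.absNorm w.asIdeal : ℝ)) ^ 6) ^ 2 := by ring
            _ ≤ _ := h4.trans (h2.trans h5)
        exact le_of_pow_le_pow_left₀ (by norm_num) (by positivity) h7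
    have hSP : S ∈ P.filter (fun W => ∀ w ∈ W, Δ p ∈ w.asIdeal ^ 2) := by
      refine Finset.mem_filter.2 ⟨Finset.mem_filter.2 ⟨Finset.mem_powerset.2 ?_, hSN⟩, ?_⟩
      · exact hSZ.trans (Finset.filter_subset _ _)
      · exact fun w hw => (Finset.mem_filter.1 (hSZ hw)).2
    have h8 : ((A : ℝ) ^ 6) ^ S.card ≤
        ∑ W ∈ P.filter (fun W => ∀ w ∈ W, Δ p ∈ w.asIdeal ^ 2), ((A : ℝ) ^ 6) ^ W.card :=
      Finset.single_le_sum (f := fun W : Finset (HeightOneSpectrum (𝓞 F)) => ((A : ℝ) ^ 6) ^ W.card)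
        (fun _ _ => by positivity) hSP
    calc (A : ℝ) ^ (Zd p).ncard ≤ (A : ℝ) ^ (K + 6 * S.card) := by
          refine pow_le_pow_right₀ hA1 ?_
          rw [hZc]
          omega
      _ = (A : ℝ) ^ K * ((A : ℝ) ^ 6) ^ S.card := by rw [pow_add, pow_mul]
      _ ≤ _ := mul_le_mul_of_nonneg_left h8 (by positivity)
  -- the interchange
  have hint : ∑ p ∈ T, ∑ W ∈ P.filter (fun W => ∀ w ∈ W, Δ p ∈ w.asIdeal ^ 2),
      ((A : ℝ) ^ 6) ^ W.card =
      ∑ W ∈ P, ((A : ℝ) ^ 6) ^ W.card *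
        ((T.filter (fun p => ∀ w ∈ W, Δ p ∈ w.asIdeal ^ 2)).card : ℝ) := by
    simp_rw [Finset.sum_filter]
    rw [Finset.sum_comm]
    refine Finset.sum_congr rfl fun W _ => ?_
    rw [← Finset.sum_filter, Finset.sum_const, nsmul_eq_mul, mul_comm]
  -- the bound
  have hbd : ∑ W ∈ P, ((A : ℝ) ^ 6) ^ W.card *
      ((T.filter (fun p => ∀ w ∈ W, Δ p ∈ w.asIdeal ^ 2)).card : ℝ) ≤
      4 * C0 ^ 2 * (B : ℝ) ^ (5 * d) * Real.exp (3 * (A : ℝ) ^ 6 * c) := by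
    have h1 : ∀ W ∈ P, ((A : ℝ) ^ 6) ^ W.card *
        ((T.filter (fun p => ∀ w ∈ W, Δ p ∈ w.asIdeal ^ 2)).card : ℝ) ≤
        4 * C0 ^ 2 * (B : ℝ) ^ (5 * d) *
          ∏ w ∈ W, (3 * (A : ℝ) ^ 6 * (1 / (Ideal.absNorm w.asIdeal : ℝ) ^ 2)) := by
      intro W hW
      obtain ⟨hW1, hW2⟩ := Finset.mem_filter.1 hW
      have h2 := classesW h hC0 hpts B hB T hT' W (fun w hw => by
        have h3 := Finset.mem_powerset.1 hW1 hw
        rw [hWs, Set.Finite.mem_toFinset] at h3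
        exact h3.1) hW2
      refine (mul_le_mul_of_nonneg_left h2 (by positivity)).trans (le_of_eq ?_)
      have h3 : ∏ w ∈ W, (3 * (A : ℝ) ^ 6 * (1 / (Ideal.absNorm w.asIdeal : ℝ) ^ 2)) =
          ((A : ℝ) ^ 6) ^ W.card * ∏ w ∈ W, (3 / (Ideal.absNorm w.asIdeal : ℝ) ^ 2) := by
        rw [← Finset.prod_const, ← Finset.prod_mul_distrib]
        refine Finset.prod_congr rfl fun w _ => ?_
        ring
      rw [h3, ← hd]
      ring
    refine (Finset.sum_le_sum h1).trans ?_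
    rw [← Finset.mul_sum]
    refine mul_le_mul_of_nonneg_left ?_ (by positivity)
    have h2 : ∑ W ∈ P, ∏ w ∈ W, (3 * (A : ℝ) ^ 6 * (1 / (Ideal.absNorm w.asIdeal : ℝ) ^ 2)) ≤
        ∑ W ∈ Ws.powerset,
          ∏ w ∈ W, (3 * (A : ℝ) ^ 6 * (1 / (Ideal.absNorm w.asIdeal : ℝ) ^ 2)) :=
      Finset.sum_le_sum_of_subset_of_nonneg (Finset.filter_subset _ _)
        (fun _ _ _ => by positivity)
    refine h2.trans ?_
    rw [← Finset.prod_one_add]
    calc ∏ w ∈ Ws, (1 + 3 * (A : ℝ) ^ 6 * (1 / (Ideal.absNorm w.asIdeal : ℝ) ^ 2)) ≤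
        ∏ w ∈ Ws, Real.exp (3 * (A : ℝ) ^ 6 * (1 / (Ideal.absNorm w.asIdeal : ℝ) ^ 2)) := by
          refine Finset.prod_le_prod (fun _ _ => by positivity) fun w _ => ?_
          rw [add_comm]
          exact Real.add_one_le_exp _
      _ = Real.exp (3 * (A : ℝ) ^ 6 * ∑ w ∈ Ws, 1 / (Ideal.absNorm w.asIdeal : ℝ) ^ 2) := by
          rw [← Real.exp_sum, Finset.mul_sum]
      _ ≤ Real.exp (3 * (A : ℝ) ^ 6 * c) := by
          refine Real.exp_le_exp.2 (mul_le_mul_of_nonneg_left (hsum Ws) (by positivity))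
  have hfinal : ((∑ p ∈ T, A₀ ^ (Zd p).ncard : ℕ) : ℝ) ≤ D * (B : ℝ) ^ (5 * d) := by
    push_cast
    have h1 : ∀ p ∈ T, (A₀ : ℝ) ^ (Zd p).ncard ≤ (A : ℝ) ^ (Zd p).ncard := fun p _ =>
      pow_le_pow_left₀ (Nat.cast_nonneg _) (by rw [hA]; push_cast; linarith) _
    refine (Finset.sum_le_sum h1).trans ((Finset.sum_le_sum hdec).trans ?_)
    rw [← Finset.mul_sum, hint]
    refine (mul_le_mul_of_nonneg_left hbd (by positivity)).trans (le_of_eq ?_)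
    rw [hD]
    ring
  have h1 : ((⌈D⌉₊ * B ^ (5 * d) : ℕ) : ℝ) ≥ D * (B : ℝ) ^ (5 * d) := by
    push_cast
    exact mul_le_mul_of_nonneg_right (Nat.le_ceil _) (by positivity)
  exact_mod_cast hfinal.trans h1

end Pool.Agent.H400.UN
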