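import Pool.Agent.H459.UN.Stm

/-!
# Project UN (owner helper459), subtask UN-CON: the conductor statement
-/

set_option autoImplicit false
set_option linter.all false

open Polynomial IsDedekindDomain NumberField
open scoped Classical IntermediateField

namespace Pool.Agent.H665.UN

open Pool.Agent.H459.UN

/-- A power basis with generator `θ`. -/
theorem exists_pb {F L : Type} [Field F] [NumberField F] [Field L] [NumberField L] [Algebra F L]
    (θ : L) (hθ : IsIntegral (𝓞 F) θ) (h : F⟮θ⟯ = ⊤) : ∃ B : PowerBasis F L, B.gen = θ := by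
  have hθ' : IsIntegral F θ := hθ.tower_top
  refine ⟨(IntermediateField.adjoin.powerBasis hθ').map
    ((IntermediateField.equivOfEq h).trans IntermediateField.topEquiv), ?_⟩
  rw [PowerBasis.map_gen, IntermediateField.adjoin.powerBasis_gen]
  rfl

/-- A common denominator of the integers of `L` in `𝓞 F[θ]`. -/
theorem exists_den {F L : Type} [Field F] [NumberField F] [Field L] [NumberField L] [Algebra F L]
    (θ : L) (hθ : IsIntegral (𝓞 F) θ) (h : F⟮θ⟯ = ⊤) :
    ∃ d : 𝓞 F, d ≠ 0 ∧ ∀ z : 𝓞 L, ∃ p : (𝓞 F)[X],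
      aeval θ p = algebraMap F L (algebraMap (𝓞 F) F d) * algebraMap (𝓞 L) L z := by
  obtain ⟨B, hB⟩ := exists_pb θ hθ h
  haveI : Module.Finite F L := B.finite
  haveI : Algebra.IsSeparable F L := inferInstance
  obtain ⟨a, b, hb, hab⟩ := IsFractionRing.div_surjective (𝓞 F) (Algebra.discr F B.basis)
  have hd0 : Algebra.discr F B.basis ≠ 0 := Algebra.discr_not_zero_of_basis F B.basis
  have hb0 : algebraMap (𝓞 F) F b ≠ 0 := by
    have := nonZeroDivisors.ne_zero hb
    exact (map_ne_zero_iff _ (FaithfulSMul.algebraMap_injective (𝓞 F) F)).mpr this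
  refine ⟨a, ?_, fun z => ?_⟩
  · rintro rfl
    apply hd0
    rw [← hab, map_zero, zero_div]
  · have hz : IsIntegral (𝓞 F) (algebraMap (𝓞 L) L z) :=
      (Algebra.IsIntegral.isIntegral (R := 𝓞 F) z).algebraMap
    have h1 : Algebra.discr F B.basis • (algebraMap (𝓞 L) L z) ∈ Algebra.adjoin (𝓞 F) {B.gen} :=
      Algebra.discr_mul_isIntegral_mem_adjoin F (by rw [hB]; exact hθ) hz
    have h2 := Subalgebra.smul_mem _ h1 b
    rw [hB, Algebra.adjoin_singleton_eq_range_aeval] at h2
    obtain ⟨p, hp⟩ := h2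
    refine ⟨p, ?_⟩
    have hp' : aeval θ p = b • (Algebra.discr F B.basis • (algebraMap (𝓞 L) L z)) := hp
    rw [hp', ← hab, Algebra.smul_def, Algebra.smul_def, ← mul_assoc,
      IsScalarTower.algebraMap_apply (𝓞 F) F L b, ← map_mul]
    congr 2
    field_simp

/-- Valuations of nonzero integers are bounded below uniformly. -/
theorem exp_norm_lt {L : Type} [Field L] [NumberField L] (b : 𝓞 L) (hb : b ≠ 0)
    (Q : HeightOneSpectrum (𝓞 L)) :
    WithZero.exp (-((Ideal.absNorm (Ideal.span {b}) : ℕ) : ℤ)) < Q.valuation L (algebraMap (𝓞 L) L b) := by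
  by_contra hlt
  rw [not_lt, HeightOneSpectrum.valuation_of_algebraMap,
    HeightOneSpectrum.intValuation_le_pow_iff_dvd] at hlt
  set N := Ideal.absNorm (Ideal.span {b}) with hN
  have hN0 : N ≠ 0 := by
    rw [hN, Ne, Ideal.absNorm_eq_zero_iff, Ideal.span_singleton_eq_bot]
    exact hb
  have h1 : Ideal.absNorm (Q.asIdeal ^ N) ∣ N :=
    Ideal.absNorm_dvd_absNorm_of_le (Ideal.le_of_dvd hlt)
  have h2 := Nat.le_of_dvd (Nat.pos_of_ne_zero hN0) h1
  rw [map_pow] at h2
  have h3 : 2 ≤ Ideal.absNorm Q.asIdeal := by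
    have h4 : Ideal.absNorm Q.asIdeal ≠ 0 := by
      rw [Ne, Ideal.absNorm_eq_zero_iff]
      exact Q.ne_bot
    have h5 : Ideal.absNorm Q.asIdeal ≠ 1 := by
      rw [Ne, Ideal.absNorm_eq_one_iff]
      exact Q.isPrime.ne_top
    omega
  have h6 : 2 ^ N ≤ Ideal.absNorm Q.asIdeal ^ N := Nat.pow_le_pow_left h3 N
  have h7 : N < 2 ^ N := Nat.lt_two_pow_self
  omega

/-- If `v (x) ≤ 1` at all primes over `w`, then there is `m ∉ w` with `m x` integral. -/
theorem exists_mult {F L : Type} [Field F] [NumberField F] [Field L] [NumberField L] [Algebra F L]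
    (w : HeightOneSpectrum (𝓞 F)) (x : L)
    (hx : ∀ P : HeightOneSpectrum (𝓞 L), w.asIdeal.map (algebraMap (𝓞 F) (𝓞 L)) ≤ P.asIdeal →
      P.valuation L x ≤ 1) :
    ∃ m : 𝓞 F, m ∉ w.asIdeal ∧ ∃ z : 𝓞 L,
      algebraMap (𝓞 L) L z = algebraMap F L (algebraMap (𝓞 F) F m) * x := by
  obtain ⟨a, b, hb, hab⟩ := IsFractionRing.div_surjective (𝓞 L) x
  have hb0 : b ≠ 0 := nonZeroDivisors.ne_zero hb
  set N := Ideal.absNorm (Ideal.span {b}) with hN
  have hfin : {v : HeightOneSpectrum (𝓞 L) | v.asIdeal ∣ Ideal.span {b}}.Finite :=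
    Ideal.finite_factors (by simpa using hb0)
  have hm : ∀ Q : HeightOneSpectrum (𝓞 L), ∃ m : 𝓞 F, m ∉ w.asIdeal ∧
      (¬ w.asIdeal.map (algebraMap (𝓞 F) (𝓞 L)) ≤ Q.asIdeal →
        algebraMap (𝓞 F) (𝓞 L) m ∈ Q.asIdeal) := by
    intro Q
    by_cases hQ : w.asIdeal.map (algebraMap (𝓞 F) (𝓞 L)) ≤ Q.asIdeal
    · exact ⟨1, fun h => w.isPrime.ne_top ((Ideal.eq_top_iff_one _).mpr h), fun h => absurd hQ h⟩
    · haveI : Q.asIdeal.IsMaximal := Q.isMaximal
      haveI hmax : (Q.asIdeal.comap (algebraMap (𝓞 F) (𝓞 L))).IsMaximal :=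
        Ideal.isMaximal_comap_of_isIntegral_of_isMaximal _
      have : ¬ Q.asIdeal.comap (algebraMap (𝓞 F) (𝓞 L)) ≤ w.asIdeal := by
        intro hle
        have heq := hmax.eq_of_le w.isPrime.ne_top hle
        apply hQ
        rw [Ideal.map_le_iff_le_comap, heq]
      obtain ⟨m, hm1, hm2⟩ := SetLike.not_le_iff_exists.mp this
      exact ⟨m, hm2, fun _ => hm1⟩
  choose m hmw hmQ using hm
  refine ⟨(∏ Q ∈ hfin.toFinset, m Q) ^ N, ?_, ?_⟩
  · intro h
    have h1 := w.isPrime.mem_of_pow_mem _ h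
    haveI := w.isPrime
    rw [Ideal.IsPrime.prod_mem_iff] at h1
    obtain ⟨Q, _, hQ⟩ := h1
    exact hmw Q hQ
  · have hmem : algebraMap F L (algebraMap (𝓞 F) F ((∏ Q ∈ hfin.toFinset, m Q) ^ N)) * x ∈
        (algebraMap (𝓞 L) L).range := by
      apply HeightOneSpectrum.mem_integers_of_valuation_le_one
      intro P
      have hco : ∀ y : 𝓞 F, algebraMap F L (algebraMap (𝓞 F) F y) =
          algebraMap (𝓞 L) L (algebraMap (𝓞 F) (𝓞 L) y) := by
        intro y
        rw [← IsScalarTower.algebraMap_apply (𝓞 F) F L, ← IsScalarTower.algebraMap_apply (𝓞 F) (𝓞 L) L]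
      rw [map_mul, hco]
      by_cases hP : w.asIdeal.map (algebraMap (𝓞 F) (𝓞 L)) ≤ P.asIdeal
      · exact mul_le_one' (P.valuation_le_one _) (hx P hP)
      · by_cases hPb : P.asIdeal ∣ Ideal.span {b}
        · have hPm : P ∈ hfin.toFinset := by
            rw [Set.Finite.mem_toFinset]
            exact hPb
          have h1 : P.valuation L (algebraMap (𝓞 L) L
              (algebraMap (𝓞 F) (𝓞 L) (∏ Q ∈ hfin.toFinset, m Q))) ≤ WithZero.exp (-1 : ℤ) := by
            have h2 : algebraMap (𝓞 F) (𝓞 L) (∏ Q ∈ hfin.toFinset, m Q) ∈ P.asIdeal := by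
              rw [← Finset.mul_prod_erase _ _ hPm, map_mul]
              exact Ideal.mul_mem_right _ _ (hmQ P hP)
            rw [HeightOneSpectrum.valuation_of_algebraMap]
            have h3 := (P.intValuation_le_pow_iff_dvd
              (algebraMap (𝓞 F) (𝓞 L) (∏ Q ∈ hfin.toFinset, m Q)) 1).mpr (by
                rw [pow_one, Ideal.dvd_span_singleton]
                exact h2)
            simpa using h3
          have h4 : P.valuation L (algebraMap (𝓞 L) L
              (algebraMap (𝓞 F) (𝓞 L) ((∏ Q ∈ hfin.toFinset, m Q) ^ N))) ≤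
                WithZero.exp (-(N : ℤ)) := by
            rw [map_pow, map_pow, map_pow]
            refine (pow_le_pow_left₀ zero_le' h1 N).trans (le_of_eq ?_)
            rw [← WithZero.exp_nsmul]
            simp
          have h5 := exp_norm_lt b hb0 P
          rw [← hN] at h5
          rw [← hab, map_div₀]
          have h6 : P.valuation L (algebraMap (𝓞 L) L a) ≤ 1 := P.valuation_le_one _
          have h7 : 0 < P.valuation L (algebraMap (𝓞 L) L b) := lt_of_le_of_lt zero_le' h5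
          rw [← mul_div_assoc, div_le_one₀ h7]
          calc _ ≤ WithZero.exp (-(N : ℤ)) * 1 := mul_le_mul' h4 h6
            _ ≤ _ := by rw [mul_one]; exact h5.le
        · have h8 : P.valuation L (algebraMap (𝓞 L) L b) = 1 := by
            refine le_antisymm (P.valuation_le_one _) (not_lt.mp fun hlt => hPb ?_)
            rw [HeightOneSpectrum.valuation_lt_one_iff_mem] at hlt
            rwa [Ideal.dvd_span_singleton]
          rw [← hab, map_div₀, h8, div_one]
          exact mul_le_one' (P.valuation_le_one _) (P.valuation_le_one _)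
    exact hmem

/-- **S_CON**. -/
theorem con : S_CON := by
  intro F L _ _ _ _ _ θ w hθ h
  obtain ⟨d, hd, hden⟩ := exists_den θ hθ h
  have hd' : algebraMap (𝓞 F) (𝓞 L) d ≠ 0 :=
    (map_ne_zero_iff _ (FaithfulSMul.algebraMap_injective (𝓞 F) (𝓞 L))).mpr hd
  refine ⟨Ideal.absNorm (Ideal.span {algebraMap (𝓞 F) (𝓞 L) d}), fun x hx => ?_⟩
  have hco : ∀ y : 𝓞 F, algebraMap F L (algebraMap (𝓞 F) F y) =
      algebraMap (𝓞 L) L (algebraMap (𝓞 F) (𝓞 L) y) := by
    intro y
    rw [← IsScalarTower.algebraMap_apply (𝓞 F) F L, ← IsScalarTower.algebraMap_apply (𝓞 F) (𝓞 L) L]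
  set D : L := algebraMap F L (algebraMap (𝓞 F) F d) with hD
  have hD0 : D ≠ 0 := by
    rw [hD, hco]
    exact (map_ne_zero_iff _ (FaithfulSMul.algebraMap_injective (𝓞 L) L)).mpr hd'
  obtain ⟨m, hm, z, hz⟩ := exists_mult w (x / D) (by
    intro P hP
    have h1 := hx P hP
    have h2 := exp_norm_lt (algebraMap (𝓞 F) (𝓞 L) d) hd' P
    rw [map_div₀, hD, hco, div_le_one₀ (lt_of_le_of_lt zero_le' h2)]
    exact h1.trans h2.le)
  obtain ⟨p, hp⟩ := hden z
  have hm0 : m ≠ 0 := by
    rintro rfl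
    exact hm (Ideal.zero_mem _)
  have hmF : algebraMap (𝓞 F) F m ≠ 0 :=
    (map_ne_zero_iff _ (FaithfulSMul.algebraMap_injective (𝓞 F) F)).mpr hm0
  have hmL : algebraMap F L (algebraMap (𝓞 F) F m) ≠ 0 := by
    rw [Ne, map_eq_zero]
    exact hmF
  have hvm : w.valuation F (algebraMap (𝓞 F) F m) = 1 := by
    refine le_antisymm (w.valuation_le_one _) (not_lt.mp fun hlt => hm ?_)
    rwa [HeightOneSpectrum.valuation_lt_one_iff_mem] at hlt
  refine ⟨C (algebraMap (𝓞 F) F m)⁻¹ * p.map (algebraMap (𝓞 F) F), fun i => ?_, ?_⟩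
  · rw [coeff_C_mul, coeff_map, map_mul, map_inv₀, hvm, inv_one, one_mul]
    exact w.valuation_le_one _
  · rw [map_mul, aeval_C, aeval_map_algebraMap, hp, hz, map_inv₀]
    field_simp

end Pool.Agent.H665.UN
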