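import Pool.Agent.H459.UN.Stm

set_option autoImplicit false
set_option linter.all false

open Polynomial IsDedekindDomain NumberField
open scoped Classical IntermediateField

namespace Pool.Agent.H679.UN

open Pool.Agent.H459.UN

/-- index bound from a map -/
theorem index_le_of_map {G X : Type} [CommGroup G] [Finite X] (H : Subgroup G)
    (hsq : ∀ x : G, x ^ 2 ∈ H) (t : G → X)
    (ht : ∀ x y : G, t x = t y → x * y ∈ H) : H.index ≠ 0 ∧ H.index ≤ Nat.card X := by
  have hinj : Function.Injective (fun q : G ⧸ H => t q.out) := by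
    intro q r hqr
    have h1 := ht _ _ hqr
    have h2 : q.out⁻¹ * r.out ∈ H := by
      have h3 := H.mul_mem (H.inv_mem (hsq q.out)) h1
      have h4 : (q.out ^ 2)⁻¹ * (q.out * r.out) = q.out⁻¹ * r.out := by
        rw [pow_two, mul_inv]
        rw [mul_assoc, ← mul_assoc (q.out)⁻¹ q.out r.out, inv_mul_cancel, one_mul]
      rw [h4] at h3
      exact h3
    have h5 := QuotientGroup.eq.mpr h2
    rw [QuotientGroup.out_eq', QuotientGroup.out_eq'] at h5
    exact h5
  have hfin : Finite (G ⧸ H) := Finite.of_injective _ hinj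
  refine ⟨?_, Nat.card_le_card_of_injective _ hinj⟩
  have : Nat.card (G ⧸ H) ≠ 0 := Nat.card_pos.ne'
  exact this

section Ded

variable {R K : Type} [CommRing R] [IsDedekindDomain R] [Field K] [Algebra R K]
  [IsFractionRing R K]

theorem crt_val (Q : Finset (HeightOneSpectrum R)) (n : ℕ) (x : HeightOneSpectrum R → R) :
    ∃ y : R, ∀ P ∈ Q, P.valuation K (algebraMap R K (y - x P)) ≤ WithZero.exp (-(n : ℤ)) := by
  obtain ⟨y, hy⟩ := IsDedekindDomain.exists_forall_sub_mem_ideal (s := Q)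
    (fun P : HeightOneSpectrum R => P.asIdeal) (fun _ => n) (fun P _ => P.prime)
    (fun P _ P' _ h h' => h (HeightOneSpectrum.ext h')) (fun P => x P.1)
  refine ⟨y, fun P hP => ?_⟩
  rw [HeightOneSpectrum.valuation_of_algebraMap, HeightOneSpectrum.intValuation_le_pow_iff_mem]
  exact hy P hP

theorem exists_exp_lt {ι : Type} (Q : Finset ι) (γ : ι → WithZero (Multiplicative ℤ))
    (hγ : ∀ i, γ i ≠ 0) : ∃ N : ℕ, ∀ i ∈ Q, WithZero.exp (-(N : ℤ)) < γ i := by
  refine ⟨Q.sup (fun i => (WithZero.log (γ i)).natAbs) + 1, fun i hi => ?_⟩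
  rw [← WithZero.exp_log (hγ i), WithZero.exp_lt_exp]
  have h1 : (WithZero.log (γ i)).natAbs ≤ Q.sup (fun i => (WithZero.log (γ i)).natAbs) :=
    Finset.le_sup (f := fun i => (WithZero.log (γ i)).natAbs) hi
  push_cast
  omega

theorem approx (Q : Finset (HeightOneSpectrum R)) (u : K) (hu : ∀ P ∈ Q, P.valuation K u ≤ 1)
    (γ : HeightOneSpectrum R → WithZero (Multiplicative ℤ)) (hγ : ∀ P, γ P ≠ 0) :
    ∃ c : R, ∀ P ∈ Q, P.valuation K (algebraMap R K c - u) < γ P := by
  obtain ⟨N, hN⟩ := exists_exp_lt Q γ hγ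
  have h1 : ∀ P : HeightOneSpectrum R, ∃ c : R, P ∈ Q → P.valuation K (algebraMap R K c - u) < γ P := by
    intro P
    by_cases hP : P ∈ Q
    · obtain ⟨c, hc⟩ := P.exists_valuation_sub_lt_of_integer (hu P hP) (Units.mk0 (γ P) (hγ P))
      exact ⟨c, fun _ => hc⟩
    · exact ⟨0, fun h => absurd h hP⟩
  choose c hc using h1
  obtain ⟨y, hy⟩ := crt_val (K := K) Q N c
  refine ⟨y, fun P hP => ?_⟩
  have h2 : algebraMap R K y - u = algebraMap R K (y - c P) + (algebraMap R K (c P) - u) := by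
    rw [map_sub]
    ring
  rw [h2]
  exact Valuation.map_add_lt _ (lt_of_le_of_lt (hy P hP) (hN P hP)) (hc P hP)

theorem exists_pi (Q : Finset (HeightOneSpectrum R)) (P : HeightOneSpectrum R) :
    ∃ a : K, P.valuation K a = WithZero.exp (-1 : ℤ) ∧
      ∀ P' ∈ Q, P' ≠ P → P'.valuation K a = 1 := by
  obtain ⟨π, hπ⟩ := P.valuation_exists_uniformizer' K
  obtain ⟨y, hy⟩ := crt_val (K := K) (insert P Q) 2 (fun P' => if P' = P then π else 1)
  refine ⟨algebraMap R K y, ?_, ?_⟩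
  · have h1 := hy P (Finset.mem_insert_self _ _)
    rw [if_pos rfl] at h1
    have h2 : P.valuation K (algebraMap R K (y - π)) < P.valuation K (algebraMap R K π) := by
      refine lt_of_le_of_lt h1 ?_
      rw [hπ, WithZero.exp_lt_exp]
      norm_num
    have h3 : algebraMap R K y = algebraMap R K (y - π) + algebraMap R K π := by
      rw [map_sub]
      ring
    rw [h3, Valuation.map_add_eq_of_lt_right _ h2, hπ]
  · intro P' hP' hne
    have h1 := hy P' (Finset.mem_insert_of_mem hP')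
    rw [if_neg hne] at h1
    have h2 : P'.valuation K (algebraMap R K (y - 1)) < 1 := by
      refine lt_of_le_of_lt h1 ?_
      rw [← WithZero.exp_zero, WithZero.exp_lt_exp]
      norm_num
    have h3 : algebraMap R K y = 1 + algebraMap R K (y - 1) := by
      rw [map_sub, map_one]
      ring
    rw [h3, Valuation.map_one_add_of_lt _ h2]

theorem exists_val (Q : Finset (HeightOneSpectrum R)) (n : HeightOneSpectrum R → ℤ) :
    ∃ s : K, s ≠ 0 ∧ ∀ P ∈ Q, P.valuation K s = WithZero.exp (n P) := by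
  choose π hπ1 hπ2 using exists_pi (K := K) Q
  have hne : ∀ P, π P ≠ 0 := by
    intro P h0
    have := hπ1 P
    rw [h0, map_zero] at this
    exact WithZero.exp_ne_zero this.symm
  refine ⟨∏ P ∈ Q, π P ^ (-(n P)), Finset.prod_ne_zero_iff.mpr fun P _ => zpow_ne_zero _ (hne P),
    fun P hP => ?_⟩
  rw [map_prod, Finset.prod_eq_single P]
  · rw [map_zpow₀, hπ1, ← WithZero.exp_zsmul]
    congr 1
    simp
  · intro P' hP' hne'
    rw [map_zpow₀, hπ2 P' P hP hne'.symm, one_zpow]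
  · intro h
    exact absurd hP h

end Ded

theorem sq_mem_Hw {F L : Type} [Field F] [NumberField F] [Field L] [NumberField L] [Algebra F L]
    (θ : L) (w : HeightOneSpectrum (𝓞 F)) (x : Lˣ) : x ^ 2 ∈ Hw θ w :=
  ⟨x, 1, by simp, by simpa using InR.one θ w, by simpa using InR.one θ w⟩

theorem idx_core (hN : S_NEW) (F L : Type) [Field F] [NumberField F] [Field L] [NumberField L]
    [Algebra F L] (θ : L) (w : HeightOneSpectrum (𝓞 F)) (hθ : IsIntegral (𝓞 F) θ)
    (hgen : F⟮θ⟯ = ⊤) (Q : Finset (HeightOneSpectrum (𝓞 L)))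
    (hQ : ∀ P : HeightOneSpectrum (𝓞 L), P ∈ Q ↔
      w.asIdeal.map (algebraMap (𝓞 F) (𝓞 L)) ≤ P.asIdeal)
    (X : Type) [Finite X] (τ : 𝓞 L → X)
    (hτ : ∀ c c' : 𝓞 L, (∀ P ∈ Q, c ∉ P.asIdeal) → (∀ P ∈ Q, c' ∉ P.asIdeal) → τ c = τ c' →
      ∃ r : 𝓞 L, ∀ P ∈ Q,
        P.valuation L (algebraMap (𝓞 L) L (c * c' - r ^ 2)) < P.valuation L 4) :
    (Hw θ w).index ≠ 0 ∧ (Hw θ w).index ≤ 2 ^ Q.card * Nat.card X := by
  set p : Lˣ → (Q → Bool) := fun x P => decide (Even (WithZero.log (P.1.valuation L (x : L))))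
    with hp
  set rep : (Q → Bool) → Lˣ := fun f => if h : ∃ b, p b = f then h.choose else 1 with hrep
  have hpr : ∀ x, p (rep (p x)) = p x := by
    intro x
    have h : ∃ b, p b = p x := ⟨x, rfl⟩
    rw [hrep]
    simp only [dif_pos h]
    exact h.choose_spec
  have h4 : ∀ P : HeightOneSpectrum (𝓞 L), P.valuation L (4 : L) ≠ 0 := fun P =>
    (Valuation.ne_zero_iff _).mpr (by norm_num)
  have h41 : ∀ P : HeightOneSpectrum (𝓞 L), P.valuation L (4 : L) ≤ 1 := by
    intro P
    have h : P.valuation L (algebraMap (𝓞 L) L 4) ≤ 1 := P.valuation_le_one 4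
    rwa [map_ofNat] at h
  have data : ∀ x : Lˣ, ∃ (s : L) (c : 𝓞 L), s ≠ 0 ∧ ∀ P ∈ Q,
      P.valuation L ((x : L) * (rep (p x) : L) / s ^ 2) = 1 ∧
      P.valuation L (algebraMap (𝓞 L) L c - (x : L) * (rep (p x) : L) / s ^ 2) <
        P.valuation L 4 := by
    intro x
    have hev : ∀ P ∈ Q, Even (WithZero.log (P.valuation L ((x : L) * (rep (p x) : L)))) := by
      intro P hP
      have h1 : P.valuation L (x : L) ≠ 0 := (Valuation.ne_zero_iff _).mpr x.ne_zero
      have h2 : P.valuation L (rep (p x) : L) ≠ 0 :=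
        (Valuation.ne_zero_iff _).mpr (rep (p x)).ne_zero
      rw [map_mul, WithZero.log_mul h1 h2]
      have h3 := congrFun (hpr x) ⟨P, hP⟩
      simp only [hp, decide_eq_decide] at h3
      rw [Int.even_add]
      exact h3.symm
    obtain ⟨s, hs, hsv⟩ := exists_val (K := L) Q
      (fun P => WithZero.log (P.valuation L ((x : L) * (rep (p x) : L))) / 2)
    have hu : ∀ P ∈ Q, P.valuation L ((x : L) * (rep (p x) : L) / s ^ 2) = 1 := by
      intro P hP
      have h0 : P.valuation L ((x : L) * (rep (p x) : L)) ≠ 0 :=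
        (Valuation.ne_zero_iff _).mpr (mul_ne_zero x.ne_zero (rep (p x)).ne_zero)
      rw [map_div₀, map_pow, hsv P hP, div_eq_one_iff_eq (pow_ne_zero _ WithZero.exp_ne_zero),
        ← WithZero.exp_nsmul]
      conv_lhs => rw [← WithZero.exp_log h0]
      congr 1
      obtain ⟨m, hm⟩ := hev P hP
      rw [hm]
      simp only [nsmul_eq_mul]
      push_cast
      omega
    obtain ⟨c, hc⟩ := approx Q ((x : L) * (rep (p x) : L) / s ^ 2) (fun P hP => (hu P hP).le)
      (fun P => P.valuation L (4 : L)) h4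
    exact ⟨s, c, hs, fun P hP => ⟨hu P hP, hc P hP⟩⟩
  choose s c hs hc using data
  have hcu : ∀ x, ∀ P ∈ Q, P.valuation L (algebraMap (𝓞 L) L (c x)) = 1 := by
    intro x P hP
    obtain ⟨h1, h2⟩ := hc x P hP
    have h3 : P.valuation L (algebraMap (𝓞 L) L (c x) - (x : L) * (rep (p x) : L) / s x ^ 2) <
        P.valuation L ((x : L) * (rep (p x) : L) / s x ^ 2) := by
      rw [h1]
      exact lt_of_lt_of_le h2 (h41 P)
    have h4' := Valuation.map_add_eq_of_lt_right _ h3
    rw [sub_add_cancel, h1] at h4'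
    exact h4'
  have key := index_le_of_map (X := (Q → Bool) × X) (Hw θ w) (sq_mem_Hw θ w)
    (fun x => (p x, τ (c x))) ?_
  · refine ⟨key.1, le_trans key.2 (le_of_eq ?_)⟩
    rw [Nat.card_prod, Nat.card_fun, Nat.card_eq_fintype_card, Nat.card_eq_fintype_card]
    simp
  intro x y hxy
  simp only [Prod.mk.injEq] at hxy
  obtain ⟨hp1, hτ1⟩ := hxy
  obtain ⟨r, hr⟩ := hτ (c x) (c y)
    (fun P hP => (P.valuation_eq_one_iff_notMem (K := L)).mp (hcu x P hP))
    (fun P hP => (P.valuation_eq_one_iff_notMem (K := L)).mp (hcu y P hP)) hτ1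
  set b : Lˣ := rep (p x) with hb
  have hb' : rep (p y) = b := by rw [hb, hp1]
  set u : L := (x : L) * (b : L) / s x ^ 2 with hu
  set u' : L := (y : L) * (b : L) / s y ^ 2 with hu'
  have hux : ∀ P ∈ Q, P.valuation L u = 1 ∧
      P.valuation L (algebraMap (𝓞 L) L (c x) - u) < P.valuation L 4 := fun P hP => hc x P hP
  have huy : ∀ P ∈ Q, P.valuation L u' = 1 ∧
      P.valuation L (algebraMap (𝓞 L) L (c y) - u') < P.valuation L 4 := by
    intro P hP
    have := hc y P hP
    rw [hb'] at this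
    exact this
  have hmain : ∀ P ∈ Q, P.valuation L (u * u' - algebraMap (𝓞 L) L r ^ 2) < P.valuation L 4 := by
    intro P hP
    have e1 : u * u' - algebraMap (𝓞 L) L r ^ 2 =
        (- ((algebraMap (𝓞 L) L (c x) - u) * u') -
          (algebraMap (𝓞 L) L (c x) * (algebraMap (𝓞 L) L (c y) - u'))) +
          algebraMap (𝓞 L) L (c x * c y - r ^ 2) := by
      rw [map_sub, map_mul, map_pow]
      ring
    rw [e1]
    refine Valuation.map_add_lt _ (Valuation.map_sub_lt _ ?_ ?_) (hr P hP)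
    · rw [Valuation.map_neg, map_mul, (huy P hP).1, mul_one]
      exact (hux P hP).2
    · rw [map_mul, hcu x P hP, one_mul]
      exact (huy P hP).2
  by_cases hr0 : algebraMap (𝓞 L) L r = 0
  · have hemp : ∀ P, P ∉ Q := by
      intro P hP
      have h1 := hmain P hP
      rw [hr0] at h1
      have h2 : u * u' - 0 ^ 2 = u * u' := by ring
      rw [h2, map_mul, (hux P hP).1, (huy P hP).1, one_mul] at h1
      exact absurd h1 (not_lt.mpr (h41 P))
    exact hN F L θ w hθ hgen (x * y) (fun P hP => absurd ((hQ P).mpr hP) (hemp P))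
  have hu0 : u ≠ 0 := div_ne_zero (mul_ne_zero x.ne_zero b.ne_zero) (pow_ne_zero _ (hs x))
  have hu0' : u' ≠ 0 := div_ne_zero (mul_ne_zero y.ne_zero b.ne_zero) (pow_ne_zero _ (hs y))
  have hz0 : u * u' / algebraMap (𝓞 L) L r ^ 2 ≠ 0 :=
    div_ne_zero (mul_ne_zero hu0 hu0') (pow_ne_zero _ hr0)
  have hz : Units.mk0 (u * u' / algebraMap (𝓞 L) L r ^ 2) hz0 ∈ Hw θ w := by
    apply hN F L θ w hθ hgen
    intro P hP
    have hPQ := (hQ P).mpr hP
    have h1 := hmain P hPQ
    have h2 : P.valuation L (u * u') = 1 := by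
      rw [map_mul, (hux P hPQ).1, (huy P hPQ).1, one_mul]
    have h3 : P.valuation L (algebraMap (𝓞 L) L r ^ 2) = 1 := by
      have h3' : P.valuation L (u * u' - algebraMap (𝓞 L) L r ^ 2) < P.valuation L (u * u') := by
        rw [h2]
        exact lt_of_lt_of_le h1 (h41 P)
      have h4' := Valuation.map_sub_eq_of_lt_left _ h3'
      rw [sub_sub_cancel, h2] at h4'
      exact h4'
    have e2 : (((Units.mk0 (u * u' / algebraMap (𝓞 L) L r ^ 2) hz0 : Lˣ) : L) - 1) / 4 =
        (u * u' - algebraMap (𝓞 L) L r ^ 2) / (algebraMap (𝓞 L) L r ^ 2 * 4) := by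
      rw [Units.val_mk0]
      field_simp
    rw [e2, map_div₀, map_mul, h3, one_mul]
    have h5 : 0 < P.valuation L (4 : L) := by
      rw [zero_lt_iff]
      exact h4 P
    exact (div_lt_one₀ h5).mpr h1
  have hg0 : s x * s y * algebraMap (𝓞 L) L r / (b : L) ≠ 0 :=
    div_ne_zero (mul_ne_zero (mul_ne_zero (hs x) (hs y)) hr0) b.ne_zero
  have hxy : x * y = (Units.mk0 _ hg0) ^ 2 * Units.mk0 _ hz0 := by
    apply Units.ext
    rw [Units.val_mul, Units.val_mul, Units.val_pow_eq_pow_val, Units.val_mk0, Units.val_mk0,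
      hu, hu']
    have hb0 := b.ne_zero
    have hsx := hs x
    have hsy := hs y
    field_simp
  rw [hxy]
  exact (Hw θ w).mul_mem (sq_mem_Hw θ w _) hz


theorem sq_mod {L : Type} [Field L] [NumberField L] (P : HeightOneSpectrum (𝓞 L)) (c c' : 𝓞 L)
    (hc : c ∉ P.asIdeal) (hc' : c' ∉ P.asIdeal)
    (h : IsSquare (Ideal.Quotient.mk P.asIdeal c) ↔ IsSquare (Ideal.Quotient.mk P.asIdeal c')) :
    ∃ r : 𝓞 L, c * c' - r ^ 2 ∈ P.asIdeal := by
  haveI : P.asIdeal.IsMaximal := P.isMaximal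
  letI : Field (𝓞 L ⧸ P.asIdeal) := Ideal.Quotient.field P.asIdeal
  haveI : Finite (𝓞 L ⧸ P.asIdeal) := Ideal.finiteQuotientOfFreeOfNeBot P.asIdeal P.ne_bot
  letI : Fintype (𝓞 L ⧸ P.asIdeal) := Fintype.ofFinite _
  have h0 : Ideal.Quotient.mk P.asIdeal c ≠ 0 := fun h' => hc (Ideal.Quotient.eq_zero_iff_mem.mp h')
  have h0' : Ideal.Quotient.mk P.asIdeal c' ≠ 0 :=
    fun h' => hc' (Ideal.Quotient.eq_zero_iff_mem.mp h')
  have hsq : IsSquare (Ideal.Quotient.mk P.asIdeal c * Ideal.Quotient.mk P.asIdeal c') := by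
    by_cases h1 : IsSquare (Ideal.Quotient.mk P.asIdeal c)
    · exact h1.mul (h.mp h1)
    · have h2 := fun h3 => h1 (h.mpr h3)
      rw [← quadraticChar_one_iff_isSquare (mul_ne_zero h0 h0'), map_mul,
        quadraticChar_neg_one_iff_not_isSquare.mpr h1,
        quadraticChar_neg_one_iff_not_isSquare.mpr h2]
      norm_num
  obtain ⟨r, hr⟩ := hsq
  obtain ⟨r', rfl⟩ := Ideal.Quotient.mk_surjective r
  refine ⟨r', ?_⟩
  rw [← Ideal.Quotient.eq, map_mul, map_pow, hr, pow_two]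

theorem odd_case (F L : Type) [Field F] [NumberField F] [Field L] [NumberField L]
    [Algebra F L] (w : HeightOneSpectrum (𝓞 F)) (h2 : (2 : 𝓞 F) ∉ w.asIdeal)
    (P : HeightOneSpectrum (𝓞 L))
    (hP : w.asIdeal.map (algebraMap (𝓞 F) (𝓞 L)) ≤ P.asIdeal) : P.valuation L (4 : L) = 1 := by
  have h3 : (2 : 𝓞 L) ∉ P.asIdeal := by
    intro h
    have h5 : w.asIdeal ≤ P.asIdeal.comap (algebraMap (𝓞 F) (𝓞 L)) :=
      Ideal.map_le_iff_le_comap.mp hP
    have h6 : P.asIdeal.comap (algebraMap (𝓞 F) (𝓞 L)) ≠ ⊤ :=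
      Ideal.comap_ne_top _ P.isPrime.ne_top
    have h7 := w.isMaximal.eq_of_le h6 h5
    apply h2
    rw [h7, Ideal.mem_comap, map_ofNat]
    exact h
  have h4 : (4 : 𝓞 L) ∉ P.asIdeal := by
    intro h
    have e : (4 : 𝓞 L) = 2 * 2 := by norm_num
    rw [e] at h
    rcases P.isPrime.mem_or_mem h with h' | h' <;> exact h3 h'
  have h5 := (P.valuation_eq_one_iff_notMem (K := L)).mpr h4
  rwa [map_ofNat] at h5

theorem idx (hN : S_NEW) : S_IDX := by
  intro F _ _
  refine ⟨2 ^ 3 * 8 ^ (Module.finrank ℚ F * 3), ?_⟩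
  intro L _ _ _ θ w hθ hgen h3
  have hI : w.asIdeal.map (algebraMap (𝓞 F) (𝓞 L)) ≠ ⊥ := by
    intro h
    rw [Ideal.map_eq_bot_iff_of_injective (FaithfulSMul.algebraMap_injective _ _)] at h
    exact w.ne_bot h
  have hfin := Ideal.finite_factors hI
  set Q := hfin.toFinset with hQdef
  have hQ : ∀ P : HeightOneSpectrum (𝓞 L), P ∈ Q ↔
      w.asIdeal.map (algebraMap (𝓞 F) (𝓞 L)) ≤ P.asIdeal := by
    intro P
    rw [hQdef, Set.Finite.mem_toFinset, Set.mem_setOf_eq, Ideal.dvd_iff_le]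
  haveI : w.asIdeal.IsMaximal := w.isMaximal
  haveI hnz : NoZeroSMulDivisors (𝓞 F) (𝓞 L) := by
    constructor
    intro a b hab
    rw [Algebra.smul_def] at hab
    rcases mul_eq_zero.mp hab with h | h
    · left
      exact (map_eq_zero_iff _ (FaithfulSMul.algebraMap_injective (𝓞 F) (𝓞 L))).mp h
    · exact Or.inr h
  have hcard : Q.card ≤ 3 := by
    rw [← h3]
    refine le_trans ?_ (Ideal.card_primesOverFinset_le_finrank (𝓞 L) F L w.ne_bot)
    refine Finset.card_le_card_of_injOn (fun P => P.asIdeal) ?_ ?_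
    · intro P hP
      have h5 := (hQ P).mp hP
      rw [Finset.mem_coe, IsDedekindDomain.mem_primesOverFinset_iff w.ne_bot]
      refine ⟨P.isPrime, ?_⟩
      rw [Ideal.liesOver_iff_dvd_map P.isPrime.ne_top, Ideal.dvd_iff_le]
      exact h5
    · intro P _ P' _ h
      exact HeightOneSpectrum.ext h
  have hpow : (2 : ℕ) ^ Q.card ≤ 2 ^ 3 := Nat.pow_le_pow_right (by norm_num) hcard
  by_cases h2 : (2 : 𝓞 F) ∈ w.asIdeal
  · have hQ2 : ∀ P ∈ Q, (2 : 𝓞 L) ∈ P.asIdeal := by
      intro P hP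
      have h5 := Ideal.mem_map_of_mem (algebraMap (𝓞 F) (𝓞 L)) h2
      rw [map_ofNat] at h5
      exact (hQ P).mp hP h5
    have h8 : (Ideal.span {((8 : ℕ) : 𝓞 L)}) ≠ ⊥ := by
      rw [Ne, Ideal.span_singleton_eq_bot]
      norm_num
    haveI : Finite (𝓞 L ⧸ Ideal.span {((8 : ℕ) : 𝓞 L)}) := Ideal.finiteQuotientOfFreeOfNeBot _ h8
    have key := idx_core hN F L θ w hθ hgen Q hQ (𝓞 L ⧸ Ideal.span {((8 : ℕ) : 𝓞 L)})
      (Ideal.Quotient.mk _) ?_
    · have hc8 : Nat.card (𝓞 L ⧸ Ideal.span {((8 : ℕ) : 𝓞 L)}) = 8 ^ (Module.finrank ℚ F * 3) := by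
        have h9 := Ideal.absNorm_span_natCast (S := 𝓞 L) 8
        rw [Ideal.absNorm_apply, Submodule.cardQuot_apply] at h9
        rw [h9, RingOfIntegers.rank, ← Module.finrank_mul_finrank ℚ F L, h3]
      rw [hc8] at key
      refine ⟨key.1, fun h => absurd h2 h, fun _ => le_trans key.2 ?_⟩
      exact Nat.mul_le_mul_right _ hpow
    · intro c c' hc hc' h
      refine ⟨c, fun P hP => ?_⟩
      rw [Ideal.Quotient.eq, Ideal.mem_span_singleton] at h
      obtain ⟨m, hm⟩ := h
      have e1 : c * c' - c ^ 2 = (4 : 𝓞 L) * 2 * (-(c * m)) := by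
        have e2 : c * c' - c ^ 2 = - (c * (c - c')) := by ring
        rw [e2, hm]
        push_cast
        ring
      have h44 : algebraMap (𝓞 L) L (4 : 𝓞 L) = 4 := map_ofNat _ 4
      have e3 : algebraMap (𝓞 L) L ((4 : 𝓞 L) * 2 * (-(c * m))) =
          4 * algebraMap (𝓞 L) L 2 * algebraMap (𝓞 L) L (-(c * m)) := by
        rw [map_mul (algebraMap (𝓞 L) L), map_mul (algebraMap (𝓞 L) L), h44]
      rw [e1, e3, map_mul (P.valuation L), map_mul (P.valuation L)]
      have h5 : P.valuation L (algebraMap (𝓞 L) L 2) < 1 := by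
        exact (P.valuation_lt_one_iff_mem (K := L) 2).mpr (hQ2 P hP)
      have h6 : P.valuation L (algebraMap (𝓞 L) L (-(c * m))) ≤ 1 := P.valuation_le_one _
      have h7 : P.valuation L (4 : L) ≠ 0 := (Valuation.ne_zero_iff _).mpr (by norm_num)
      have h8' : 0 < P.valuation L (4 : L) := zero_lt_iff.mpr h7
      calc P.valuation L (4 : L) * P.valuation L (algebraMap (𝓞 L) L 2) *
            P.valuation L (algebraMap (𝓞 L) L (-(c * m)))
          ≤ P.valuation L (4 : L) * P.valuation L (algebraMap (𝓞 L) L 2) * 1 :=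
            mul_le_mul_right h6 _
        _ = P.valuation L (4 : L) * P.valuation L (algebraMap (𝓞 L) L 2) := mul_one _
        _ < P.valuation L (4 : L) * 1 := mul_lt_mul_of_pos_left h5 h8'
        _ = P.valuation L (4 : L) := mul_one _
  · have key := idx_core hN F L θ w hθ hgen Q hQ (Q → Bool)
      (fun c P => decide (IsSquare (Ideal.Quotient.mk P.1.asIdeal c))) ?_
    · have hcB : Nat.card (Q → Bool) = 2 ^ Q.card := by
        rw [Nat.card_fun, Nat.card_eq_fintype_card, Nat.card_eq_fintype_card]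
        simp
      rw [hcB] at key
      refine ⟨key.1, fun _ => le_trans key.2 ?_, fun h => absurd h h2⟩
      calc 2 ^ Q.card * 2 ^ Q.card ≤ 2 ^ 3 * 2 ^ 3 := Nat.mul_le_mul hpow hpow
        _ = 64 := by norm_num
    · intro c c' hc hc' h
      have h5 : ∀ P : HeightOneSpectrum (𝓞 L), ∃ r : 𝓞 L, P ∈ Q → c * c' - r ^ 2 ∈ P.asIdeal := by
        intro P
        by_cases hP : P ∈ Q
        · have h6 := congrFun h ⟨P, hP⟩
          simp only [decide_eq_decide] at h6
          obtain ⟨r, hr⟩ := sq_mod P c c' (hc P hP) (hc' P hP) h6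
          exact ⟨r, fun _ => hr⟩
        · exact ⟨0, fun h' => absurd h' hP⟩
      choose r hr using h5
      obtain ⟨y, hy⟩ := crt_val (K := L) Q 1 r
      refine ⟨y, fun P hP => ?_⟩
      rw [odd_case F L w h2 P ((hQ P).mp hP)]
      have h7 : P.valuation L (algebraMap (𝓞 L) L (y - r P)) < 1 := by
        refine lt_of_le_of_lt (hy P hP) ?_
        rw [← WithZero.exp_zero, WithZero.exp_lt_exp]
        norm_num
      have h8 : y - r P ∈ P.asIdeal := (P.valuation_lt_one_iff_mem (K := L) _).mp h7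
      have h9 : c * c' - y ^ 2 ∈ P.asIdeal := by
        have e : c * c' - y ^ 2 = (c * c' - r P ^ 2) - (y + r P) * (y - r P) := by ring
        rw [e]
        exact P.asIdeal.sub_mem (hr P hP) (P.asIdeal.mul_mem_left _ h8)
      exact (P.valuation_lt_one_iff_mem (K := L) _).mpr h9

end Pool.Agent.H679.UN
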