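import Pool.Agent.H459.UN.Stm

set_option autoImplicit false
set_option linter.all false

/-!
# Newton (subtask UN-NEW of helper459, by helper284)
-/

open Polynomial IsDedekindDomain NumberField
open scoped Classical IntermediateField TensorProduct

namespace Pool.Agent.H284.UN

open Pool.Agent.H459.UN

theorem InR.add {F L : Type} [Field F] [NumberField F] [Field L] [NumberField L] [Algebra F L] {θ : L}
    {w : HeightOneSpectrum (𝓞 F)} {x y : L} (hx : InR θ w x) (hy : InR θ w y) : InR θ w (x + y) := by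
  obtain ⟨p, hp, rfl⟩ := hx
  obtain ⟨q, hq, rfl⟩ := hy
  refine ⟨p + q, fun i => ?_, map_add _ _ _⟩
  rw [coeff_add]
  exact Valuation.map_add_le _ (hp i) (hq i)

theorem val_le_exp {x : WithZero (Multiplicative ℤ)} (hx : x < 1) : x ≤ WithZero.exp (-1 : ℤ) := by
  rcases eq_or_ne x 0 with rfl | h0
  · exact zero_le'
  · rw [← WithZero.exp_zero, ← WithZero.log_lt_iff_lt_exp h0] at hx
    rw [← WithZero.log_le_iff_le_exp h0]
    omega

theorem new (h : S_CON) : S_NEW := by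
  intro F L _ _ _ _ _ θ w hint hgen z hz
  obtain ⟨N, hN⟩ := h F L θ w hint hgen
  by_cases hex : ∃ 𝔓 : HeightOneSpectrum (𝓞 L),
      w.asIdeal.map (algebraMap (𝓞 F) (𝓞 L)) ≤ 𝔓.asIdeal
  swap
  · exact ⟨1, z, by simp, hN _ fun 𝔓 h𝔓 => absurd ⟨𝔓, h𝔓⟩ hex,
      hN _ fun 𝔓 h𝔓 => absurd ⟨𝔓, h𝔓⟩ hex⟩
  obtain ⟨𝔓₀, h𝔓₀⟩ := hex
  have hv2 : ∀ 𝔓 : HeightOneSpectrum (𝓞 L), 𝔓.valuation L 2 ≤ 1 := by
    intro 𝔓
    have e : algebraMap (𝓞 L) L 2 = 2 := map_ofNat (algebraMap (𝓞 L) L) 2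
    rw [← e]
    exact 𝔓.valuation_le_one (K := L) (2 : 𝓞 L)
  have hv4 : ∀ 𝔓 : HeightOneSpectrum (𝓞 L), 𝔓.valuation L 4 ≤ 1 := by
    intro 𝔓
    have e : algebraMap (𝓞 L) L 4 = 4 := map_ofNat (algebraMap (𝓞 L) L) 4
    rw [← e]
    exact 𝔓.valuation_le_one (K := L) (4 : 𝓞 L)
  have key : ∀ n : ℕ, ∃ r ρ : Lˣ, z = r ^ 2 * ρ ∧ ∀ 𝔓 : HeightOneSpectrum (𝓞 L),
      w.asIdeal.map (algebraMap (𝓞 F) (𝓞 L)) ≤ 𝔓.asIdeal →
      𝔓.valuation L (((ρ : L) - 1) / 4) ≤ WithZero.exp (-((n : ℤ) + 1)) := by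
    intro n
    induction n with
    | zero =>
      refine ⟨1, z, by simp, fun 𝔓 h𝔓 => ?_⟩
      have := val_le_exp (hz 𝔓 h𝔓)
      simpa using this
    | succ n ih =>
      obtain ⟨r, ρ, hρ, hv⟩ := ih
      obtain ⟨t, ht⟩ : ∃ t : L, t = ((ρ : L) - 1) / 4 := ⟨_, rfl⟩
      have ht' : (ρ : L) = 1 + 4 * t := by
        rw [ht]
        field_simp
        ring
      rw [← ht] at hv
      have hlt : ∀ 𝔓 : HeightOneSpectrum (𝓞 L),
          w.asIdeal.map (algebraMap (𝓞 F) (𝓞 L)) ≤ 𝔓.asIdeal → 𝔓.valuation L t < 1 := by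
        intro 𝔓 h𝔓
        refine lt_of_le_of_lt (hv 𝔓 h𝔓) ?_
        rw [← WithZero.exp_zero, WithZero.exp_lt_exp]
        omega
      have h1 : ∀ 𝔓 : HeightOneSpectrum (𝓞 L),
          w.asIdeal.map (algebraMap (𝓞 F) (𝓞 L)) ≤ 𝔓.asIdeal →
          𝔓.valuation L (1 + 2 * t) = 1 := by
        intro 𝔓 h𝔓
        refine Valuation.map_one_add_of_lt _ ?_
        rw [map_mul]
        exact lt_of_le_of_lt (mul_le_of_le_one_left' (hv2 𝔓)) (hlt 𝔓 h𝔓)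
      have hne : 1 + 2 * t ≠ 0 := by
        intro h0
        have := h1 𝔓₀ h𝔓₀
        rw [h0, map_zero] at this
        exact zero_ne_one this
      obtain ⟨c, hc⟩ : ∃ c : Lˣ, (c : L) = 1 + 2 * t := ⟨Units.mk0 _ hne, rfl⟩
      refine ⟨r * c, ρ * (c ^ 2)⁻¹, ?_, fun 𝔓 h𝔓 => ?_⟩
      · rw [hρ, mul_pow, mul_assoc, mul_comm ρ, mul_inv_cancel_left]
      · have h2 : (((ρ * (c ^ 2)⁻¹ : Lˣ) : L) - 1) / 4 = -(t ^ 2 / (1 + 2 * t) ^ 2) := by
          have e2 : (ρ : L) = (c : L) ^ 2 - 4 * t ^ 2 := by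
            rw [hc, ht']
            ring
          rw [Units.val_mul, Units.val_inv_eq_inv_val, Units.val_pow_eq_pow_val, ← hc, e2]
          have hcn := c.ne_zero
          field_simp
          ring
        rw [h2, Valuation.map_neg, map_div₀, map_pow, map_pow, h1 𝔓 h𝔓, one_pow, div_one, pow_two]
        have h3 : WithZero.exp (-(((n + 1 : ℕ) : ℤ) + 1)) =
            WithZero.exp (-((n : ℤ) + 1)) * WithZero.exp (-1 : ℤ) := by
          rw [← WithZero.exp_add]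
          push_cast
          ring_nf
        rw [h3]
        exact mul_le_mul' (hv 𝔓 h𝔓) (val_le_exp (hlt 𝔓 h𝔓))
  obtain ⟨r, ρ, hρ, hv⟩ := key N
  have hsm : ∀ 𝔓 : HeightOneSpectrum (𝓞 L),
      w.asIdeal.map (algebraMap (𝓞 F) (𝓞 L)) ≤ 𝔓.asIdeal →
      𝔓.valuation L ((ρ : L) - 1) ≤ WithZero.exp (-((N : ℤ) + 1)) := by
    intro 𝔓 h𝔓
    have h1 : (ρ : L) - 1 = 4 * (((ρ : L) - 1) / 4) := by field_simp
    rw [h1, map_mul]
    exact (mul_le_of_le_one_left' (hv4 𝔓)).trans (hv 𝔓 h𝔓)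
  have hN1 : WithZero.exp (-((N : ℤ) + 1)) ≤ WithZero.exp (-(N : ℤ)) := by
    rw [WithZero.exp_le_exp]
    omega
  refine ⟨r, ρ, hρ, ?_, ?_⟩
  · have h1 : InR θ w ((ρ : L) - 1) := hN _ fun 𝔓 h𝔓 => (hsm 𝔓 h𝔓).trans hN1
    have h2 := InR.add h1 (InR.one θ w)
    rwa [sub_add_cancel] at h2
  · have h1 : InR θ w (((ρ⁻¹ : Lˣ) : L) - 1) := by
      refine hN _ fun 𝔓 h𝔓 => ?_
      have hρ1 : 𝔓.valuation L (ρ : L) = 1 := by
        have h3 : 𝔓.valuation L ((ρ : L) - 1) < 1 := by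
          refine lt_of_le_of_lt (hsm 𝔓 h𝔓) ?_
          rw [← WithZero.exp_zero, WithZero.exp_lt_exp]
          omega
        have h4 := Valuation.map_one_add_of_lt _ h3
        rwa [add_sub_cancel] at h4
      have h5 : ((ρ⁻¹ : Lˣ) : L) - 1 = -(((ρ : L) - 1) / (ρ : L)) := by
        rw [Units.val_inv_eq_inv_val]
        have := ρ.ne_zero
        field_simp
        ring
      rw [h5, Valuation.map_neg, map_div₀, hρ1, div_one]
      exact (hsm 𝔓 h𝔓).trans hN1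
    have h2 := InR.add h1 (InR.one θ w)
    rwa [sub_add_cancel] at h2

end Pool.Agent.H284.UN
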