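import Pool.Agent.H459.UN.Stm

/-!
# The map `x - θ` is a homomorphism modulo squares
-/

set_option autoImplicit false

open Polynomial
open scoped Classical

namespace Pool.Agent.H740.UN

open Pool.Agent.H459.UN

theorem kp_zero {K L : Type} [Field K] [Field L] [Algebra K L] {W : WeierstrassCurve.Affine K}
    (θ : L) : kp (W := W) θ (0 : W.Point) = 1 := rfl

theorem kp_some {K L : Type} [Field K] [Field L] [Algebra K L] {W : WeierstrassCurve.Affine K}
    (θ : L) {x y : K} (h : W.Nonsingular x y) :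
    kp θ (WeierstrassCurve.Affine.Point.some x y h) = algebraMap K L x - θ := rfl

theorem kp_aeval {K L : Type} [Field K] [Field L] [Algebra K L] {W : WeierstrassCurve.Affine K}
    (θ : L) (P : W.Point) : ∃ s : K[X], kp θ P = aeval θ s := by
  rcases P with _ | ⟨x, y, h⟩
  · exact ⟨1, by rw [map_one]; rfl⟩
  · exact ⟨C x - X, by rw [kp_some, map_sub, aeval_C, aeval_X]⟩

theorem kuh : S_KUH := by
  intro K L _ _ _ _ A B θ W h1 h2 h3 h4 h6 _ hθ P Q
  rcases P with _ | ⟨x₁, y₁, hP⟩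
  · obtain ⟨s, hs⟩ := kp_aeval θ Q
    refine ⟨s, ?_⟩
    rw [← hs]
    change kp (W := W) θ (0 : W.Point) * kp θ Q * kp θ (0 + Q) = kp θ Q ^ 2
    rw [zero_add, kp_zero, one_mul, sq]
  rcases Q with _ | ⟨x₂, y₂, hQ⟩
  · obtain ⟨s, hs⟩ := kp_aeval θ (WeierstrassCurve.Affine.Point.some x₁ y₁ hP)
    refine ⟨s, ?_⟩
    rw [← hs]
    change kp θ (WeierstrassCurve.Affine.Point.some x₁ y₁ hP) * kp (W := W) θ (0 : W.Point) *
      kp θ (WeierstrassCurve.Affine.Point.some x₁ y₁ hP + 0) = _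
    rw [add_zero, kp_zero, mul_one, sq]
  by_cases hxy : x₁ = x₂ ∧ y₁ = W.negY x₂ y₂
  · refine ⟨C x₁ - X, ?_⟩
    rw [WeierstrassCurve.Affine.Point.add_of_Y_eq hxy.1 hxy.2, kp_zero, mul_one, kp_some, kp_some,
      map_sub, aeval_C, aeval_X, ← hxy.1, sq]
  · refine ⟨C (W.slope x₁ x₂ y₁ y₂) * (X - C x₁) + C y₁, ?_⟩
    rw [WeierstrassCurve.Affine.Point.add_some hxy, kp_some, kp_some, kp_some]
    have h := congrArg (aeval θ) (WeierstrassCurve.Affine.addPolynomial_slope hP.1 hQ.1 hxy)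
    rw [WeierstrassCurve.Affine.addPolynomial_eq, Cubic.toPoly] at h
    rw [cb] at hθ
    simp only [h1, h2, h3, h4, h6, map_neg, map_add, map_sub, map_mul, map_pow, aeval_C, aeval_X,
      map_one, map_zero] at h hθ ⊢
    simp only [map_ofNat, zero_mul, zero_sub, sub_zero, add_zero] at h ⊢
    linear_combination -h - hθ

end Pool.Agent.H740.UN
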