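import Pool.Agent.H459.UN.Stm

/-!
# Project UN: the kernel of `x - θ`
-/

set_option autoImplicit false

open Polynomial
open scoped Classical

namespace Pool.Agent.H307.UN

open Pool.Agent.H459.UN

theorem cb_natDegree {K : Type} [Field K] (A B : K) : (cb A B).natDegree = 3 := by
  unfold cb
  compute_degree!

theorem cb_monic {K : Type} [Field K] (A B : K) : (cb A B).Monic := by
  unfold cb
  monicity!

/-- linear independence of `1, θ, θ ^ 2` -/
theorem li {K L : Type} [Field K] [Field L] [Algebra K L] (A B : K) (θ : L)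
    (hirr : Irreducible (cb A B)) (hθ : aeval θ (cb A B) = 0) (a b c : K)
    (h : algebraMap K L a + algebraMap K L b * θ + algebraMap K L c * θ ^ 2 = 0) :
    a = 0 ∧ b = 0 ∧ c = 0 := by
  have hmin : cb A B = minpoly K θ := minpoly.eq_of_irreducible_of_monic hirr hθ (cb_monic A B)
  set p : K[X] := C c * X ^ 2 + C b * X + C a with hp
  have hp0 : aeval θ p = 0 := by
    simp only [hp, map_add, map_mul, aeval_C, aeval_X, map_pow]
    linear_combination h
  have hpz : p = 0 := by
    by_contra hne
    have h1 := minpoly.degree_le_of_ne_zero K θ hne hp0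
    rw [← hmin, Polynomial.degree_eq_natDegree hirr.ne_zero, cb_natDegree] at h1
    have h2 : p.degree ≤ 2 := by
      rw [hp]
      exact degree_quadratic_le
    have h3 := h1.trans h2
    norm_num at h3
  refine ⟨?_, ?_, ?_⟩
  · have := congrArg (fun q => coeff q 0) hpz
    simpa [hp] using this
  · have := congrArg (fun q => coeff q 1) hpz
    simpa [hp, coeff_X, coeff_C] using this
  · have := congrArg (fun q => coeff q 2) hpz
    simpa [hp, coeff_X, coeff_C] using this

/-- a cubic which is irreducible has no zeros -/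
theorem no_zero {K : Type} [Field K] (A B : K) (hirr : Irreducible (cb A B)) (c : K) :
    c ^ 3 + A * c + B ≠ 0 := by
  intro h
  have hr : (cb A B).IsRoot c := by
    simp only [cb, IsRoot.def, eval_add, eval_mul, eval_pow, eval_X, eval_C]
    exact h
  have h1 := Polynomial.degree_eq_one_of_irreducible_of_root hirr hr
  rw [Polynomial.degree_eq_natDegree hirr.ne_zero, cb_natDegree] at h1
  norm_num at h1

theorem kuk : S_KUK := by
  intro K L _ _ _ _ A B θ W ha1 ha2 ha3 ha4 ha6 hirr hθ P hP
  have hθ' : θ ^ 3 = -(algebraMap K L A * θ) - algebraMap K L B := by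
    have := hθ
    simp only [cb, map_add, map_mul, aeval_C, aeval_X, map_pow] at this
    linear_combination this
  rcases P with _ | ⟨x₀, y₀, h₀⟩
  · exact ⟨0, by rw [add_zero]; rfl⟩
  obtain ⟨s, hs⟩ := hP
  have hs' : algebraMap K L x₀ - θ = (aeval θ s) ^ 2 := hs
  -- reduce `s` modulo the cubic
  set r : K[X] := s %ₘ cb A B with hr
  have hrs : aeval θ s = aeval θ r := by
    have := modByMonic_add_div s (cb A B)
    conv_lhs => rw [← this]
    rw [map_add, map_mul, hθ, zero_mul, add_zero]
  have hrdeg : r.natDegree < 3 := by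
    have := natDegree_modByMonic_lt s (cb_monic A B) (by
      intro h1
      have := cb_natDegree A B
      rw [h1, natDegree_one] at this
      norm_num at this)
    rwa [cb_natDegree] at this
  obtain ⟨u, hu⟩ : ∃ u, u = r.coeff 0 := ⟨_, rfl⟩
  obtain ⟨v, hv⟩ : ∃ v, v = r.coeff 1 := ⟨_, rfl⟩
  obtain ⟨w, hw⟩ : ∃ w, w = r.coeff 2 := ⟨_, rfl⟩
  have hrθ : aeval θ r = algebraMap K L u + algebraMap K L v * θ + algebraMap K L w * θ ^ 2 := by
    rw [aeval_eq_sum_range' hrdeg]
    simp only [Finset.sum_range_succ, Finset.sum_range_zero, Algebra.smul_def, ← hu, ← hv, ← hw]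
    ring
  rw [hrs, hrθ] at hs'
  have h1 := li A B θ hirr hθ (u ^ 2 - 2 * v * w * B - x₀) (2 * u * v - 2 * v * w * A - w ^ 2 * B + 1)
    (v ^ 2 + 2 * u * w - w ^ 2 * A) (by
      simp only [map_add, map_sub, map_mul, map_pow, map_one, map_ofNat]
      linear_combination -hs' - (2 * algebraMap K L v * algebraMap K L w +
        algebraMap K L w ^ 2 * θ) * hθ')
  obtain ⟨e1, e2, e3⟩ := h1
  have hw0 : w ≠ 0 := by
    intro h
    rw [h] at e2 e3
    have hv0 : v = 0 := by
      have : v ^ 2 = 0 := by linear_combination e3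
      exact pow_eq_zero_iff (two_ne_zero) |>.1 this
    rw [hv0] at e2
    apply one_ne_zero (α := K)
    linear_combination e2
  obtain ⟨c, hc⟩ : ∃ c, c = v / w := ⟨_, rfl⟩
  have hcw : c * w = v := by rw [hc]; field_simp
  obtain ⟨d, hd⟩ : ∃ d, d = c * v - u + w * A := ⟨_, rfl⟩
  obtain ⟨e, he⟩ : ∃ e, e = c * u + w * B := ⟨_, rfl⟩
  have hcs : (algebraMap K L c - θ) *
      (algebraMap K L u + algebraMap K L v * θ + algebraMap K L w * θ ^ 2) =
      algebraMap K L d * θ + algebraMap K L e := by
    have hcw' : algebraMap K L c * algebraMap K L w = algebraMap K L v := by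
      rw [← map_mul, hcw]
    rw [hd, he]
    simp only [map_add, map_sub, map_mul]
    linear_combination θ ^ 2 * hcw' - algebraMap K L w * hθ'
  have hkey : (algebraMap K L c - θ) ^ 2 * (algebraMap K L x₀ - θ) =
      (algebraMap K L d * θ + algebraMap K L e) ^ 2 := by
    rw [hs', ← hcs]
    ring
  have h2 := li A B θ hirr hθ (c ^ 2 * x₀ + B - e ^ 2) (A - c ^ 2 - 2 * c * x₀ - 2 * d * e)
    (2 * c + x₀ - d ^ 2) (by
      simp only [map_add, map_sub, map_mul, map_pow, map_ofNat]
      linear_combination hkey + hθ')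
  obtain ⟨f1, f2, f3⟩ := h2
  have hpoly : ∀ X : K, (d * X + e) ^ 2 + (X - c) ^ 2 * (X - x₀) = X ^ 3 + A * X + B := by
    intro X
    linear_combination (-1) * f1 + (-X) * f2 - X ^ 2 * f3
  have hR : (d * c + e) ^ 2 = c ^ 3 + A * c + B := by
    linear_combination hpoly c
  have hy0 : d * c + e ≠ 0 := by
    intro h
    apply no_zero A B hirr c
    rw [← hR, h]
    ring
  have hslope : 2 * d * (d * c + e) = 3 * c ^ 2 + A := by
    linear_combination (-1) * f2 - 2 * c * f3
  have hns : W.Nonsingular c (d * c + e) := by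
    rw [WeierstrassCurve.Affine.nonsingular_iff', WeierstrassCurve.Affine.equation_iff, ha1, ha2,
      ha3, ha4, ha6]
    refine ⟨by linear_combination hR, Or.inr ?_⟩
    intro h
    apply hy0
    have : (2 : K) * (d * c + e) = 0 := by linear_combination h
    exact (mul_eq_zero.1 this).resolve_left two_ne_zero
  have hYne : d * c + e ≠ W.negY c (d * c + e) := by
    rw [WeierstrassCurve.Affine.negY, ha1, ha3]
    intro h
    apply hy0
    have : (2 : K) * (d * c + e) = 0 := by linear_combination h
    exact (mul_eq_zero.1 this).resolve_left two_ne_zero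
  have hsl : W.slope c c (d * c + e) (d * c + e) = d := by
    rw [WeierstrassCurve.Affine.slope_of_Y_ne rfl hYne, WeierstrassCurve.Affine.negY, ha1, ha2, ha3,
      ha4]
    have h2 : d * c + e - (-(d * c + e) - 0 * c - 0) ≠ 0 := by
      intro h
      apply hy0
      have : (2 : K) * (d * c + e) = 0 := by linear_combination h
      exact (mul_eq_zero.1 this).resolve_left two_ne_zero
    rw [div_eq_iff h2]
    linear_combination -hslope
  have hX : W.addX c c (W.slope c c (d * c + e) (d * c + e)) = x₀ := by
    rw [hsl, WeierstrassCurve.Affine.addX, ha1, ha2]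
    linear_combination -f3
  have hsum := WeierstrassCurve.Affine.Point.add_self_of_Y_ne (h₁ := hns) hYne
  rcases (WeierstrassCurve.Affine.Point.X_eq_iff (h₁ := h₀)
    (h₂ := WeierstrassCurve.Affine.nonsingular_add hns hns fun hxy => hYne hxy.right)).1
    hX.symm with h | h
  · exact ⟨_, h.trans hsum.symm⟩
  · refine ⟨-WeierstrassCurve.Affine.Point.some _ _ hns, ?_⟩
    rw [h, ← neg_add, hsum]

end Pool.Agent.H307.UN
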