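import Mathlib
import Pool.Agent.H459.UN.Stm

/-!
# Project UN (helper459): `S_MOD`
-/

set_option autoImplicit false
set_option linter.all false

namespace Pool.Agent.H860.UN

open Pool.Agent.H459.UN

/-- `r` linear forms separating the points of a subspace with at most `2 ^ r` elements -/
lemma la_forms {V : Type} [AddCommGroup V] [Module (ZMod 2) V] [Finite V] (W : Submodule (ZMod 2) V) (r : ℕ)
    (h : Nat.card W ≤ 2 ^ r) : ∃ φ : V →ₗ[ZMod 2] (Fin r → ZMod 2), ∀ w ∈ W, φ w = 0 → w = 0 := by
  have hfin : Module.Finite (ZMod 2) V := Module.Finite.of_finite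
  have hc : Nat.card W = 2 ^ Module.finrank (ZMod 2) W := by
    have := Module.natCard_eq_pow_finrank (K := ZMod 2) (V := W)
    rwa [Nat.card_zmod] at this
  have hd : Module.finrank (ZMod 2) W ≤ r := by
    rw [hc] at h
    exact (Nat.pow_le_pow_iff_right (by norm_num)).1 h
  let b := Module.finBasis (ZMod 2) W
  let f : Fin r → (W →ₗ[ZMod 2] ZMod 2) := fun i =>
    if hi : (i : ℕ) < Module.finrank (ZMod 2) W then b.coord ⟨i, hi⟩ else 0
  obtain ⟨φ, hφ⟩ := LinearMap.exists_extend (LinearMap.pi f)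
  refine ⟨φ, fun w hw h0 => ?_⟩
  have h1 : LinearMap.pi f ⟨w, hw⟩ = 0 := by
    rw [← hφ]
    exact h0
  have h2 : (⟨w, hw⟩ : W) = 0 := by
    rw [← b.forall_coord_eq_zero_iff]
    intro i
    have h3 := congrFun h1 ⟨i, lt_of_lt_of_le i.2 hd⟩
    rw [LinearMap.pi_apply] at h3
    simp only [f] at h3
    rw [dif_pos i.2] at h3
    exact h3
  exact congrArg Subtype.val h2

/-- a 2-group acting on a group of exponent two without invariants: the group is trivial -/
lemma pgroup_triv {V G : Type} [AddCommGroup V] [Finite V] [Group G] [Finite G] (τ : G →* AddMonoid.End V)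
    {k : ℕ} (hG : Nat.card G = 2 ^ k) (h2 : ∀ v : V, v + v = 0) (N : AddSubgroup V)
    (hst : ∀ g, ∀ v ∈ N, τ g v ∈ N) (hfix : ∀ v ∈ N, (∀ g, τ g v = v) → v = 0) : ∀ v ∈ N, v = 0 := by
  letI act : MulAction G N :=
    { smul := fun g v => ⟨τ g v, hst g v v.2⟩
      one_smul := fun v => Subtype.ext (by
        show τ 1 (v : V) = v
        rw [map_one]; rfl)
      mul_smul := fun g h v => Subtype.ext (by
        show τ (g * h) (v : V) = τ g (τ h v)
        rw [map_mul]; rfl) }
  have hp : IsPGroup 2 G := IsPGroup.of_card hG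
  have hmod := hp.card_modEq_card_fixedPoints N
  have h1 : Nat.card (MulAction.fixedPoints G N) = 1 := by
    have : MulAction.fixedPoints G N = {0} := by
      ext v
      constructor
      · intro hv
        have : (v : V) = 0 := hfix v v.2 (fun g => congrArg Subtype.val (hv g))
        exact Subtype.ext this
      · intro hv g
        rw [Set.mem_singleton_iff] at hv
        subst hv
        exact Subtype.ext (map_zero (τ g))
    rw [this]
    exact Nat.card_unique
  rw [h1] at hmod
  intro v hv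
  have o1 : addOrderOf (⟨v, hv⟩ : N) ∣ Nat.card N := addOrderOf_dvd_natCard _
  have o2 : addOrderOf (⟨v, hv⟩ : N) ∣ 2 := by
    apply addOrderOf_dvd_of_nsmul_eq_zero
    rw [two_nsmul]
    exact Subtype.ext (h2 v)
  have o3 : addOrderOf (⟨v, hv⟩ : N) = 1 := by
    have hodd : ¬ 2 ∣ Nat.card N := by
      intro h
      have := (Nat.modEq_zero_iff_dvd.2 h).symm.trans hmod
      exact absurd this (by decide)
    rcases (Nat.dvd_prime Nat.prime_two).1 o2 with h | h
    · exact h
    · exact absurd (h ▸ o1) hodd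
  have := AddMonoid.addOrderOf_eq_one_iff.1 o3
  exact congrArg Subtype.val this

/-- the subgroup `2 A` -/
def dbl (A : Type) [AddCommGroup A] : AddSubgroup A where
  carrier := {a | ∃ b, a = b + b}
  add_mem' := by
    rintro _ _ ⟨b, rfl⟩ ⟨c, rfl⟩
    exact ⟨b + c, by abel⟩
  zero_mem' := ⟨0, by abel⟩
  neg_mem' := by
    rintro _ ⟨b, rfl⟩
    exact ⟨-b, by abel⟩

lemma mem_dbl {A : Type} [AddCommGroup A] {a : A} : a ∈ dbl A ↔ ∃ b, a = b + b := Iff.rfl

lemma mk_eq_zero_iff {A : Type} [AddCommGroup A] {a : A} :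
    (QuotientAddGroup.mk a : A ⧸ dbl A) = 0 ↔ ∃ b, a = b + b := by
  rw [QuotientAddGroup.eq_zero_iff, mem_dbl]

/-- elements of finite order are divisible by two if there is no element of order two -/
lemma tors_dbl {A : Type} [AddCommGroup A] (h2 : ∀ a : A, a + a = 0 → a = 0) {a : A} (ha : IsOfFinAddOrder a) :
    ∃ b, a = b + b := by
  obtain ⟨m, hm, hm0⟩ := isOfFinAddOrder_iff_nsmul_eq_zero.1 ha
  induction m using Nat.strong_induction_on with
  | _ m ih =>
    rcases Nat.even_or_odd' m with ⟨q, hq | hq⟩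
    · have hq0 : 0 < q := by omega
      refine ih q (by omega) hq0 (h2 _ ?_)
      rw [← add_nsmul, ← two_mul, ← hq]
      exact hm0
    · refine ⟨(q + 1) • a, ?_⟩
      rw [← add_nsmul]
      have : q + 1 + (q + 1) = m + 1 := by omega
      rw [this, add_nsmul, hm0, one_nsmul, zero_add]

/-- lift of a homomorphism to `ZMod 2` -/
lemma lift_form {A : Type} [AddCommGroup A] [Module.Finite ℤ A] (h2 : ∀ a : A, a + a = 0 → a = 0)
    (f : A →+ ZMod 2) : ∃ Φ : A →+ ℤ, ∀ a, ((Φ a : ℤ) : ZMod 2) = f a := by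
  let Tt := Submodule.torsion ℤ A
  have hk : Tt ≤ LinearMap.ker f.toIntLinearMap := by
    intro a ha
    rw [LinearMap.mem_ker]
    have hfo : IsOfFinAddOrder a := by
      obtain ⟨⟨m, hm⟩, hma⟩ := (Submodule.mem_torsion_iff a).1 ha
      rw [isOfFinAddOrder_iff_zsmul_eq_zero]
      exact ⟨m, nonZeroDivisors.ne_zero hm, hma⟩
    obtain ⟨b, rfl⟩ := tors_dbl h2 hfo
    show f (b + b) = 0
    rw [map_add]
    exact CharTwo.add_self_eq_zero _
  let f1 : (A ⧸ Tt) →ₗ[ℤ] ZMod 2 := Tt.liftQ f.toIntLinearMap hk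
  have hfree : Module.Free ℤ (A ⧸ Tt) := inferInstance
  let cs : ℤ →ₗ[ℤ] ZMod 2 := (Int.castAddHom (ZMod 2)).toIntLinearMap
  have hcs : Function.Surjective cs := ZMod.intCast_surjective
  obtain ⟨g, hg⟩ := Module.projective_lifting_property cs f1 hcs
  refine ⟨(g.comp Tt.mkQ).toAddMonoidHom, fun a => ?_⟩
  have h1 := LinearMap.congr_fun hg (Tt.mkQ a)
  have h3 : f1 (Tt.mkQ a) = f a := by
    rfl
  rw [h3] at h1
  exact h1

theorem mod : S_MOD := by
  intro A G _ _ _ _ τ k r hG h2 T hT hrep
  have hfinA : Module.Finite ℤ A := Module.Finite.iff_addGroup_fg.2 inferInstance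
  -- the quotient
  have hz : ∀ x : A, 2 • x ∈ dbl A := fun x => ⟨x, two_nsmul x⟩
  letI : Module (ZMod 2) (A ⧸ dbl A) := QuotientAddGroup.zmodModule hz
  have hV2 : ∀ v : A ⧸ dbl A, v + v = 0 := by
    intro v
    induction v using QuotientAddGroup.induction_on with
    | H a => exact mk_eq_zero_iff.2 ⟨a, rfl⟩
  have hfinVZ : Module.Finite ℤ (A ⧸ dbl A) := by
    have : Function.Surjective (QuotientAddGroup.mk' (dbl A)).toIntLinearMap := QuotientAddGroup.mk'_surjective _
    exact Module.Finite.of_surjective _ this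
  have hfinV2 : Module.Finite (ZMod 2) (A ⧸ dbl A) := by
    obtain ⟨s, hs⟩ := hfinVZ.fg_top
    refine ⟨⟨s, ?_⟩⟩
    rw [eq_top_iff]
    intro v _
    have hv : v ∈ Submodule.span ℤ (s : Set (A ⧸ dbl A)) := by rw [hs]; trivial
    induction hv using Submodule.span_induction with
    | mem x hx => exact Submodule.subset_span hx
    | zero => exact zero_mem _
    | add x y _ _ hx hy => exact add_mem (hx trivial) (hy trivial)
    | smul a x _ hx => exact zsmul_mem (hx trivial) a
  have hfinV : Finite (A ⧸ dbl A) := Module.finite_of_finite (ZMod 2)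
  -- the action on the quotient
  have hDst : ∀ g : G, dbl A ≤ (dbl A).comap (τ g) := by
    rintro g _ ⟨b, rfl⟩
    exact ⟨τ g b, map_add _ _ _⟩
  let τ' : G →* AddMonoid.End (A ⧸ dbl A) :=
    { toFun := fun g => QuotientAddGroup.map (dbl A) (dbl A) (τ g) (hDst g)
      map_one' := by
        ext v
        induction v using QuotientAddGroup.induction_on with
        | H a =>
          show (QuotientAddGroup.mk (τ 1 a) : A ⧸ dbl A) = QuotientAddGroup.mk a
          rw [map_one]; rfl
      map_mul' := fun g h => by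
        ext v
        induction v using QuotientAddGroup.induction_on with
        | H a =>
          show (QuotientAddGroup.mk (τ (g * h) a) : A ⧸ dbl A) = QuotientAddGroup.mk (τ g (τ h a))
          rw [map_mul]; rfl }
  have hτ' : ∀ g a, τ' g (QuotientAddGroup.mk a) = QuotientAddGroup.mk (τ g a) := fun g a => rfl
  -- the invariants
  let W0 : AddSubgroup (A ⧸ dbl A) :=
    { carrier := {v | ∀ g, τ' g v = v}
      add_mem' := fun {v w} hv hw g => by rw [map_add, hv g, hw g]
      zero_mem' := fun g => map_zero _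
      neg_mem' := fun {v} hv g => by rw [map_neg, hv g] }
  let W : Submodule (ZMod 2) (A ⧸ dbl A) := AddSubgroup.toZModSubmodule 2 W0
  have hWmem : ∀ v, v ∈ W ↔ ∀ g, τ' g v = v := fun v => Iff.rfl
  have hWcard : Nat.card W ≤ 2 ^ r := by
    refine le_trans ?_ hT
    have hex : ∀ w : W, ∃ t : T, (QuotientAddGroup.mk (t : A) : A ⧸ dbl A) = w := by
      rintro ⟨w, hw⟩
      induction w using QuotientAddGroup.induction_on with
      | H a =>
        obtain ⟨t, ht, b, hb⟩ := hrep a (fun g => by
          have h1 : τ' g (QuotientAddGroup.mk a) = QuotientAddGroup.mk a := hw g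
          rw [hτ'] at h1
          apply mk_eq_zero_iff.1
          rw [QuotientAddGroup.mk_sub, h1, sub_self])
        refine ⟨⟨t, ht⟩, ?_⟩
        have h2 : (QuotientAddGroup.mk (a - t) : A ⧸ dbl A) = 0 := mk_eq_zero_iff.2 ⟨b, hb⟩
        rw [QuotientAddGroup.mk_sub, sub_eq_zero] at h2
        exact h2.symm
    choose s hs using hex
    have hinj : Function.Injective s := fun w w' h => Subtype.ext (by rw [← hs w, ← hs w', h])
    have h3 := Nat.card_le_card_of_injective s hinj
    refine h3.trans (le_of_eq ?_)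
    rw [Nat.card_eq_fintype_card, Fintype.card_coe]
  obtain ⟨φ, hφ⟩ := la_forms W r hWcard
  -- the lifts
  let f : Fin r → (A →+ ZMod 2) := fun i =>
    ((LinearMap.proj i).comp φ).toAddMonoidHom.comp (QuotientAddGroup.mk' (dbl A))
  have hf : ∀ i a, f i a = φ (QuotientAddGroup.mk a) i := fun i a => rfl
  choose Φ hΦ using fun i => lift_form h2 (f i)
  refine ⟨Φ, ?_⟩
  -- the largest stable subgroup of the kernel
  let N : AddSubgroup (A ⧸ dbl A) :=
    { carrier := {v | ∀ g, φ (τ' g v) = 0}
      add_mem' := fun {v w} hv hw g => by rw [map_add, map_add, hv g, hw g, add_zero]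
      zero_mem' := fun g => by rw [map_zero, map_zero]
      neg_mem' := fun {v} hv g => by rw [map_neg, map_neg, hv g, neg_zero] }
  have hN : ∀ v ∈ N, v = 0 := by
    refine pgroup_triv τ' hG hV2 N ?_ ?_
    · intro g v hv h
      have := hv (h * g)
      rw [map_mul] at this
      exact this
    · intro v hv hfix
      refine hφ v (fun g => hfix g) ?_
      have := hv 1
      rwa [hfix 1] at this
  let K : Submodule ℤ A :=
    { carrier := {a | ∀ i (g : G), Φ i (τ g a) = 0}
      add_mem' := fun {v w} hv hw i g => by rw [map_add, map_add, hv i g, hw i g, add_zero]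
      zero_mem' := fun i g => by rw [map_zero, map_zero]
      smul_mem' := fun c {v} hv i g => by rw [map_zsmul, map_zsmul, hv i g, smul_zero] }
  have hK : K ≤ (Ideal.span {(2 : ℤ)}) • K := by
    intro a ha
    have h4 : (QuotientAddGroup.mk a : A ⧸ dbl A) = 0 := by
      apply hN
      intro g
      rw [hτ']
      ext i
      rw [← hf, ← hΦ, ha i g]
      simp
    obtain ⟨b, rfl⟩ := mk_eq_zero_iff.1 h4
    have hb : b ∈ K := by
      intro i g
      have := ha i g
      rw [map_add, map_add] at this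
      omega
    have h5 : (2 : ℤ) • b ∈ (Ideal.span {(2 : ℤ)}) • K :=
      Submodule.smul_mem_smul (Ideal.mem_span_singleton_self 2) hb
    rwa [two_smul] at h5
  obtain ⟨q, hq1, hq2⟩ := Submodule.exists_sub_one_mem_and_smul_eq_zero_of_fg_of_le_smul
    (Ideal.span {(2 : ℤ)}) K (IsNoetherian.noetherian K) hK
  intro a ha
  rw [isOfFinAddOrder_iff_zsmul_eq_zero]
  refine ⟨q, ?_, hq2 a ha⟩
  rintro rfl
  rw [Ideal.mem_span_singleton] at hq1
  omega

end Pool.Agent.H860.UN
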