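import Pool.Agent.H459.UN.Stm

/-!
# Project UN (helper459): multiplicities from functionals (subtask MUL, by helper94)
-/

set_option autoImplicit false

open scoped TensorProduct

namespace Pool.Agent.H94.UN

open Pool.Agent.H459.UN

/-- torsion groups are killed by `ℂ ⊗` -/
theorem tensor_torsion {K : Type} [AddCommGroup K] (hK : ∀ a : K, IsOfFinAddOrder a)
    (x : ℂ ⊗[ℤ] K) : x = 0 := by
  induction x using TensorProduct.induction_on with
  | zero => rfl
  | tmul z a =>
    obtain ⟨n, hn, hna⟩ := isOfFinAddOrder_iff_nsmul_eq_zero.1 (hK a)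
    have hn0 : (n : ℂ) ≠ 0 := by exact_mod_cast hn.ne'
    have h1 : z = (n : ℤ) • (z / n) := by
      rw [zsmul_eq_mul, Int.cast_natCast]
      field_simp
    have h2 : (n : ℤ) • a = 0 := by
      rw [natCast_zsmul]
      exact hna
    rw [h1, TensorProduct.smul_tmul, h2, TensorProduct.tmul_zero]
  | add x y hx hy => rw [hx, hy, add_zero]

/-- a homomorphism with torsion kernel becomes injective after `ℂ ⊗` -/
theorem lTensor_injective {A B : Type} [AddCommGroup A] [AddCommGroup B] (Ψ : A →ₗ[ℤ] B)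
    (h : ∀ a, Ψ a = 0 → IsOfFinAddOrder a) : Function.Injective (LinearMap.lTensor ℂ Ψ) := by
  rw [← LinearMap.ker_eq_bot, LinearMap.ker_eq_bot']
  intro x hx
  have h1 : Function.Injective (LinearMap.lTensor ℂ (LinearMap.range Ψ).subtype) :=
    Module.Flat.lTensor_preserves_injective_linearMap _ (Submodule.injective_subtype _)
  have h2 : LinearMap.lTensor ℂ Ψ.rangeRestrict x = 0 := by
    apply h1
    rw [map_zero, ← LinearMap.comp_apply, ← LinearMap.lTensor_comp,
      LinearMap.subtype_comp_codRestrict]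
    exact hx
  have h3 : Function.Exact (LinearMap.lTensor ℂ (LinearMap.ker Ψ).subtype)
      (LinearMap.lTensor ℂ Ψ.rangeRestrict) := by
    apply lTensor_exact
    · intro a
      constructor
      · intro ha
        refine ⟨⟨a, ?_⟩, rfl⟩
        rw [LinearMap.mem_ker]
        exact congrArg Subtype.val ha
      · rintro ⟨⟨b, hb⟩, rfl⟩
        exact Subtype.ext hb
    · exact LinearMap.surjective_rangeRestrict Ψ
  obtain ⟨y, rfl⟩ := (h3 x).1 h2
  have h4 : y = 0 := tensor_torsion (fun a => by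
    obtain ⟨n, hn, hna⟩ := isOfFinAddOrder_iff_nsmul_eq_zero.1 (h a.1 a.2)
    exact isOfFinAddOrder_iff_nsmul_eq_zero.2 ⟨n, hn, Subtype.ext hna⟩) y
  rw [h4, map_zero]

section
variable {A G : Type} [AddCommGroup A] [Group G] (τ : G →* AddMonoid.End A) {r : ℕ}
  (Φ : Fin r → A →+ ℤ)

/-- all conjugates of all the functionals -/
def Psi : A →ₗ[ℤ] (Fin r × G → ℤ) where
  toFun a p := Φ p.1 (τ p.2 a)
  map_add' a b := by
    funext p
    rw [Pi.add_apply, map_add, map_add]
  map_smul' c a := by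
    funext p
    rw [RingHom.id_apply, Pi.smul_apply, map_zsmul, map_zsmul]

theorem Psi_torsion (h : ∀ a : A, (∀ i (g : G), Φ i (τ g a) = 0) → IsOfFinAddOrder a) (a : A)
    (ha : Psi τ Φ a = 0) : IsOfFinAddOrder a :=
  h a fun i g => congrFun ha (i, g)

/-- the functional on the complexification -/
noncomputable def fu (i : Fin r) : (ℂ ⊗[ℤ] A) →ₗ[ℂ] ℂ :=
  (TensorProduct.AlgebraTensorModule.rid ℤ ℂ ℂ).toLinearMap ∘ₗ
    TensorProduct.AlgebraTensorModule.map (LinearMap.id : ℂ →ₗ[ℂ] ℂ) (Φ i).toIntLinearMap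

theorem fu_tmul (i : Fin r) (z : ℂ) (a : A) : fu Φ i (z ⊗ₜ a) = (Φ i a) • z := by
  unfold fu
  rw [LinearMap.comp_apply, TensorProduct.AlgebraTensorModule.map_tmul]
  rfl

/-- the action of the group -/
noncomputable def act (g : G) : (ℂ ⊗[ℤ] A) →ₗ[ℂ] (ℂ ⊗[ℤ] A) :=
  TensorProduct.AlgebraTensorModule.map (LinearMap.id : ℂ →ₗ[ℂ] ℂ)
      (AddMonoidHom.toIntLinearMap (τ g))

variable [Finite G]

theorem key (h : ∀ a : A, (∀ i (g : G), Φ i (τ g a) = 0) → IsOfFinAddOrder a)
    (x : ℂ ⊗[ℤ] A) (hx : ∀ i g, fu Φ i (act τ g x) = 0) : x = 0 := by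
  classical
  have := Fintype.ofFinite G
  apply lTensor_injective (Psi τ Φ) (Psi_torsion τ Φ h)
  rw [map_zero]
  apply (TensorProduct.piScalarRight ℤ ℂ ℂ (Fin r × G)).injective
  rw [map_zero]
  have e : ∀ x : ℂ ⊗[ℤ] A, TensorProduct.piScalarRight ℤ ℂ ℂ (Fin r × G)
      (LinearMap.lTensor ℂ (Psi τ Φ) x) = fun p => fu Φ p.1 (act τ p.2 x) := by
    intro x
    induction x using TensorProduct.induction_on with
    | zero =>
      funext p
      rw [map_zero, map_zero, map_zero, map_zero]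
      rfl
    | tmul z a =>
      funext p
      rw [LinearMap.lTensor_tmul, TensorProduct.piScalarRight_apply,
        TensorProduct.piScalarRightHom_tmul, act, TensorProduct.AlgebraTensorModule.map_tmul,
        fu_tmul]
      rfl
    | add x y hx hy =>
      rw [map_add, map_add, hx, hy]
      funext p
      rw [Pi.add_apply, map_add, map_add]
  rw [e]
  funext p
  exact hx p.1 p.2

end

theorem mul : Pool.Agent.H459.UN.S_MUL := by
  intro A G V _ _ _ _ τ _ _ _ ρ r Φ h
  have := Fintype.ofFinite G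
  constructor
  · let M : Intw τ ρ →ₗ[ℂ] (Fin r → (V →ₗ[ℂ] ℂ)) :=
      { toFun := fun φ i => (fu Φ i) ∘ₗ (φ : V →ₗ[ℂ] (ℂ ⊗[ℤ] A))
        map_add' := fun φ ψ => by
          funext i
          ext v
          simp
        map_smul' := fun c φ => by
          funext i
          ext v
          simp }
    have hM : Function.Injective M := by
      intro φ ψ hφψ
      apply Subtype.ext
      apply LinearMap.ext
      intro v
      rw [← sub_eq_zero]
      apply key τ Φ h
      intro i g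
      have h1 : (φ : V →ₗ[ℂ] (ℂ ⊗[ℤ] A)) (ρ g v) = act τ g ((φ : V →ₗ[ℂ] (ℂ ⊗[ℤ] A)) v) :=
        φ.2 g v
      have h2 : (ψ : V →ₗ[ℂ] (ℂ ⊗[ℤ] A)) (ρ g v) = act τ g ((ψ : V →ₗ[ℂ] (ℂ ⊗[ℤ] A)) v) :=
        ψ.2 g v
      have h3 : M φ i (ρ g v) = M ψ i (ρ g v) := by rw [hφψ]
      have h4 : fu Φ i ((φ : V →ₗ[ℂ] (ℂ ⊗[ℤ] A)) (ρ g v)) =
        fu Φ i ((ψ : V →ₗ[ℂ] (ℂ ⊗[ℤ] A)) (ρ g v)) := h3
      rw [map_sub, map_sub, ← h1, ← h2, h4, sub_self]
    have h1 := LinearMap.finrank_le_finrank_of_injective hM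
    have h2 : Module.finrank ℂ (Fin r → (V →ₗ[ℂ] ℂ)) = r * Module.finrank ℂ V := by
      rw [Module.finrank_pi_fintype, Finset.sum_const, Finset.card_univ, Fintype.card_fin,
        smul_eq_mul]
      congr 1
      exact Subspace.dual_finrank_eq
    rw [h2] at h1
    exact h1
  · have : Module.Finite ℤ A := Module.Finite.iff_addGroup_fg.2 inferInstance
    have h1 := (LinearMap.ker (Psi τ Φ)).finrank_quotient_add_finrank
    have h2 : Module.finrank ℤ (LinearMap.ker (Psi τ Φ)) = 0 := by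
      apply Module.finrank_eq_zero_of_rank_eq_zero
      rw [rank_eq_zero_iff]
      intro a
      obtain ⟨n, hn, hna⟩ := isOfFinAddOrder_iff_nsmul_eq_zero.1 (Psi_torsion τ Φ h a.1 a.2)
      refine ⟨n, by exact_mod_cast hn.ne', Subtype.ext ?_⟩
      rw [natCast_zsmul]
      exact hna
    have h3 : Module.finrank ℤ (A ⧸ LinearMap.ker (Psi τ Φ)) ≤
        Module.finrank ℤ (Fin r × G → ℤ) := by
      rw [LinearEquiv.finrank_eq (Psi τ Φ).quotKerEquivRange]
      exact Submodule.finrank_le _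
    have h4 : Module.finrank ℤ (Fin r × G → ℤ) = r * Nat.card G := by
      rw [Module.finrank_fintype_fun_eq_card, Fintype.card_prod, Fintype.card_fin,
        Nat.card_eq_fintype_card]
    omega

end Pool.Agent.H94.UN
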