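import Pool.Agent.H459.UN.Stm4

/-!
# Project UN (helper459): PR4, by helper323
-/

set_option autoImplicit false
set_option linter.all false

open Polynomial IsDedekindDomain WithZero UniqueFactorizationMonoid NumberField
open scoped Classical

namespace Pool.Agent.H323.UN

open Pool.Agent.N783.PF (IsGen dsc Ov)
open Pool.Agent.N874.PP (Ev)
open Pool.Agent.N874.PM (ev_sq ev_mul)
open Pool.Agent.N862.PP (cn cn_sum not_ev_of_exp)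
open Pool.Agent.N426.PF (toG parity mem_nf fd perf map_ne tf_O)
open Pool.Agent.H459.UT (finO cn_map)
open Pool.Agent.H459.UN (Nq Ew S_PR4)

variable {g : ℕ} {F L : Type} [Field F] [NumberField F] [Field L] [NumberField L] [Algebra F L]
  {f : (𝓞 F)[X]} {θ : L}

/-- The elements with even valuation at `𝔓`. -/
def Ep (𝔓 : HeightOneSpectrum (𝓞 L)) : Subgroup Lˣ where
  carrier := {x | Ev 𝔓 (x : L)}
  mul_mem' := by
    intro x y hx hy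
    show Ev 𝔓 ((x * y : Lˣ) : L)
    rw [Units.val_mul]
    exact ev_mul hx hy
  one_mem' := by
    have h1 := ev_sq 𝔓 (1 : L)
    rw [one_pow] at h1
    exact h1
  inv_mem' := by
    intro x hx
    obtain ⟨y, hy⟩ := hx
    refine ⟨y⁻¹, ?_⟩
    rw [Units.val_inv_eq_inv_val, map_inv₀, map_inv₀, hy, inv_pow]

theorem val_exp (𝔓 : HeightOneSpectrum (𝓞 L)) (x : Lˣ) :
    ∃ n : ℤ, 𝔓.valuation L (x : L) = exp n := by
  have h : 𝔓.valuation L (x : L) ≠ 0 := (Valuation.ne_zero_iff _).2 x.ne_zero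
  exact ⟨log (𝔓.valuation L (x : L)), (exp_log h).symm⟩

theorem mem_Ep {𝔓 : HeightOneSpectrum (𝓞 L)} {x : Lˣ} : x ∈ Ep 𝔓 ↔ Ev 𝔓 (x : L) := Iff.rfl

theorem idx (𝔓 : HeightOneSpectrum (𝓞 L)) : (Ep 𝔓).index ≠ 0 ∧ (Ep 𝔓).index ≤ 2 := by
  by_cases h : ∃ a : Lˣ, a ∉ Ep 𝔓
  · obtain ⟨a, ha⟩ := h
    have h2 : (Ep 𝔓).index = 2 := by
      rw [Subgroup.index_eq_two_iff]
      refine ⟨a, fun b => ?_⟩
      obtain ⟨n, hn⟩ := val_exp 𝔓 a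
      obtain ⟨m, hm⟩ := val_exp 𝔓 b
      have hnm : 𝔓.valuation L ((b * a : Lˣ) : L) = exp (m + n) := by
        rw [Units.val_mul, map_mul, hn, hm, exp_add]
      rw [mem_Ep, not_ev_of_exp hn] at ha
      rw [mem_Ep, mem_Ep, not_ev_of_exp hnm, not_ev_of_exp hm, Int.even_add]
      unfold Xor
      tauto
    omega
  · push Not at h
    have : Ep 𝔓 = ⊤ := (Subgroup.eq_top_iff' _).2 h
    rw [this, Subgroup.index_top]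
    omega

/-- The sum of the residue degrees is at most three. -/
theorem sum_le (h0 : IsGen 1 f θ) {𝔭 : Ideal (𝓞 F)} (hp : 𝔭.IsPrime) (hp0 : 𝔭 ≠ ⊥) 
    (hfin : Module.Finite (𝓞 F) (𝓞 L)) (htf : Module.IsTorsionFree (𝓞 F) (𝓞 L))
    (B : Finset (HeightOneSpectrum (𝓞 L))) (hB : ∀ 𝔓 ∈ B, Ov 𝔭 𝔓) :
    ∑ 𝔓 ∈ B, cn (𝓞 F) 𝔭 𝔓.asIdeal ≤ 3 := by
  have hI := map_ne (L := L) hp0
  have hsum := cn_map h0 hp hp0
  rw [cn_sum _ hI] at hsum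
  have h1 : ∑ 𝔓 ∈ B, cn (𝓞 F) 𝔭 𝔓.asIdeal =
      ∑ J ∈ B.image (fun 𝔓 => 𝔓.asIdeal), cn (𝓞 F) 𝔭 J :=
    (Finset.sum_image (fun 𝔓 _ 𝔔 _ h => HeightOneSpectrum.ext h)).symm
  rw [h1]
  have h2 : B.image (fun 𝔓 => 𝔓.asIdeal) ⊆
      (normalizedFactors (𝔭.map (algebraMap (𝓞 F) (𝓞 L)))).toFinset := by
    intro J hJ
    rw [Finset.mem_image] at hJ
    obtain ⟨𝔓, h𝔓, rfl⟩ := hJ
    exact Multiset.mem_toFinset.2 ((mem_nf hI 𝔓).2 (hB 𝔓 h𝔓))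
  calc ∑ J ∈ B.image (fun 𝔓 => 𝔓.asIdeal), cn (𝓞 F) 𝔭 J ≤
      ∑ J ∈ B.image (fun 𝔓 => 𝔓.asIdeal),
        (normalizedFactors (𝔭.map (algebraMap (𝓞 F) (𝓞 L)))).count J * cn (𝓞 F) 𝔭 J :=
        Finset.sum_le_sum fun J hJ =>
          Nat.le_mul_of_pos_left _ (Multiset.count_pos.2 (Multiset.mem_toFinset.1 (h2 hJ)))
    _ ≤ ∑ J ∈ (normalizedFactors (𝔭.map (algebraMap (𝓞 F) (𝓞 L)))).toFinset,
        (normalizedFactors (𝔭.map (algebraMap (𝓞 F) (𝓞 L)))).count J * cn (𝓞 F) 𝔭 J :=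
        Finset.sum_le_sum_of_subset h2
    _ ≤ 3 := by rw [hsum]

theorem cn_pos (hfin : Module.Finite (𝓞 F) (𝓞 L)) (htf : Module.IsTorsionFree (𝓞 F) (𝓞 L))
    {𝔭 : Ideal (𝓞 F)} (h𝔭 : 𝔭.IsPrime) (h𝔭0 : 𝔭 ≠ ⊥) {𝔓 : HeightOneSpectrum (𝓞 L)}
    (h : Ov 𝔭 𝔓) : 1 ≤ cn (𝓞 F) 𝔭 𝔓.asIdeal := by
  haveI h𝔭m : 𝔭.IsMaximal := h𝔭.isMaximal h𝔭0
  haveI : 𝔓.asIdeal.LiesOver 𝔭 := by
    refine ⟨?_⟩
    refine h𝔭m.eq_of_le ?_ fun a ha => h a ha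
    exact (Ideal.IsPrime.under (𝓞 F) 𝔓.asIdeal).ne_top
  haveI := 𝔓.isMaximal
  have h1 := Ideal.relNorm_eq_pow_of_isMaximal 𝔓.asIdeal 𝔭
  have h2 : 0 < 𝔓.asIdeal.inertiaDeg (𝓞 F) := Ideal.inertiaDeg_pos _ _
  have hirr : Irreducible 𝔭 := (Ideal.prime_of_isPrime h𝔭0 h𝔭).irreducible
  unfold cn
  rw [h1, normalizedFactors_pow, Multiset.count_nsmul, normalizedFactors_irreducible hirr,
    normalize_eq, Multiset.count_singleton_self, mul_one]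
  exact h2

theorem subgroups (h0 : IsGen 1 f θ) (w : HeightOneSpectrum (𝓞 F)) :
    ∃ K₁ K₂ : Subgroup Lˣ, (K₁.index ≠ 0 ∧ K₁.index ≤ 2) ∧ (K₂.index ≠ 0 ∧ K₂.index ≤ 2) ∧
      ∀ x ∈ Nq F L, x ∈ K₁ → x ∈ K₂ → x ∈ Ew L w := by
  have hfin : Module.Finite (𝓞 F) (𝓞 L) := finO h0
  have htf : Module.IsTorsionFree (𝓞 F) (𝓞 L) := tf_O (K := F) (L := L)
  have hfd := fd (toG h0)
  have hpf := perf (F := F)
  have hp := w.isPrime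
  have hp0 := w.ne_bot
  have htop : (⊤ : Subgroup Lˣ).index ≠ 0 ∧ (⊤ : Subgroup Lˣ).index ≤ 2 := by
    rw [Subgroup.index_top]; omega
  by_cases h1 : ∃ 𝔓₁ : HeightOneSpectrum (𝓞 L), Ov w.asIdeal 𝔓₁
  swap
  · exact ⟨⊤, ⊤, htop, htop, fun x _ _ _ 𝔓 h𝔓 => absurd ⟨𝔓, h𝔓⟩ h1⟩
  obtain ⟨𝔓₁, ov1⟩ := h1
  by_cases h2 : ∃ 𝔓₂ : HeightOneSpectrum (𝓞 L), Ov w.asIdeal 𝔓₂ ∧ 𝔓₂ ≠ 𝔓₁
  swap
  · refine ⟨Ep 𝔓₁, ⊤, idx 𝔓₁, htop, fun x _ hx _ 𝔓 h𝔓 => ?_⟩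
    have : 𝔓 = 𝔓₁ := by
      by_contra h
      exact h2 ⟨𝔓, h𝔓, h⟩
    rw [this]
    exact hx
  obtain ⟨𝔓₂, ov2, hne⟩ := h2
  refine ⟨Ep 𝔓₁, Ep 𝔓₂, idx 𝔓₁, idx 𝔓₂, fun x hx hx1 hx2 𝔓 h𝔓 => ?_⟩
  by_cases e1 : 𝔓 = 𝔓₁
  · rw [e1]; exact hx1
  by_cases e2 : 𝔓 = 𝔓₂
  · rw [e2]; exact hx2
  have c1 := cn_pos hfin htf hp hp0 ov1
  have c2 := cn_pos hfin htf hp hp0 ov2
  have c3 := cn_pos hfin htf hp hp0 h𝔓
  have s3 := sum_le h0 hp hp0 hfin htf {𝔓, 𝔓₁, 𝔓₂} (by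
    intro 𝔔 h
    rw [Finset.mem_insert, Finset.mem_insert, Finset.mem_singleton] at h
    rcases h with rfl | rfl | rfl
    · exact h𝔓
    · exact ov1
    · exact ov2)
  rw [Finset.sum_insert (by simp [e1, e2]), Finset.sum_insert (by simpa using hne.symm),
    Finset.sum_singleton] at s3
  refine parity hp hp0 𝔓 ?_ x.ne_zero hx fun 𝔔 ho hq => ?_
  · have : cn (𝓞 F) w.asIdeal 𝔓.asIdeal = 1 := by omega
    rw [this]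
    exact odd_one
  · by_cases q1 : 𝔔 = 𝔓₁
    · rw [q1]; exact Or.inl hx1
    by_cases q2 : 𝔔 = 𝔓₂
    · rw [q2]; exact Or.inl hx2
    exfalso
    have c4 := cn_pos hfin htf hp hp0 ho
    have s4 := sum_le h0 hp hp0 hfin htf {𝔔, 𝔓, 𝔓₁, 𝔓₂} (by
      intro 𝔔' h
      rw [Finset.mem_insert, Finset.mem_insert, Finset.mem_insert, Finset.mem_singleton] at h
      rcases h with rfl | rfl | rfl | rfl
      · exact ho
      · exact h𝔓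
      · exact ov1
      · exact ov2)
    rw [Finset.sum_insert (by simp [q1, q2, hq]), Finset.sum_insert (by simp [e1, e2]),
      Finset.sum_insert (by simpa using hne.symm), Finset.sum_singleton] at s4
    omega

theorem pr4 : Pool.Agent.H459.UN.S_PR4 := by
  intro F L _ _ _ _ _ f θ w h0 _
  obtain ⟨K₁, K₂, ⟨i1, i2⟩, ⟨i3, i4⟩, h⟩ := subgroups h0 w
  have h1 : (K₁ ⊓ K₂).index ≠ 0 := Subgroup.index_inf_ne_zero i1 i3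
  have h2 : (K₁ ⊓ K₂).index ≤ 4 := by
    refine (Subgroup.index_inf_le).trans ?_
    nlinarith
  have h3 : (Ew L w).relIndex (Nq F L) ∣ (K₁ ⊓ K₂).index := by
    have h4 : (K₁ ⊓ K₂) ⊓ Nq F L ≤ Ew L w := fun x hx => h x hx.2 hx.1.1 hx.1.2
    have h5 := Subgroup.relIndex_dvd_of_le_left (Nq F L) h4
    rw [Subgroup.inf_relIndex_right] at h5
    exact h5.trans (Subgroup.relIndex_dvd_index_of_normal _ _)
  exact ⟨fun h4 => h1 (Nat.eq_zero_of_zero_dvd (h4 ▸ h3)),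
    (Nat.le_of_dvd (Nat.pos_of_ne_zero h1) h3).trans h2⟩

end Pool.Agent.H323.UN
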