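import Pool.Agent.H459.UN.Stm2

/-! Project UN (helper459): RAM, only finitely many primes ramify. -/

set_option autoImplicit false

open IsDedekindDomain NumberField

namespace Pool.Agent.H975.UN

attribute [local instance] FractionRing.liftAlgebra FractionRing.isScalarTower_liftAlgebra

theorem ram : Pool.Agent.H459.UN.S_RAM := by
  intro F M _ _ _ _ _
  have hsep : Algebra.IsSeparable (FractionRing (𝓞 F)) (FractionRing (𝓞 M)) := by
    have hloc : IsLocalization (Algebra.algebraMapSubmonoid (𝓞 M) (nonZeroDivisors (𝓞 F)))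
        (FractionRing (𝓞 M)) :=
      IsIntegralClosure.isLocalization _ (FractionRing (𝓞 F)) _ _
    have hfd : FiniteDimensional (FractionRing (𝓞 F)) (FractionRing (𝓞 M)) :=
      .of_isLocalization (𝓞 F) (𝓞 M) (nonZeroDivisors (𝓞 F))
    infer_instance
  have hd : differentIdeal (𝓞 F) (𝓞 M) ≠ ⊥ := differentIdeal_ne_bot
  have hfin : {P : HeightOneSpectrum (𝓞 M) | P.asIdeal ∣ differentIdeal (𝓞 F) (𝓞 M)}.Finite :=
    Ideal.finite_factors hd
  refine (Set.Finite.biUnion hfin (t := fun P => {w : HeightOneSpectrum (𝓞 F) |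
    w.asIdeal = P.asIdeal.comap (algebraMap (𝓞 F) (𝓞 M))}) (fun P _ => ?_)).subset ?_
  · refine Set.Subsingleton.finite ?_
    intro w hw w' hw'
    exact HeightOneSpectrum.ext (hw.trans hw'.symm)
  · rintro w ⟨P, hP⟩
    have hmax := w.isMaximal
    have h1 : P.asIdeal ^ 2 ∣ w.asIdeal.map (algebraMap (𝓞 F) (𝓞 M)) :=
      Ideal.dvd_iff_le.2 hP
    have h2 := pow_sub_one_dvd_differentIdeal (𝓞 F) P.asIdeal 2 w.ne_bot h1
    have h3 : P.asIdeal ∣ differentIdeal (𝓞 F) (𝓞 M) := by simpa using h2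
    refine Set.mem_biUnion h3 ?_
    have h4 : w.asIdeal ≤ P.asIdeal.comap (algebraMap (𝓞 F) (𝓞 M)) :=
      Ideal.map_le_iff_le_comap.1 (hP.trans (Ideal.pow_le_self two_ne_zero))
    have hprime := P.isPrime
    exact hmax.eq_of_le (Ideal.IsPrime.ne_top inferInstance) h4

end Pool.Agent.H975.UN
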