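import Pool.Agent.H459.UN.Pts
import Pool.Agent.H459.UN.Bram

/-!
# The class over the base field of a point over an extension, invariant modulo 2 (helper459)
-/

set_option autoImplicit false
set_option linter.all false

open Polynomial IsDedekindDomain Matrix NumberField
open scoped Classical IntermediateField

namespace Pool.Agent.H459.UN

open Pool.Agent.N783.PF
open Pool.Agent.N783.PQ (LocIm)
open Pool.Agent.N874.PP (Ev sW)
open Pool.Agent.N630.PP (IsS isS)
open Pool.Agent.TH115.GD (Pt act act_act)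
open Pool.Agent.H459.UF (cu cu_monic cu_deg below lies_below eq_below Unr exists_above val_pow fo fb
  fb_eq agr_top Agr mem_below pp mk_pp norm_pp pp_act disc_ne)
open Pool.Agent.N61.PF (pol pol_natDegree pol_monic pol_coeff0 pol_coeff1 pol_coeff2)
open Pool.Agent.H459.AV

/-- The ramified primes of `M / F`. -/
def Rm (F M : Type) [Field F] [NumberField F] [Field M] [NumberField M] [Algebra F M] :
    Set (HeightOneSpectrum (𝓞 F)) :=
  {w | ∃ P : HeightOneSpectrum (𝓞 M), w.asIdeal.map (algebraMap (𝓞 F) (𝓞 M)) ≤ P.asIdeal ^ 2}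

theorem rm_fin (F M : Type) [Field F] [NumberField F] [Field M] [NumberField M] [Algebra F M] :
    (Rm F M).Finite := Pool.Agent.H975.UN.ram F M

theorem unr_iff {F M : Type} [Field F] [NumberField F] [Field M] [NumberField M] [Algebra F M]
    {w : HeightOneSpectrum (𝓞 F)} (h : w ∉ Rm F M) : Unr F M w := fun P hP => h ⟨P, hP⟩

theorem fF_pol {F : Type} [Field F] [NumberField F] (a b : 𝓞 F) :
    fF (pol a b) = cu (a : F) (b : F) := by
  unfold pol fF cu
  simp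

theorem isW_bc {F M : Type} [Field F] [Field M] [Algebra F M] (A B : F) :
    IsW ((sW A B).baseChange M).toAffine (algebraMap F M A) (algebraMap F M B) := by
  refine ⟨?_, ?_, ?_, rfl, rfl⟩ <;> exact map_zero _

section

variable {F M : Type} [Field F] [NumberField F] [Field M] [NumberField M] [Algebra F M]

/-- The images of the coefficients. -/
noncomputable def im (M : Type) [Field M] [NumberField M] [Algebra F M] (p : 𝓞 F × 𝓞 F) :
    𝓞 M × 𝓞 M := (algebraMap (𝓞 F) (𝓞 M) p.1, algebraMap (𝓞 F) (𝓞 M) p.2)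

theorem im_fst (p : 𝓞 F × 𝓞 F) : ((im M p).1 : M) = algebraMap F M (p.1 : F) := rfl

theorem im_snd (p : 𝓞 F × 𝓞 F) : ((im M p).2 : M) = algebraMap F M (p.2 : F) := rfl

theorem fo_pol (p : 𝓞 F × 𝓞 F) : fo M (pol p.1 p.2) = pol (im M p).1 (im M p).2 := by
  unfold fo pol im
  simp

theorem aev_gd {p : 𝓞 F × 𝓞 F} (D : Gd p) (h : F[X]) :
    aeval D.θ h = D.φ (AdjoinRoot.mk (cu (p.1 : F) (p.2 : F)) h) := by
  rw [← AdjoinRoot.aeval_eq, ← D.hφ]
  exact aeval_algHom_apply D.φ _ h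

theorem norm_gd {p : 𝓞 F × 𝓞 F} (D : Gd p) (h : F[X]) :
    Algebra.norm F (aeval D.θ h) =
      Algebra.norm F (AdjoinRoot.mk (cu (p.1 : F) (p.2 : F)) h) := by
  rw [aev_gd]
  exact Algebra.norm_eq_of_algEquiv D.φ _

/-- The class. -/
theorem pt_class [IsGalois F M] {p : 𝓞 F × 𝓞 F} (D : Gd p)
    (hirr : Irreducible (cu (p.1 : F) (p.2 : F))) {k : ℕ} (hk : Module.finrank F M = 2 ^ k)
    (P : Pt (sW (p.1 : F) (p.2 : F)) M)
    (hP : ∀ σ : M ≃ₐ[F] M, ∃ Q, act (sW (p.1 : F) (p.2 : F)) (σ : M →ₐ[F] M) P - P = Q + Q) :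
    ∃ (h₀ : F[X]) (t : M[X]) (x : D.Lˣ), (x : D.L) = aeval D.θ h₀ ∧
      IsCoprime t (cu (algebraMap F M (p.1 : F)) (algebraMap F M (p.2 : F))) ∧
      cu (algebraMap F M (p.1 : F)) (algebraMap F M (p.2 : F)) ∣
        pp P - h₀.map (algebraMap F M) * t ^ 2 ∧
      x ∈ Vz F D.L (Zf (pol p.1 p.2) ∪ Rm F M) := by
  obtain ⟨A, hA⟩ : ∃ A : F, A = (p.1 : F) := ⟨_, rfl⟩
  obtain ⟨B, hB⟩ : ∃ B : F, B = (p.2 : F) := ⟨_, rfl⟩
  have hirrM : Irreducible (cu (algebraMap F M (p.1 : F)) (algebraMap F M (p.2 : F))) :=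
    irr_up hirr hk
  have hW := isW_bc (F := F) (M := M) (p.1 : F) (p.2 : F)
  obtain ⟨h₀, t, c1, c2, c3, c4⟩ := Pool.Agent.H390.UN.h90 F M (p.1 : F) (p.2 : F) hirrM (pp P)
    (pp_cop hirrM P) (norm_pt hirrM hW P) (fun σ => by
      obtain ⟨Q, hQ⟩ := hP σ
      obtain ⟨s, hs⟩ := mk_congr hirrM hW hQ
      obtain ⟨s, rfl⟩ := AdjoinRoot.mk_surjective s
      refine ⟨s, ?_⟩
      rw [pp_act] at hs
      rw [← AdjoinRoot.mk_eq_zero] at *
      have h5 : AdjoinRoot.mk (cu (algebraMap F M (p.1 : F)) (algebraMap F M (p.2 : F)))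
          ((pp P).map (((σ : M →ₐ[F] M)) : M →+* M) * pp P - s ^ 2) = 0 := by
        rw [map_sub, map_mul, map_pow, hs, sq, sub_self]
      exact h5)
  have c1' : IsCoprime h₀ (cu (p.1 : F) (p.2 : F)) := c1
  have c2' : IsCoprime t (cu (algebraMap F M (p.1 : F)) (algebraMap F M (p.2 : F))) := c2
  have c4' : cu (algebraMap F M (p.1 : F)) (algebraMap F M (p.2 : F)) ∣
      pp P - h₀.map (algebraMap F M) * t ^ 2 := c4
  have hx0 : aeval D.θ h₀ ≠ 0 := by
    rw [aev_gd]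
    intro h9
    exact mk_ne hirr c1' (D.φ.injective (h9.trans (map_zero D.φ).symm))
  refine ⟨h₀, t, Units.mk0 _ hx0, rfl, c2', c4', ?_, ?_⟩
  · rw [Units.val_mk0, norm_gd]
    exact c3
  · intro 𝔓 h𝔓
    rw [Units.val_mk0]
    rw [Set.mem_union, not_or] at h𝔓
    -- the cubic extension of `M`
    obtain ⟨DM⟩ := exists_gd (F := M) (p := im M p) hirrM
    haveI : Fact (Irreducible (cu (p.1 : F) (p.2 : F))) := ⟨hirr⟩
    letI iFL : Algebra F DM.L := ((algebraMap M DM.L).comp (algebraMap F M)).toAlgebra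
    haveI tw1 : IsScalarTower F M DM.L := IsScalarTower.of_algebraMap_eq' rfl
    have hroot : aeval DM.θ (cu (p.1 : F) (p.2 : F)) = 0 := by
      have h1 := DM.gen.root
      rw [← fo_pol, show fF (fo M (pol p.1 p.2)) = fb M (pol p.1 p.2) from (fb_eq M _).symm] at h1
      unfold fb at h1
      rw [aeval_map_algebraMap, fF_pol] at h1
      exact h1
    obtain ⟨ψ, hψ⟩ : ∃ ψ : D.L →ₐ[F] DM.L, ψ D.θ = DM.θ := by
      refine ⟨(AdjoinRoot.liftAlgHom (cu (p.1 : F) (p.2 : F)) (Algebra.ofId F DM.L) DM.θ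
        hroot).comp D.φ.symm.toAlgHom, ?_⟩
      have h1 : D.φ.symm D.θ = AdjoinRoot.root (cu (p.1 : F) (p.2 : F)) := by
        rw [← D.hφ]
        exact D.φ.symm_apply_apply _
      show AdjoinRoot.liftAlgHom (cu (p.1 : F) (p.2 : F)) (Algebra.ofId F DM.L) DM.θ
        hroot (D.φ.symm D.θ) = DM.θ
      rw [h1]
      exact AdjoinRoot.liftAlgHom_root _ _ _ _
    letI iLL : Algebra D.L DM.L := ψ.toRingHom.toAlgebra
    haveI tw2 : IsScalarTower F D.L DM.L := IsScalarTower.of_algebraMap_eq fun x =>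
      (ψ.commutes x).symm
    have hθ : algebraMap D.L DM.L D.θ = DM.θ := hψ
    have hGM : IsGen 1 (fo M (pol p.1 p.2)) (algebraMap D.L DM.L D.θ) := by
      rw [hθ, fo_pol]
      exact DM.gen
    have hfb : fb M (pol p.1 p.2) =
        cu (algebraMap F M (p.1 : F)) (algebraMap F M (p.2 : F)) := by
      unfold fb
      rw [fF_pol, Pool.Agent.H459.UF.cu_map]
    have ht0 : aeval (algebraMap D.L DM.L D.θ) t ≠ 0 := by
      rw [hθ, aev_gd DM]
      intro h9
      exact mk_ne hirrM c2' (DM.φ.injective (h9.trans (map_zero DM.φ).symm))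
    refine ev_desc (L := D.L) (LM := DM.L) D.gen hGM (unr_iff h𝔓.2) h𝔓.1 (h := pp P) ?_ hx0 ht0
      ?_ ?_ rfl
    · rw [hfb]
      exact locIm_pp hirrM hW P
    · rw [hfb]
      exact c4'
    · rw [norm_gd]
      exact c3

/-- Points with the same class. -/
theorem pt_inj [IsGalois F M] {p : 𝓞 F × 𝓞 F} (D : Gd p)
    (hirr : Irreducible (cu (p.1 : F) (p.2 : F))) {k : ℕ} (hk : Module.finrank F M = 2 ^ k)
    {P P' : Pt (sW (p.1 : F) (p.2 : F)) M} {h h' : F[X]} {t t' : M[X]}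
    (h1 : cu (algebraMap F M (p.1 : F)) (algebraMap F M (p.2 : F)) ∣
        pp P - h.map (algebraMap F M) * t ^ 2)
    (h2 : cu (algebraMap F M (p.1 : F)) (algebraMap F M (p.2 : F)) ∣
        pp P' - h'.map (algebraMap F M) * t' ^ 2)
    (h3 : IsSquare (aeval D.θ h * aeval D.θ h')) : ∃ Q, P - P' = Q + Q := by
  have hirrM : Irreducible (cu (algebraMap F M (p.1 : F)) (algebraMap F M (p.2 : F))) :=
    irr_up hirr hk
  have hW := isW_bc (F := F) (M := M) (p.1 : F) (p.2 : F)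
  apply congr_of_mk hirrM hW
  rw [← AdjoinRoot.mk_eq_mk] at h1 h2
  obtain ⟨s, hs⟩ := h3
  rw [aev_gd, aev_gd, ← map_mul, ← map_mul] at hs
  obtain ⟨u, hu⟩ := D.φ.surjective s
  rw [← hu, ← map_mul] at hs
  have h4 := D.φ.injective hs
  obtain ⟨q, rfl⟩ := AdjoinRoot.mk_surjective u
  rw [← map_mul, AdjoinRoot.mk_eq_mk] at h4
  have h5 := Polynomial.map_dvd (algebraMap F M) h4
  rw [Pool.Agent.H459.UF.cu_map, Polynomial.map_sub, Polynomial.map_mul, Polynomial.map_mul,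
    ← AdjoinRoot.mk_eq_mk, map_mul, map_mul] at h5
  refine ⟨AdjoinRoot.mk _ (q.map (algebraMap F M)) * AdjoinRoot.mk _ t * AdjoinRoot.mk _ t', ?_⟩
  rw [h1, h2, map_mul, map_mul, map_pow, map_pow]
  linear_combination (AdjoinRoot.mk _ t) ^ 2 * (AdjoinRoot.mk _ t') ^ 2 * h5

end

end Pool.Agent.H459.UN
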