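import Pool.Agent.H459.UN.Lat
import Pool.Agent.H459.AV.Cnt

/-!
# From the relaxed classes to classes of pairs (helper459)
-/

set_option autoImplicit false
set_option linter.all false

open Polynomial IsDedekindDomain Matrix NumberField
open scoped Classical

namespace Pool.Agent.H459.UN

open Pool.Agent.N783.PF
open Pool.Agent.N352.PJ (Mt Typ dd)
open Pool.Agent.N783.PQ (chp Gap Mid Deep LocIm)
open Pool.Agent.N874.PP (Ev)
open Pool.Agent.N874.PM (ev_down sq_down ev_sq ev_mul)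
open Pool.Agent.H459.UF (cu cu_monic cu_deg below lies_below eq_below)
open Pool.Agent.N61.PF (pol pol_natDegree pol_monic pol_coeff0 pol_coeff1 pol_coeff2)
open Pool.Agent.H459.AV

theorem res32 {R : Type} [CommRing R] (f g : R[X]) (a b : R) (h0 : f.coeff 0 = b) (h1 : f.coeff 1 = a)
    (h2 : f.coeff 2 = 0) (h3 : f.coeff 3 = 1) (d0 : g.coeff 0 = a) (d1 : g.coeff 1 = 0)
    (d2 : g.coeff 2 = 3) : f.resultant g 3 2 = 4 * a ^ 3 + 27 * b ^ 2 := by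
  unfold Polynomial.resultant
  simp [Polynomial.sylvester, Matrix.det_succ_row_zero, Fin.sum_univ_succ, Fin.succAbove,
    Fin.addCases, h0, h1, h2, h3, d0, d1, d2]
  ring

section

variable {F : Type} [Field F] [NumberField F]

theorem dsc_pol (a b : 𝓞 F) : dsc 1 (pol a b) = 4 * a ^ 3 + 27 * b ^ 2 := by
  have h3 : (pol a b).coeff 3 = 1 := by
    have h := (pol_monic a b).coeff_natDegree
    rwa [pol_natDegree] at h
  refine res32 (pol a b) (derivative (pol a b)) a b (pol_coeff0 _ _) (pol_coeff1 _ _)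
    (pol_coeff2 _ _) h3 ?_ ?_ ?_
  · rw [coeff_derivative, pol_coeff1]
    simp
  · rw [coeff_derivative, pol_coeff2]
    simp
  · rw [coeff_derivative, h3]
    norm_num

/-- The bad primes. -/
def Zf (f : (𝓞 F)[X]) : Set (HeightOneSpectrum (𝓞 F)) :=
  {w | (2 : 𝓞 F) ∈ w.asIdeal ∨ dsc 1 f ∈ w.asIdeal ^ 2}

/-- The squares. -/
def Sq (L : Type) [Field L] : Subgroup Lˣ := (powMonoidHom 2 : Lˣ →* Lˣ).range

theorem mem_sq {L : Type} [Field L] {x : Lˣ} : x ∈ Sq L ↔ IsSquare (x : L) := by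
  constructor
  · rintro ⟨y, rfl⟩
    exact ⟨(y : L), by simp [sq]⟩
  · rintro ⟨y, hy⟩
    have hy0 : y ≠ 0 := by
      rintro rfl
      rw [mul_zero] at hy
      exact x.ne_zero hy
    refine ⟨Units.mk0 y hy0, ?_⟩
    ext
    simp [hy, sq]

variable {L : Type} [Field L] [NumberField L] [Algebra F L]

theorem Ev.inv {𝔓 : HeightOneSpectrum (𝓞 L)} {x : L} (h : Ev 𝔓 x) : Ev 𝔓 x⁻¹ := by
  obtain ⟨y, hy⟩ := h
  exact ⟨y⁻¹, by rw [map_inv₀, map_inv₀, hy, inv_pow]⟩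

/-- The elements with square norm, even outside `Z`. -/
def Vz (F : Type) [Field F] [NumberField F] (L : Type) [Field L] [NumberField L] [Algebra F L]
    (Z : Set (HeightOneSpectrum (𝓞 F))) : Subgroup Lˣ where
  carrier := {x | IsSquare (Algebra.norm F (x : L)) ∧
    ∀ 𝔓 : HeightOneSpectrum (𝓞 L), below F 𝔓 ∉ Z → Ev 𝔓 (x : L)}
  mul_mem' := by
    rintro x y ⟨h1, h2⟩ ⟨h3, h4⟩
    refine ⟨?_, fun 𝔓 h => ?_⟩
    · rw [Units.val_mul, map_mul]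
      exact h1.mul h3
    · rw [Units.val_mul]
      exact ev_mul (h2 𝔓 h) (h4 𝔓 h)
  one_mem' := by
    refine ⟨by simp, fun 𝔓 h => ?_⟩
    have := ev_sq 𝔓 (1 : L)
    rwa [one_pow] at this
  inv_mem' := by
    rintro x ⟨h1, h2⟩
    refine ⟨?_, fun 𝔓 h => ?_⟩
    · obtain ⟨y, hy⟩ := h1
      have h3 : Algebra.norm F ((x⁻¹ : Lˣ) : L) * Algebra.norm F (x : L) = 1 := by
        rw [← map_mul, ← Units.val_mul, inv_mul_cancel, Units.val_one, map_one]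
      exact ⟨y⁻¹, by rw [eq_inv_of_mul_eq_one_left h3, hy, mul_inv]⟩
    · rw [Units.val_inv_eq_inv_val]
      exact Ev.inv (h2 𝔓 h)

/-- The subgroup of the classes with lattices. -/
def Sp (f : (𝓞 F)[X]) (θ : L) : Subgroup Lˣ := Vz F L (Zf f) ⊓ ⨅ w : Zf f, Hw θ w.1

theorem mem_sp {f : (𝓞 F)[X]} {θ : L} {x : Lˣ} : x ∈ Sp f θ ↔
    (IsSquare (Algebra.norm F (x : L)) ∧
      ∀ 𝔓 : HeightOneSpectrum (𝓞 L), below F 𝔓 ∉ Zf f → Ev 𝔓 (x : L)) ∧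
    ∀ w ∈ Zf f, x ∈ Hw θ w := by
  unfold Sp
  rw [Subgroup.mem_inf, Subgroup.mem_iInf]
  refine and_congr Iff.rfl ⟨fun h w hw => h ⟨w, hw⟩, fun h w => h w.1 w.2⟩

theorem zf_fin {f : (𝓞 F)[X]} (hd : dsc 1 f ≠ 0) : (Zf f).Finite := by
  refine ((fin_dvd two_ne_zero).union (fin_dvd hd)).subset ?_
  rintro w (h | h)
  · exact Or.inl h
  · exact Or.inr (Ideal.pow_le_self two_ne_zero h)

/-- **The lattice.** -/
theorem sp_lat {f : (𝓞 F)[X]} {θ : L} (hG : IsGen 1 f θ) {x : Lˣ} (hx : x ∈ Sp f θ) :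
    ∃ Λ : Submodule (𝓞 F) L, Lat hG (x : L) Λ := by
  rw [mem_sp] at hx
  obtain ⟨⟨-, h2⟩, h3⟩ := hx
  obtain ⟨C, hC1, -⟩ := Pool.Agent.H459.UT.sd hG (fun w => w ∈ Zf f)
    (zf_fin (Pool.Agent.H459.UT.dsc_ne hG)) (fun w hw h => hw (Or.inr h)) x.ne_zero
    (fun 𝔓 hb => h2 𝔓 fun h => hb _ h fun a ha => (Pool.Agent.H459.UF.mem_below 𝔓 a).1 ha)
    (fun w hw => by
      obtain ⟨r, u, rfl, h4, h5⟩ := h3 w hw
      rw [Units.val_inv_eq_inv_val] at h5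
      obtain ⟨G, lam, h6⟩ := ll_hw hG w r.ne_zero u.ne_zero h4 h5
      rw [Units.val_mul, Units.val_pow_eq_pow_val]
      exact ⟨G, lam, h6⟩)
  obtain ⟨Λ, -, h4⟩ := hC1.lat x.ne_zero
  exact ⟨Λ, h4⟩

/-- **From the classes to the classes of pairs.** -/
theorem cls2 (F : Type) [Field F] [NumberField F] : ∃ κ : ℕ, ∀ (B N : ℕ) (f : (𝓞 F)[X]),
    Ht 1 B f → 2 ^ κ * B ≤ 4 ^ N →
    ∀ (L : Type) [Field L] [NumberField L] [Algebra F L] (θ : L), IsGen 1 f θ →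
    ∃ Φ : Lˣ → Cp F 1,
      (∀ x ∈ Sp f θ, x ∉ Sq L → Φ x ∈ TT F N κ ∧ ∀ A B', Φ x = cp A B' → chp A B' = fF f) ∧
      ∀ x ∈ Sp f θ, ∀ y ∈ Sp f θ, x ∉ Sq L → y ∉ Sq L → Φ x = Φ y → x * y ∈ Sq L := by
  obtain ⟨κ, hκ⟩ := lbA 1 F le_rfl
  refine ⟨κ, fun B N f hHt hBN L _ _ _ θ hG => ?_⟩
  have hirr' := Pool.Agent.N438.PF.irrF hG
  have hex : ∀ x : Lˣ, ∃ q : Cp F 1, x ∈ Sp f θ → x ∉ Sq L →
      q ∈ TT F N κ ∧ ∃ (A A' : Mt 1 (𝓞 F)) (e : Fin (2 * 1 + 1) → L),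
        LinearIndependent F e ∧ Gr hG (x : L) e A A' ∧
        chp (mF A) (mF A') = fF f ∧ q = cp (mF A) (mF A') := by
    intro x
    by_cases hh : x ∈ Sp f θ ∧ x ∉ Sq L
    · obtain ⟨hS, hT⟩ := hh
      obtain ⟨Λ, hΛ⟩ := sp_lat hG hS
      obtain ⟨w, w1, w2, w3, A, A', e, x1, x2, x3, x4⟩ := hκ L f θ B N hG hHt hBN _ Λ x.ne_zero
        (mem_sp.1 hS).1.1 hΛ (fun h1 => hT (mem_sq.2 h1))
      exact ⟨cp (mF A) (mF A'), fun _ _ => ⟨⟨w, w1, w2, w3, A, A', x1, by rw [x4]; exact hirr',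
        rfl⟩, A, A', e, x2, x3, x4, rfl⟩⟩
    · exact ⟨cp 0 0, fun h1 h2 => absurd ⟨h1, h2⟩ hh⟩
  choose Φ hΦ using hex
  refine ⟨Φ, fun x hS hT => ?_, fun x hS y hS' hT hT' he => ?_⟩
  · obtain ⟨h1, A, A', e, -, -, h2, h3⟩ := hΦ x hS hT
    refine ⟨h1, fun A₁ B₁ h4 => ?_⟩
    rw [← h2]
    rw [h3] at h4
    exact (cp_eq.1 h4).chp_eq
  · obtain ⟨-, A, A', e, h1, h2, -, h3⟩ := hΦ x hS hT
    obtain ⟨-, A₁, A₁', e', h1', h2', -, h3'⟩ := hΦ y hS' hT'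
    rw [mem_sq, Units.val_mul]
    exact sq_of_eqv hG x.ne_zero y.ne_zero h1 h1' h2 h2' (by rw [← h3, ← h3', he])

end

/-- The data for a pair. -/
structure Gd {F : Type} [Field F] [NumberField F] (p : 𝓞 F × 𝓞 F) where
  /-- the cubic extension -/
  L : Type
  [fL : Field L]
  [nL : NumberField L]
  [aL : Algebra F L]
  /-- the generator -/
  θ : L
  gen : IsGen 1 (pol p.1 p.2) θ
  /-- the isomorphism -/
  φ : AdjoinRoot (cu (p.1 : F) (p.2 : F)) ≃ₐ[F] L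
  hφ : φ (AdjoinRoot.root (cu (p.1 : F) (p.2 : F))) = θ

attribute [instance] Gd.fL Gd.nL Gd.aL

section

variable {F : Type} [Field F] [NumberField F]

theorem exists_gd {p : 𝓞 F × 𝓞 F} (hirr : Irreducible (cu (p.1 : F) (p.2 : F))) : Nonempty (Gd p) := by
  haveI : Fact (Irreducible (cu (p.1 : F) (p.2 : F))) := ⟨hirr⟩
  have hm' : (cu (p.1 : F) (p.2 : F)).Monic := cu_monic _ _
  have hd' : (cu (p.1 : F) (p.2 : F)).natDegree = 3 := cu_deg _ _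
  haveI : FiniteDimensional F (AdjoinRoot (cu (p.1 : F) (p.2 : F))) := hm'.finite_adjoinRoot
  haveI : CharZero (AdjoinRoot (cu (p.1 : F) (p.2 : F))) :=
    charZero_of_injective_algebraMap (R := F) (algebraMap F _).injective
  haveI : FiniteDimensional ℚ (AdjoinRoot (cu (p.1 : F) (p.2 : F))) := FiniteDimensional.trans ℚ F _
  haveI : NumberField (AdjoinRoot (cu (p.1 : F) (p.2 : F))) := { }
  have hfF : fF (pol p.1 p.2) = cu (p.1 : F) (p.2 : F) := by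
    unfold pol fF cu
    simp
  refine ⟨⟨AdjoinRoot (cu (p.1 : F) (p.2 : F)), AdjoinRoot.root _,
    ⟨pol_monic _ _, pol_natDegree _ _, ?_, ?_, ?_⟩, AlgEquiv.refl, rfl⟩⟩
  · rw [hfF, aeval_def]
    exact AdjoinRoot.eval₂_root _
  · rw [(AdjoinRoot.powerBasis hm'.ne_zero).finrank, AdjoinRoot.powerBasis_dim, hd']
  · intro x
    obtain ⟨q, rfl⟩ := AdjoinRoot.mk_surjective x
    obtain ⟨c₀, c₁, c₂, hc⟩ := Pool.Agent.H459.UT.cub_rep (p.1 : F) (p.2 : F) q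
    refine ⟨![c₀, c₁, c₂], ?_⟩
    have e1 : AdjoinRoot.mk (cu (p.1 : F) (p.2 : F)) q =
        AdjoinRoot.mk _ (C c₀ + C c₁ * X + C c₂ * X ^ 2) := by
      rw [← sub_eq_zero, ← map_sub, AdjoinRoot.mk_eq_zero]
      exact hc
    rw [e1]
    have e3 : (∑ i : Fin (2 * 1 + 1), algebraMap F (AdjoinRoot (cu (p.1 : F) (p.2 : F)))
        (![c₀, c₁, c₂] i) * (AdjoinRoot.root (cu (p.1 : F) (p.2 : F))) ^ (i : ℕ)) =
        ∑ i : Fin 3, algebraMap F (AdjoinRoot (cu (p.1 : F) (p.2 : F)))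
        (![c₀, c₁, c₂] i) * (AdjoinRoot.root (cu (p.1 : F) (p.2 : F))) ^ (i : ℕ) := rfl
    rw [e3, Fin.sum_univ_three]
    simp only [Matrix.cons_val_zero, Matrix.cons_val_one, Matrix.cons_val, Fin.val_zero,
      Fin.val_one, Fin.val_two, pow_zero, pow_one, mul_one, map_add, map_mul, map_pow,
      AdjoinRoot.mk_C, AdjoinRoot.mk_X, AdjoinRoot.algebraMap_eq]

/-- The data. -/
noncomputable def gd (p : 𝓞 F × 𝓞 F) (h : Irreducible (cu (p.1 : F) (p.2 : F))) : Gd p :=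
  (exists_gd h).some

/-- The number of the classes with lattices. -/
noncomputable def sN (p : 𝓞 F × 𝓞 F) : ℕ :=
  if h : Irreducible (cu (p.1 : F) (p.2 : F)) then
    (Sq (gd p h).L).relIndex (Sp (pol p.1 p.2) (gd p h).θ) else 0

theorem sN_eq {p : 𝓞 F × 𝓞 F} (h : Irreducible (cu (p.1 : F) (p.2 : F))) :
    sN p = Nat.card (↥(Sp (pol p.1 p.2) (gd p h).θ) ⧸
      (Sq (gd p h).L).subgroupOf (Sp (pol p.1 p.2) (gd p h).θ)) := by
  unfold sN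
  rw [dif_pos h]
  rfl

/-- The classes of the pairs in `T` and the classes of pairs of forms. -/
theorem sp_inj {κ B N : ℕ} (hκ : ∀ (f : (𝓞 F)[X]), Ht 1 B f →
    ∀ (L : Type) [Field L] [NumberField L] [Algebra F L] (θ : L), IsGen 1 f θ →
    ∃ Φ : Lˣ → Cp F 1,
      (∀ x ∈ Sp f θ, x ∉ Sq L → Φ x ∈ TT F N κ ∧ ∀ A B', Φ x = cp A B' → chp A B' = fF f) ∧
      ∀ x ∈ Sp f θ, ∀ y ∈ Sp f θ, x ∉ Sq L → y ∉ Sq L → Φ x = Φ y → x * y ∈ Sq L)
    (hfin : (TT F N κ).Finite) (T : Finset (𝓞 F × 𝓞 F))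
    (hT : ∀ p ∈ T, Irreducible (cu (p.1 : F) (p.2 : F)) ∧ Ht 1 B (pol p.1 p.2)) :
    (∀ p ∈ T, sN p ≠ 0) ∧ ∑ p ∈ T, sN p ≤ T.card + (TT F N κ).ncard := by
  have hirr : ∀ p : T, Irreducible (cu (p.1.1 : F) (p.1.2 : F)) := fun p => (hT p.1 p.2).1
  let G : ∀ p : T, Gd p.1 := fun p => gd p.1 (hirr p)
  have h1 : ∀ p : T, ∃ Φ : (G p).Lˣ → Cp F 1,
      (∀ x ∈ Sp (pol p.1.1 p.1.2) (G p).θ, x ∉ Sq (G p).L → Φ x ∈ TT F N κ ∧
        ∀ A B', Φ x = cp A B' → chp A B' = fF (pol p.1.1 p.1.2)) ∧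
      ∀ x ∈ Sp (pol p.1.1 p.1.2) (G p).θ, ∀ y ∈ Sp (pol p.1.1 p.1.2) (G p).θ, x ∉ Sq (G p).L →
        y ∉ Sq (G p).L → Φ x = Φ y → x * y ∈ Sq (G p).L := fun p =>
    hκ (pol p.1.1 p.1.2) (hT p.1 p.2).2 (G p).L (G p).θ (G p).gen
  choose Φ hΦ using h1
  haveI : Finite (TT F N κ) := hfin.to_subtype
  let Q : T → Type := fun p => ↥(Sp (pol p.1.1 p.1.2) (G p).θ) ⧸
    (Sq (G p).L).subgroupOf (Sp (pol p.1.1 p.1.2) (G p).θ)
  let Ψ : (Σ p : T, Q p) → T ⊕ TT F N κ := fun z =>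
    if h : (z.2.out : (G z.1).Lˣ) ∈ Sq (G z.1).L then Sum.inl z.1
    else Sum.inr ⟨Φ z.1 (z.2.out : (G z.1).Lˣ), ((hΦ z.1).1 _ z.2.out.2 h).1⟩
  have hout : ∀ (p : T) (x y : Q p), (x.out : (G p).Lˣ) * (y.out : (G p).Lˣ) ∈ Sq (G p).L →
      x = y := by
    intro p x y hc
    rw [← Quotient.out_eq x, ← Quotient.out_eq y]
    apply QuotientGroup.eq.2
    rw [Subgroup.mem_subgroupOf]
    have e : (((x.out)⁻¹ * y.out : ↥(Sp (pol p.1.1 p.1.2) (G p).θ)) : (G p).Lˣ) =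
        ((x.out : (G p).Lˣ) * (y.out : (G p).Lˣ)) * ((x.out : (G p).Lˣ)⁻¹) ^ 2 := by
      rw [Subgroup.coe_mul, Subgroup.coe_inv, sq]
      calc ((x.out : (G p).Lˣ))⁻¹ * (y.out : (G p).Lˣ)
          = ((x.out : (G p).Lˣ) * (x.out : (G p).Lˣ)⁻¹) *
            (((x.out : (G p).Lˣ))⁻¹ * (y.out : (G p).Lˣ)) := by rw [mul_inv_cancel, one_mul]
        _ = _ := by
            rw [mul_comm (x.out : (G p).Lˣ) (y.out : (G p).Lˣ)]
            simp only [mul_comm, mul_left_comm, mul_assoc]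
    rw [e]
    exact (Sq (G p).L).mul_mem hc ⟨_, rfl⟩
  have hΨ : Function.Injective Ψ := by
    rintro ⟨p, x⟩ ⟨p', x'⟩ he
    by_cases hx : (x.out : (G p).Lˣ) ∈ Sq (G p).L
    · have e1 : Ψ ⟨p, x⟩ = Sum.inl p := dif_pos hx
      by_cases hx' : (x'.out : (G p').Lˣ) ∈ Sq (G p').L
      · have e2 : Ψ ⟨p', x'⟩ = Sum.inl p' := dif_pos hx'
        rw [e1, e2] at he
        have hp : p = p' := Sum.inl_injective he
        subst hp
        rw [hout p x x' ((Sq (G p).L).mul_mem hx hx')]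
      · have e2 : Ψ ⟨p', x'⟩ = Sum.inr ⟨Φ p' (x'.out : (G p').Lˣ), _⟩ := dif_neg hx'
        rw [e1, e2] at he
        exact absurd he (by simp)
    · have e1 : Ψ ⟨p, x⟩ = Sum.inr ⟨Φ p (x.out : (G p).Lˣ), _⟩ := dif_neg hx
      by_cases hx' : (x'.out : (G p').Lˣ) ∈ Sq (G p').L
      · have e2 : Ψ ⟨p', x'⟩ = Sum.inl p' := dif_pos hx'
        rw [e1, e2] at he
        exact absurd he (by simp)
      · have e2 : Ψ ⟨p', x'⟩ = Sum.inr ⟨Φ p' (x'.out : (G p').Lˣ), _⟩ := dif_neg hx'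
        rw [e1, e2] at he
        have hq : Φ p (x.out : (G p).Lˣ) = Φ p' (x'.out : (G p').Lˣ) :=
          congrArg Subtype.val (Sum.inr_injective he)
        have hp : p = p' := by
          obtain ⟨⟨A, B'⟩, hAB⟩ := Quotient.exists_rep (Φ p (x.out : (G p).Lˣ))
          have hAB' : Φ p (x.out : (G p).Lˣ) = cp A B' := hAB.symm
          have c1 := ((hΦ p).1 _ x.out.2 hx).2 A B' hAB'
          have c2 := ((hΦ p').1 _ x'.out.2 hx').2 A B' (by rw [← hq]; exact hAB')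
          have c3 : fF (pol p.1.1 p.1.2) = fF (pol p'.1.1 p'.1.2) := by rw [← c1, ← c2]
          have c4 : pol p.1.1 p.1.2 = pol p'.1.1 p'.1.2 :=
            Polynomial.map_injective (algebraMap (𝓞 F) F) RingOfIntegers.coe_injective c3
          have c5 := congrArg (fun f : (𝓞 F)[X] => f.coeff 1) c4
          have c6 := congrArg (fun f : (𝓞 F)[X] => f.coeff 0) c4
          simp only [pol_coeff1, pol_coeff0] at c5 c6
          exact Subtype.ext (Prod.ext c5 c6)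
        subst hp
        have hc := (hΦ p).2 _ x.out.2 _ x'.out.2 hx hx' hq
        rw [hout p x x' hc]
  haveI hfS : Finite (Σ p : T, Q p) := Finite.of_injective Ψ hΨ
  have hfin1 : ∀ p : T, Finite (Q p) := fun p =>
    Finite.of_injective (fun x => (⟨p, x⟩ : Σ p : T, Q p))
      (fun x y h => eq_of_heq (Sigma.mk.inj_iff.1 h).2)
  have hsN : ∀ p : T, sN p.1 = Nat.card (Q p) := fun p => sN_eq (hirr p)
  refine ⟨fun p hp => ?_, ?_⟩
  · rw [hsN ⟨p, hp⟩]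
    haveI := hfin1 ⟨p, hp⟩
    haveI : Nonempty (Q ⟨p, hp⟩) := ⟨QuotientGroup.mk 1⟩
    exact Nat.card_pos.ne'
  · have h2 := Nat.card_le_card_of_injective Ψ hΨ
    haveI := hfin1
    rw [Nat.card_sum, Nat.card_coe_set_eq, Nat.card_sigma, Nat.card_eq_fintype_card,
      Fintype.card_coe] at h2
    rw [← Finset.sum_coe_sort T (fun p => sN p)]
    refine le_trans (le_of_eq ?_) h2
    exact Finset.sum_congr rfl fun p _ => hsN p

/-- **The total number of the classes.** -/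
theorem total2 (F : Type) [Field F] [NumberField F] : ∃ C : ℕ, ∀ B : ℕ, 1 ≤ B →
    ∀ T : Finset (𝓞 F × 𝓞 F),
    (∀ p ∈ T, Irreducible (cu (p.1 : F) (p.2 : F)) ∧ Ht 1 B (pol p.1 p.2)) →
    (∀ p ∈ T, sN p ≠ 0) ∧ ∑ p ∈ T, sN p ≤ T.card + C * B ^ (5 * Module.finrank ℚ F) := by
  obtain ⟨κ, hκ⟩ := cls2 F
  obtain ⟨C₁, N₀, hC₁⟩ := badA F 1 κ le_rfl
  obtain ⟨d, hd⟩ : ∃ d, d = Module.finrank ℚ F := ⟨_, rfl⟩
  rw [← hd] at hC₁ ⊢
  refine ⟨C₁ * (4 ^ (N₀ + κ) * 4) ^ (5 * d), fun B hB T hT => ?_⟩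
  obtain ⟨N, hN⟩ : ∃ N, N = N₀ + κ + Nat.clog 4 B := ⟨_, rfl⟩
  have h1 : B ≤ 4 ^ Nat.clog 4 B := Nat.le_pow_clog (by norm_num) B
  have h2 : 4 ^ Nat.clog 4 B ≤ 4 * B := by
    rcases Nat.lt_or_ge 1 B with h | h
    · have h3 := Nat.pow_pred_clog_lt_self (b := 4) (by norm_num) h
      have h4 : 0 < Nat.clog 4 B := Nat.clog_pos (by norm_num) h
      calc 4 ^ Nat.clog 4 B = 4 * 4 ^ (Nat.clog 4 B).pred := by
            rw [← pow_succ']
            congr 1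
            rw [Nat.pred_eq_sub_one]
            omega
        _ ≤ 4 * B := Nat.mul_le_mul_left _ h3.le
    · have : B = 1 := by omega
      rw [this]
      simp
  have h3 : 2 ^ κ * B ≤ 4 ^ N := by
    rw [hN, pow_add, pow_add]
    calc 2 ^ κ * B ≤ 4 ^ κ * 4 ^ Nat.clog 4 B :=
          Nat.mul_le_mul (Nat.pow_le_pow_left (by norm_num) _) h1
      _ ≤ 4 ^ N₀ * (4 ^ κ * 4 ^ Nat.clog 4 B) := Nat.le_mul_of_pos_left _ (by positivity)
      _ = _ := by ring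
  have h4 : 4 ^ N ≤ 4 ^ (N₀ + κ) * 4 * B := by
    rw [hN, pow_add 4 (N₀ + κ), mul_assoc]
    exact Nat.mul_le_mul_left _ h2
  obtain ⟨hfin, hcard⟩ := hC₁ N (by omega)
  obtain ⟨h5, h6⟩ := sp_inj (κ := κ) (B := B) (N := N) (fun f hh L _ _ _ θ hG =>
    hκ B N f hh h3 L θ hG) hfin T hT
  refine ⟨h5, h6.trans (Nat.add_le_add_left (hcard.trans ?_) _)⟩
  have e1 : dd 1 = 5 := rfl
  calc C₁ * 2 ^ (d * (2 * N * dd 1)) = C₁ * (4 ^ N) ^ (5 * d) := by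
        rw [e1, show (4 : ℕ) = 2 ^ 2 by norm_num, ← pow_mul, ← pow_mul]
        congr 2
        ring
    _ ≤ C₁ * (4 ^ (N₀ + κ) * 4 * B) ^ (5 * d) :=
        Nat.mul_le_mul_left _ (Nat.pow_le_pow_left h4 _)
    _ = _ := by
        rw [mul_pow (4 ^ (N₀ + κ) * 4) B]
        ring

end

end Pool.Agent.H459.UN
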