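import Pool.Agent.H459.UN.Cls
import Pool.Agent.H459.UF.Cnd

/-!
# Evenness of descended classes at the unramified primes (helper459)
-/

set_option autoImplicit false
set_option linter.all false

open Polynomial IsDedekindDomain Matrix NumberField
open scoped Classical IntermediateField

namespace Pool.Agent.H459.UN

open Pool.Agent.N783.PF
open Pool.Agent.N783.PQ (LocIm)
open Pool.Agent.N874.PP (Ev)
open Pool.Agent.N874.JM (LocF)
open Pool.Agent.N874.PM (ev_down sq_down ev_sq ev_mul)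
open Pool.Agent.N874.QM (locIm_map)
open Pool.Agent.N78.PF (ev_unit fF_scale)
open Pool.Agent.H459.UF (cu cu_monic cu_deg below lies_below eq_below Unr exists_above val_pow fo fb
  fb_eq agr_top Agr mem_below)
open Pool.Agent.H459.AV

section

variable {F M L LM : Type} [Field F] [NumberField F] [Field M] [NumberField M] [Field L]
  [NumberField L] [Field LM] [NumberField LM] [Algebra F M] [Algebra F L] [Algebra M LM]
  [Algebra L LM] [Algebra F LM] [IsScalarTower F M LM] [IsScalarTower F L LM]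
  {f : (𝓞 F)[X]} {θ : L}

theorem ov_below {w : HeightOneSpectrum (𝓞 F)} {𝔓 : HeightOneSpectrum (𝓞 L)} (h : below F 𝔓 = w) :
    Ov w.asIdeal 𝔓 := by
  subst h
  exact fun x hx => (mem_below 𝔓 x).1 hx

/-- A class over `M`, even at a prime over an unramified prime at which `f'(θ)` is a unit. -/
theorem ev_unr (hG : IsGen 1 f θ) (hGM : IsGen 1 (fo M f) (algebraMap L LM θ))
    {w : HeightOneSpectrum (𝓞 F)} (hu : Unr F M w) (h2 : (2 : 𝓞 F) ∉ w.asIdeal) {h : M[X]}
    (hl : LocIm M (fb M f) h) {h₀ : F[X]} {t : M[X]} (hh0 : aeval θ h₀ ≠ 0)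
    (ht0 : aeval (algebraMap L LM θ) t ≠ 0)
    (hd : fb M f ∣ h - h₀.map (algebraMap F M) * t ^ 2)
    {𝔓 : HeightOneSpectrum (𝓞 L)} (hb : below F 𝔓 = w)
    (hη : 𝔓.valuation L (aeval θ (derivative (fF f))) = 1) : Ev 𝔓 (aeval θ h₀) := by
  obtain ⟨P, hP⟩ := exists_above LM 𝔓
  have hbb : below F (below M P) = w := by
    rw [← hb, ← hP]
    ext1
    ext a
    show algebraMap (𝓞 M) (𝓞 LM) (algebraMap (𝓞 F) (𝓞 M) a) ∈ P.asIdeal ↔
      algebraMap (𝓞 L) (𝓞 LM) (algebraMap (𝓞 F) (𝓞 L) a) ∈ P.asIdeal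
    rw [← IsScalarTower.algebraMap_apply, ← IsScalarTower.algebraMap_apply]
  have hroot : aeval θ (f.map (algebraMap (𝓞 F) F)) = 0 := hG.root
  have hη' : P.valuation LM (algebraMap L LM (aeval θ (derivative (fF f)))) = 1 := by
    obtain ⟨e, he, hv⟩ := val_pow (K := L) P
    rw [hv, hP, hη, one_pow]
  have hagr : Agr L P := agr_top (K₁ := F) (K₂ := M) (L₁ := L) (L₂ := LM) hG.mon
    (Pool.Agent.H459.UT.top_gen hG) hroot (Pool.Agent.H459.UT.top_gen hGM) (by rw [hbb]; exact hu)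
    hη'
  have hder : P.valuation LM (aeval (algebraMap L LM θ) (derivative (fF (fo M f)))) = 1 := by
    have e1 : fF (fo M f) = (fF f).map (algebraMap F M) := (fb_eq M f).symm
    rw [e1, derivative_map, aeval_map_algebraMap, aeval_algebraMap_apply]
    exact hη'
  have h2M : (2 : 𝓞 M) ∉ (below M P).asIdeal := by
    intro h3
    apply h2
    rw [← hbb, mem_below, map_ofNat]
    exact h3
  have h1M : ((1 : ℕ) : 𝓞 M) ∉ (below M P).asIdeal := by
    intro h1
    apply (below M P).isPrime.ne_top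
    rw [Ideal.eq_top_iff_one]
    exact_mod_cast h1
  have hs1 : (fo M f).scaleRoots ((1 : ℕ) : 𝓞 M) = fo M f := by
    rw [Nat.cast_one, scaleRoots_one]
  have e1 : ((1 : ℕ) : LM) * algebraMap L LM θ = algebraMap L LM θ := by rw [Nat.cast_one, one_mul]
  -- the class over `M`
  have hval : aeval (algebraMap L LM θ) h =
      algebraMap L LM (aeval θ h₀) * (aeval (algebraMap L LM θ) t) ^ 2 := by
    obtain ⟨q, hq⟩ := hd
    have h3 := congrArg (aeval (algebraMap L LM θ)) hq
    have h4 : aeval (algebraMap L LM θ) (fb M f) = 0 := by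
      have := hGM.root
      rwa [show fF (fo M f) = fb M f from (fb_eq M f).symm] at this
    have h5 : aeval (algebraMap L LM θ) (h₀.map (algebraMap F M)) = algebraMap L LM (aeval θ h₀) := by
      rw [aeval_map_algebraMap, aeval_algebraMap_apply]
    rw [map_sub, map_mul, map_mul, map_pow, h4, zero_mul, h5] at h3
    exact sub_eq_zero.1 h3
  have hh : aeval (algebraMap L LM θ) h ≠ 0 := by
    rw [hval]
    exact mul_ne_zero ((_root_.map_ne_zero _).2 hh0) (pow_ne_zero 2 ht0)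
  have hloc : LocF ((below M P).adicCompletion M) (fF (fo M f)) h := by
    have h3 := locIm_map (algebraMap M ((below M P).adicCompletion M)) hl
    have e2 : fF (fo M f) = fb M f := (fb_eq M f).symm
    rw [e2]
    exact h3
  have h3 := ev_unit (D := 1) hGM (w := below M P) (𝔓 := P) (lies_below P) h2M h1M h hder
    (by rw [hs1]; exact hloc) (by rw [e1]; exact hh)
  rw [e1, hval] at h3
  have h4 : Ev P (algebraMap L LM (aeval θ h₀)) := by
    obtain ⟨y, hy⟩ := h3
    refine ⟨y * (aeval (algebraMap L LM θ) t)⁻¹, ?_⟩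
    rw [map_mul, map_pow] at hy
    rw [map_mul, map_inv₀, mul_pow, ← hy, inv_pow]
    have h5 : P.valuation LM (aeval (algebraMap L LM θ) t) ^ 2 ≠ 0 :=
      pow_ne_zero 2 ((Valuation.ne_zero_iff _).2 ht0)
    rw [mul_assoc, mul_inv_cancel₀ h5, mul_one]
  have h5 := (ev_down (𝔓 := below L P) (𝔓' := P) hagr (aeval θ h₀)).1 h4
  rwa [hP] at h5

/-- A class over `M`, even at all the primes over an unramified prime which is not bad. -/
theorem ev_desc (hG : IsGen 1 f θ) (hGM : IsGen 1 (fo M f) (algebraMap L LM θ))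
    {w : HeightOneSpectrum (𝓞 F)} (hu : Unr F M w) (hw : w ∉ Zf f) {h : M[X]}
    (hl : LocIm M (fb M f) h) {h₀ : F[X]} {t : M[X]} (hh0 : aeval θ h₀ ≠ 0)
    (ht0 : aeval (algebraMap L LM θ) t ≠ 0)
    (hd : fb M f ∣ h - h₀.map (algebraMap F M) * t ^ 2)
    (hN : IsSquare (Algebra.norm F (aeval θ h₀)))
    {𝔓 : HeightOneSpectrum (𝓞 L)} (hb : below F 𝔓 = w) : Ev 𝔓 (aeval θ h₀) := by
  have h2 : (2 : 𝓞 F) ∉ w.asIdeal := fun h3 => hw (Or.inl h3)
  have hsq : dsc 1 f ∉ w.asIdeal ^ 2 := fun h3 => hw (Or.inr h3)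
  have key : ∀ 𝔓' : HeightOneSpectrum (𝓞 L), Ov w.asIdeal 𝔓' →
      𝔓'.valuation L (aeval θ (derivative (fF f))) = 1 → Ev 𝔓' (aeval θ h₀) := fun 𝔓' ho hu' =>
    ev_unr hG hGM hu h2 hl hh0 ht0 hd (eq_below ho) hu'
  have hov := ov_below hb
  by_cases cu : 𝔓.valuation L (aeval θ (derivative (fF f))) = 1
  · exact key 𝔓 hov cu
  · have v1 : 𝔓.valuation L (aeval θ (derivative (fF f))) < 1 :=
      lt_of_le_of_ne (Pool.Agent.N78.PF.val_der hG 𝔓) cu
    obtain ⟨⟨c, hc⟩, hother⟩ := Pool.Agent.H459.UT.ram hG w.isPrime w.ne_bot hsq hov v1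
    exact Pool.Agent.H459.UT.par hG w.isPrime w.ne_bot hsq hov hc hh0 hN
      fun 𝔓' o' n' => key 𝔓' o' (hother 𝔓' o' n')

end

end Pool.Agent.H459.UN
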