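import Pool.Agent.H459.UN.Sgl2
import Pool.Agent.H459.UN.Bres
import Pool.Agent.H459.UN.Bexpz
import Pool.Agent.H459.AV.Fin

/-!
# All the extensions of 2-power degree at once, on average over the curves (helper459)
-/

set_option autoImplicit false
set_option linter.all false

open Polynomial IsDedekindDomain Matrix NumberField
open scoped Classical IntermediateField

namespace Pool.Agent.H459.UN

open Pool.Agent.N783.PF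
open Pool.Agent.N874.PP (Ev sW)
open Pool.Agent.TH115.GD (Pt act act_act)
open Pool.Agent.H459.UF (cu cu_monic cu_deg disc_ne)
open Pool.Agent.N61.PF (pol pol_natDegree pol_monic pol_coeff0 pol_coeff1 pol_coeff2 ht_pol exists_B
  crv_finite)
open Pool.Agent.H459.AV

theorem expz0 : S_EXPZ := Pool.Agent.H400.UN.expz Pool.Agent.H390.UN.res

section

variable {F : Type} [Field F] [NumberField F]

/-- The box. -/
theorem box {Y : ℝ} {B : ℕ} (hY : Y < 27 * ((B : ℝ) + 1) ^ 6) {p : 𝓞 F × 𝓞 F} (hp : Crv Y p)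
    (σ : F →+* ℂ) : ‖σ (p.1 : F)‖ ≤ ((2 * (B + 1) : ℕ) : ℝ) ^ 2 ∧
      ‖σ (p.2 : F)‖ ≤ ((2 * (B + 1) : ℕ) : ℝ) ^ 3 := by
  have hB0 : (0 : ℝ) ≤ (B : ℝ) + 1 := by positivity
  have h6 : 0 ≤ ((B : ℝ) + 1) ^ 6 := by positivity
  push_cast
  constructor
  · have h3 := (hp.ht σ).1
    refine le_of_pow3 (by positivity) ?_ (norm_nonneg _)
    have h5 : ((2 * ((B : ℝ) + 1)) ^ 2) ^ 3 = 64 * ((B : ℝ) + 1) ^ 6 := by ring
    rw [h5]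
    linarith
  · have h3 := (hp.ht σ).2
    refine le_of_pow_le_pow_left₀ two_ne_zero (by positivity) ?_
    have h5 : ((2 * ((B : ℝ) + 1)) ^ 3) ^ 2 = 64 * ((B : ℝ) + 1) ^ 6 := by ring
    rw [h5]
    linarith

theorem ht_box {Y : ℝ} {B : ℕ} (hY : Y < 27 * ((B : ℝ) + 1) ^ 6) {p : 𝓞 F × 𝓞 F} (hp : Crv Y p) :
    Ht 1 (2 * (B + 1)) (pol p.1 p.2) :=
  ht_pol (fun σ => (box hY hp σ).1) (fun σ => (box hY hp σ).2)

theorem clog_le (n : ℕ) : Nat.clog 2 n ≤ n :=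
  Nat.clog_le_of_le_pow Nat.lt_two_pow_self.le

end

/-- The pointwise inequality. -/
theorem cc_pow {F : Type} [Field F] [NumberField F] (K : ℕ) {s : ℝ} (hs0 : 0 < s) (hs1 : s < 1) :
    ∃ A D : ℕ, ∀ p : 𝓞 F × 𝓞 F, sN p ≠ 0 →
    (2 : ℝ) ^ (s * (cc K p : ℝ)) ≤ 2 * (sN p : ℝ) + D * ((A ^ (Zd p).ncard : ℕ) : ℝ) := by
  obtain ⟨q, hq⟩ : ∃ q : ℝ, q = 1 / (1 - s) := ⟨_, rfl⟩
  have h1s : 0 < 1 - s := by linarith
  have hq0 : 0 < q := by rw [hq]; positivity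
  obtain ⟨A, hA⟩ := exists_nat_ge ((2 : ℝ) ^ (6 * s * q))
  obtain ⟨D, hD⟩ := exists_nat_ge ((2 : ℝ) ^ (s * K * q))
  refine ⟨A, D, fun p hp => ?_⟩
  obtain ⟨z, hz⟩ : ∃ z : ℕ, z = (Zd p).ncard := ⟨_, rfl⟩
  obtain ⟨n, hn⟩ : ∃ n : ℕ, n = sN p := ⟨_, rfl⟩
  have hn1 : 1 ≤ n := by omega
  have hcl : (2 : ℝ) ^ (Nat.clog 2 n : ℝ) ≤ 2 * n := by
    rw [Real.rpow_natCast]
    rcases Nat.lt_or_ge 1 n with h | h
    · have h3 := Nat.pow_pred_clog_lt_self (b := 2) (by norm_num) h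
      have h4 : 0 < Nat.clog 2 n := Nat.clog_pos (by norm_num) h
      have h5 : 2 ^ Nat.clog 2 n = 2 * 2 ^ (Nat.clog 2 n).pred := by
        rw [← pow_succ']
        congr 1
        rw [Nat.pred_eq_sub_one]
        omega
      have h6 : 2 ^ Nat.clog 2 n ≤ 2 * n := by rw [h5]; omega
      exact_mod_cast h6
    · have : n = 1 := by omega
      rw [this]
      norm_num
  obtain ⟨x, hx⟩ : ∃ x : ℝ, x = 2 * n := ⟨_, rfl⟩
  obtain ⟨y, hy⟩ : ∃ y : ℝ, y = (2 : ℝ) ^ (6 * s * q * z + s * K * q) := ⟨_, rfl⟩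
  have hx0 : 0 ≤ x := by rw [hx]; positivity
  have hy0 : 0 ≤ y := by rw [hy]; positivity
  have h1 : (2 : ℝ) ^ (s * (cc K p : ℝ)) ≤ x ^ s * y ^ (1 - s) := by
    unfold cc
    rw [← hn, ← hz]
    push_cast
    have e1 : s * ((Nat.clog 2 n : ℝ) + 6 * (z : ℝ) + K) =
        (Nat.clog 2 n : ℝ) * s + (6 * s * q * z + s * K * q) * (1 - s) := by
      have e2 : q * (1 - s) = 1 := by rw [hq]; field_simp
      have e3 : (6 * s * q * z + s * K * q) * (1 - s) = (6 * s * z + s * K) * (q * (1 - s)) := by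
        ring
      rw [e3, e2]
      ring
    rw [e1, Real.rpow_add (by norm_num), Real.rpow_mul (by norm_num), Real.rpow_mul (by norm_num),
      ← hy]
    refine mul_le_mul_of_nonneg_right ?_ (by positivity)
    rw [hx]
    exact Real.rpow_le_rpow (by positivity) hcl hs0.le
  have h2 : x ^ s * y ^ (1 - s) ≤ s * x + (1 - s) * y :=
    Real.geom_mean_le_arith_mean2_weighted hs0.le h1s.le hx0 hy0 (by ring)
  have h3 : s * x + (1 - s) * y ≤ x + y := by nlinarith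
  have h4 : y ≤ D * ((A ^ z : ℕ) : ℝ) := by
    rw [hy, Real.rpow_add (by norm_num), mul_comm]
    refine mul_le_mul hD ?_ (by positivity) (Nat.cast_nonneg _)
    rw [Real.rpow_mul (by norm_num), Real.rpow_natCast]
    push_cast
    exact pow_le_pow_left₀ (by positivity) hA z
  rw [← hn, ← hz, ← hx]
  linarith

/-- The constants on average. -/
theorem avg_cc (F : Type) [Field F] [NumberField F] (K : ℕ) {s : ℝ} (hs0 : 0 < s) (hs1 : s < 1) :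
    ∃ C : ℝ, 0 < C ∧ ∃ Y₀ : ℝ, ∀ Y ≥ Y₀,
    ∀ T : Finset (𝓞 F × 𝓞 F), (∀ p ∈ T, Crv Y p ∧ Irreducible (cu (p.1 : F) (p.2 : F))) →
    (∑ p ∈ T, (2 : ℝ) ^ (s * (cc K p : ℝ))) ≤ C * ({p : 𝓞 F × 𝓞 F | Crv Y p}.ncard : ℝ) := by
  obtain ⟨A, D, hAD⟩ := cc_pow (F := F) K hs0 hs1
  obtain ⟨C₁, hC₁⟩ := total2 F
  obtain ⟨C₂, hC₂⟩ := expz0 F A
  obtain ⟨c, hc, B₀, hlow⟩ := crv_lower F
  obtain ⟨d, hd⟩ : ∃ d, d = Module.finrank ℚ F := ⟨_, rfl⟩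
  rw [← hd] at hC₁ hC₂ hlow
  obtain ⟨B₁, hB₁⟩ : ∃ B₁ : ℕ, B₁ = max B₀ 1 := ⟨_, rfl⟩
  have hB₁1 : 1 ≤ B₁ := by rw [hB₁]; exact le_max_right _ _
  refine ⟨2 + (2 * C₁ + D * C₂) * 4 ^ (5 * d) / c, by positivity, 27 * (B₁ : ℝ) ^ 6,
    fun Y hY T hT => ?_⟩
  obtain ⟨B, hBB, hBY, hYB⟩ := exists_B B₁ Y hB₁1 hY
  have hB1 : 1 ≤ B := hB₁1.trans hBB
  have hBr : (1 : ℝ) ≤ B := by exact_mod_cast hB1
  have hl := hlow B ((le_max_left B₀ 1).trans (by rw [← hB₁]; exact hBB)) hB1 Y hBY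
  have hfin := crv_finite (F := F) Pool.Agent.N490.PF.pts Y
  obtain ⟨h0, h1⟩ := hC₁ (2 * (B + 1)) (by omega) T fun p hp =>
    ⟨(hT p hp).2, ht_box hYB (hT p hp).1⟩
  have h2 := hC₂ (2 * (B + 1)) (by omega) T fun p hp => by
    refine ⟨?_, fun σ => box hYB (hT p hp).1 σ⟩
    intro h0
    apply disc_ne (hT p hp).2
    have h3 := congrArg (algebraMap (𝓞 F) F) h0
    simp only [map_add, map_mul, map_pow, map_ofNat, map_zero] at h3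
    exact h3
  have h3 : T.card ≤ {p : 𝓞 F × 𝓞 F | Crv Y p}.ncard := by
    rw [← Set.ncard_coe_finset]
    exact Set.ncard_le_ncard (fun p hp => (hT p hp).1) hfin
  obtain ⟨N, hN⟩ : ∃ N : ℝ, N = ({p : 𝓞 F × 𝓞 F | Crv Y p}.ncard : ℝ) := ⟨_, rfl⟩
  rw [← hN] at hl ⊢
  have h3' : (T.card : ℝ) ≤ N := by rw [hN]; exact_mod_cast h3
  have h4 : (((2 * (B + 1) : ℕ) : ℝ)) ^ (5 * d) ≤ (4 * (B : ℝ)) ^ (5 * d) := by
    refine pow_le_pow_left₀ (by positivity) ?_ _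
    push_cast
    linarith
  have h5 : (∑ p ∈ T, (2 : ℝ) ^ (s * (cc K p : ℝ))) ≤
      ∑ p ∈ T, (2 * (sN p : ℝ) + D * ((A ^ (Zd p).ncard : ℕ) : ℝ)) :=
    Finset.sum_le_sum fun p hp => hAD p (h0 p hp)
  have h6 : ∑ p ∈ T, (2 * (sN p : ℝ) + D * ((A ^ (Zd p).ncard : ℕ) : ℝ)) =
      2 * (∑ p ∈ T, (sN p : ℝ)) + D * (∑ p ∈ T, ((A ^ (Zd p).ncard : ℕ) : ℝ)) := by
    rw [Finset.sum_add_distrib, ← Finset.mul_sum, ← Finset.mul_sum]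
  have h7 : (∑ p ∈ T, (sN p : ℝ)) ≤ (T.card : ℝ) + C₁ * (((2 * (B + 1) : ℕ) : ℝ)) ^ (5 * d) := by
    exact_mod_cast h1
  have h8 : (∑ p ∈ T, ((A ^ (Zd p).ncard : ℕ) : ℝ)) ≤
      C₂ * (((2 * (B + 1) : ℕ) : ℝ)) ^ (5 * d) := by
    exact_mod_cast h2
  have hC1 : (0 : ℝ) ≤ C₁ := Nat.cast_nonneg _
  have hC2 : (0 : ℝ) ≤ C₂ := Nat.cast_nonneg _
  have hD0 : (0 : ℝ) ≤ D := Nat.cast_nonneg _
  refine h5.trans (h6.le.trans ?_)
  calc 2 * (∑ p ∈ T, (sN p : ℝ)) + D * (∑ p ∈ T, ((A ^ (Zd p).ncard : ℕ) : ℝ))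
      ≤ 2 * ((T.card : ℝ) + C₁ * (((2 * (B + 1) : ℕ) : ℝ)) ^ (5 * d)) +
        D * (C₂ * (((2 * (B + 1) : ℕ) : ℝ)) ^ (5 * d)) := by gcongr
    _ = T.card * 2 + (2 * C₁ + D * C₂) * (((2 * (B + 1) : ℕ) : ℝ)) ^ (5 * d) := by ring
    _ ≤ N * 2 + (2 * C₁ + D * C₂) * (4 * (B : ℝ)) ^ (5 * d) := by gcongr
    _ = N * 2 + (2 * C₁ + D * C₂) * 4 ^ (5 * d) / c * (c * (B : ℝ) ^ (5 * d)) := by
        rw [mul_pow]
        field_simp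
    _ ≤ N * 2 + (2 * C₁ + D * C₂) * 4 ^ (5 * d) / c * N := by gcongr
    _ = _ := by ring

/-- **The theorem.** -/
theorem fin (hP : S_PR4) (F : Type) [Field F] [NumberField F] : ∃ c : 𝓞 F × 𝓞 F → ℕ,
    (∀ p : 𝓞 F × 𝓞 F, NoTwo p →
      ∀ (M : Type) [Field M] [NumberField M] [Algebra F M] [IsGalois F M] (k : ℕ),
      Module.finrank F M = 2 ^ k →
      (∀ (V : Type) [AddCommGroup V] [Module ℂ V] [FiniteDimensional ℂ V]
        (ρ : Representation ℂ (M ≃ₐ[F] M) V),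
        Module.finrank ℂ (Intw (ga (p.1 : F) (p.2 : F) M) ρ) ≤
          (c p + 2 * (Rm F M).ncard) * Module.finrank ℂ V) ∧
      Module.finrank ℤ (Pt (sW (p.1 : F) (p.2 : F)) M) ≤
        (c p + 2 * (Rm F M).ncard) * Module.finrank F M) ∧
    (∀ (M : Type) [Field M] [NumberField M] [Algebra F M], (Rm F M).Finite) ∧
    (∀ Y : ℝ, {p : 𝓞 F × 𝓞 F | Crv Y p}.Finite) ∧
    ∀ s : ℝ, 0 < s → s < 1 → ∃ C : ℝ, 0 < C ∧ ∃ Y₀ : ℝ, ∀ Y ≥ Y₀,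
    0 < {p : 𝓞 F × 𝓞 F | Crv Y p}.ncard ∧
    (∀ T : Finset (𝓞 F × 𝓞 F), (∀ p ∈ T, Crv Y p ∧ NoTwo p) →
      ∑ p ∈ T, (2 : ℝ) ^ (s * (c p : ℝ)) ≤ C * ({p : 𝓞 F × 𝓞 F | Crv Y p}.ncard : ℝ)) ∧
    ∀ R : ℝ, ({p : 𝓞 F × 𝓞 F | Crv Y p ∧ (¬ NoTwo p ∨ R ≤ c p)}.ncard : ℝ) ≤
      C * ((2 : ℝ) ^ (-(s * R)) + Y ^ (-(Module.finrank ℚ F : ℝ) / 3)) *
        ({p : 𝓞 F × 𝓞 F | Crv Y p}.ncard : ℝ) := by
  obtain ⟨K, hK⟩ := single hP F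
  obtain ⟨hcf, -, C₂, hC₂, Y₂, hY₂⟩ := Pool.Agent.H459.AV.fin F
  refine ⟨cc K, fun p hp M _ _ _ _ k hk => ?_, fun M _ _ _ => rm_fin F M, hcf,
    fun s hs0 hs1 => ?_⟩
  · have hirr := (noTwo_iff p).1 hp
    obtain ⟨B, hB1, hB⟩ : ∃ B : ℕ, 1 ≤ B ∧ Ht 1 B (pol p.1 p.2) := by
      have hb : ∀ x : 𝓞 F, ∃ n : ℕ, ∀ σ : F →+* ℂ, ‖σ (x : F)‖ ≤ n := by
        intro x
        haveI : Fintype (F →+* ℂ) := inferInstance
        obtain ⟨n, hn⟩ := exists_nat_ge (∑ σ : F →+* ℂ, ‖σ (x : F)‖)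
        exact ⟨n, fun σ => (Finset.single_le_sum (f := fun σ : F →+* ℂ => ‖σ (x : F)‖)
          (fun _ _ => norm_nonneg _) (Finset.mem_univ σ)).trans hn⟩
      obtain ⟨n1, h1⟩ := hb p.1
      obtain ⟨n2, h2⟩ := hb p.2
      refine ⟨n1 + n2 + 1, by omega, ht_pol (fun σ => (h1 σ).trans ?_) (fun σ => (h2 σ).trans ?_)⟩
      · push_cast
        have e1 : (0 : ℝ) ≤ n1 := Nat.cast_nonneg _
        have e2 : (0 : ℝ) ≤ n2 := Nat.cast_nonneg _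
        nlinarith
      · push_cast
        have e1 : (0 : ℝ) ≤ n1 := Nat.cast_nonneg _
        have e2 : (0 : ℝ) ≤ n2 := Nat.cast_nonneg _
        have e3 : (n2 : ℝ) ≤ (n1 : ℝ) + n2 + 1 := by linarith
        have e4 : (1 : ℝ) ≤ (n1 : ℝ) + n2 + 1 := by linarith
        exact e3.trans (le_self_pow₀ e4 (by norm_num))
    obtain ⟨C₄, hC₄⟩ := total2 F
    obtain ⟨h1, -⟩ := hC₄ B hB1 {p} fun q hq => by
      rw [Finset.mem_singleton] at hq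
      subst hq
      exact ⟨hirr, hB⟩
    have h2 := h1 p (Finset.mem_singleton_self p)
    exact ⟨fun V _ _ _ ρ => (hK p hirr h2 M k hk V ρ).1,
      (hK p hirr h2 M k hk ℂ (1 : Representation ℂ (M ≃ₐ[F] M) ℂ)).2⟩
  · obtain ⟨C₁, hC₁, Y₁, hY₁⟩ := avg_cc F K hs0 hs1
    refine ⟨C₁ + C₂, add_pos hC₁ hC₂, max Y₁ (max Y₂ 1), fun Y hY => ?_⟩
    have hY1 : (1 : ℝ) ≤ Y := (le_max_right Y₂ 1).trans ((le_max_right _ _).trans hY)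
    obtain ⟨h1, -, h3, -⟩ := hY₂ Y ((le_max_left Y₂ 1).trans ((le_max_right _ _).trans hY))
    have h4 := hY₁ Y ((le_max_left _ _).trans hY)
    obtain ⟨N, hN⟩ : ∃ N : ℝ, N = ({p : 𝓞 F × 𝓞 F | Crv Y p}.ncard : ℝ) := ⟨_, rfl⟩
    have hN0 : 0 ≤ N := by rw [hN]; exact Nat.cast_nonneg _
    obtain ⟨E, hE⟩ : ∃ E : ℝ, E = Y ^ (-(Module.finrank ℚ F : ℝ) / 3) := ⟨_, rfl⟩
    have hE0 : 0 < E := by rw [hE]; exact Real.rpow_pos_of_pos (by linarith) _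
    rw [← hN, ← hE] at h3 ⊢
    rw [← hN] at h4
    refine ⟨h1, fun T hT => ?_, fun R => ?_⟩
    · refine (h4 T fun p hp => ⟨(hT p hp).1, (noTwo_iff p).1 (hT p hp).2⟩).trans ?_
      exact mul_le_mul_of_nonneg_right (by linarith) hN0
    · have hfA : {p : 𝓞 F × 𝓞 F | Crv Y p ∧ NoTwo p ∧ R ≤ cc K p}.Finite :=
        (hcf Y).subset fun p hp => hp.1
      have h5 : ({p : 𝓞 F × 𝓞 F | Crv Y p ∧ (¬ NoTwo p ∨ R ≤ cc K p)}.ncard : ℝ) ≤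
          ({p : 𝓞 F × 𝓞 F | Crv Y p ∧ NoTwo p ∧ R ≤ cc K p}.ncard : ℝ) +
          ({p : 𝓞 F × 𝓞 F | Crv Y p ∧ ¬ NoTwo p}.ncard : ℝ) := by
        have h4 : {p : 𝓞 F × 𝓞 F | Crv Y p ∧ (¬ NoTwo p ∨ R ≤ cc K p)} ⊆
            {p : 𝓞 F × 𝓞 F | Crv Y p ∧ NoTwo p ∧ R ≤ cc K p} ∪
            {p : 𝓞 F × 𝓞 F | Crv Y p ∧ ¬ NoTwo p} := by
          rintro p ⟨hp, hp'⟩
          by_cases h : NoTwo p
          · exact Or.inl ⟨hp, h, hp'.resolve_left (not_not.2 h)⟩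
          · exact Or.inr ⟨hp, h⟩
        have h5 := Set.ncard_le_ncard h4 (hfA.union ((hcf Y).subset fun p hp => hp.1))
        exact_mod_cast h5.trans (Set.ncard_union_le _ _)
      have hRp : (0 : ℝ) < (2 : ℝ) ^ (s * R) := by positivity
      have h6 : ({p : 𝓞 F × 𝓞 F | Crv Y p ∧ NoTwo p ∧ R ≤ cc K p}.ncard : ℝ) *
          (2 : ℝ) ^ (s * R) ≤ C₁ * N := by
        have h7 := h4 hfA.toFinset fun p hp => by
          have := hfA.mem_toFinset.1 hp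
          exact ⟨this.1, (noTwo_iff p).1 this.2.1⟩
        refine le_trans ?_ h7
        have h8 : ∑ p ∈ hfA.toFinset, (2 : ℝ) ^ (s * R) ≤
            ∑ p ∈ hfA.toFinset, (2 : ℝ) ^ (s * (cc K p : ℝ)) :=
          Finset.sum_le_sum fun p hp => Real.rpow_le_rpow_of_exponent_le (by norm_num)
            (mul_le_mul_of_nonneg_left (hfA.mem_toFinset.1 hp).2.2 hs0.le)
        rw [Finset.sum_const, nsmul_eq_mul, ← Set.ncard_eq_toFinset_card _ hfA] at h8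
        exact h8
      have h7 : ({p : 𝓞 F × 𝓞 F | Crv Y p ∧ NoTwo p ∧ R ≤ cc K p}.ncard : ℝ) ≤
          C₁ * (2 : ℝ) ^ (-(s * R)) * N := by
        rw [← le_div_iff₀ hRp] at h6
        refine h6.trans (le_of_eq ?_)
        rw [Real.rpow_neg (by norm_num)]
        field_simp
      have h8 : (0 : ℝ) < (2 : ℝ) ^ (-(s * R)) := by positivity
      calc ({p : 𝓞 F × 𝓞 F | Crv Y p ∧ (¬ NoTwo p ∨ R ≤ cc K p)}.ncard : ℝ) ≤ _ := h5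
        _ ≤ C₁ * (2 : ℝ) ^ (-(s * R)) * N + C₂ * E * N := add_le_add h7 h3
        _ = (C₁ * (2 : ℝ) ^ (-(s * R)) + C₂ * E) * N := by ring
        _ ≤ _ := by
            refine mul_le_mul_of_nonneg_right ?_ hN0
            nlinarith [mul_pos hC₁ hE0, mul_pos hC₂ h8]

end Pool.Agent.H459.UN
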