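import Pool.Agent.H459.UN.Cla
import Pool.Agent.H459.UN.Bidx
import Pool.Agent.H459.UN.Bnew
import Pool.Agent.H459.UN.Bcon

/-!
# The number of the classes which are even outside a finite set (helper459)
-/

set_option autoImplicit false
set_option linter.all false

open Polynomial IsDedekindDomain Matrix NumberField
open scoped Classical IntermediateField

namespace Pool.Agent.H459.UN

open Pool.Agent.N783.PF
open Pool.Agent.N874.PP (Ev sW)
open Pool.Agent.N874.PM (ev_down sq_down ev_sq ev_mul)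
open Pool.Agent.H459.UF (cu cu_monic cu_deg below lies_below eq_below Unr exists_above val_pow fo fb
  fb_eq agr_top Agr mem_below pp mk_pp norm_pp pp_act disc_ne)
open Pool.Agent.N61.PF (pol pol_natDegree pol_monic pol_coeff0 pol_coeff1 pol_coeff2)
open Pool.Agent.H459.AV

theorem idx0 : S_IDX := Pool.Agent.H679.UN.idx (Pool.Agent.H284.UN.new Pool.Agent.H665.UN.con)

section

variable {F L : Type} [Field F] [NumberField F] [Field L] [NumberField L] [Algebra F L]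
  {f : (𝓞 F)[X]} {θ : L}

theorem int_gen (hG : IsGen 1 f θ) : IsIntegral (𝓞 F) θ := by
  refine ⟨f, hG.mon, ?_⟩
  have h := hG.root
  unfold fF at h
  rw [aeval_map_algebraMap] at h
  exact h

theorem val_inR (hG : IsGen 1 f θ) {w : HeightOneSpectrum (𝓞 F)} {𝔓 : HeightOneSpectrum (𝓞 L)}
    (hb : below F 𝔓 = w) {x : L} (h : InR θ w x) : 𝔓.valuation L x ≤ 1 := by
  obtain ⟨q, hq, rfl⟩ := h
  have hθ : 𝔓.valuation L θ ≤ 1 := by
    have h1 : IsIntegral ℤ θ := isIntegral_trans (R := ℤ) (A := 𝓞 F) θ (int_gen hG)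
    exact HeightOneSpectrum.valuation_le_one (K := L) 𝔓 (⟨_, h1⟩ : 𝓞 L)
  rw [aeval_eq_sum_range]
  refine Valuation.map_sum_le _ fun i _ => ?_
  rw [Algebra.smul_def, map_mul, map_pow]
  refine mul_le_one' ?_ (pow_le_one' hθ i)
  obtain ⟨e, -, he⟩ := val_pow (K := F) 𝔓
  rw [he, hb]
  exact pow_le_one' (hq i) e

theorem ev_hw (hG : IsGen 1 f θ) {w : HeightOneSpectrum (𝓞 F)} {𝔓 : HeightOneSpectrum (𝓞 L)}
    (hb : below F 𝔓 = w) {x : Lˣ} (h : x ∈ Hw θ w) : Ev 𝔓 (x : L) := by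
  obtain ⟨r, u, rfl, h1, h2⟩ := h
  refine ⟨(r : L), ?_⟩
  have h3 := val_inR hG hb h1
  have h4 := val_inR hG hb h2
  have h5 : 𝔓.valuation L (u : L) * 𝔓.valuation L ((u⁻¹ : Lˣ) : L) = 1 := by
    rw [← map_mul, ← Units.val_mul, mul_inv_cancel, Units.val_one, map_one]
  have h6 : 𝔓.valuation L (u : L) = 1 := by
    refine le_antisymm h3 ?_
    calc 1 = 𝔓.valuation L (u : L) * 𝔓.valuation L ((u⁻¹ : Lˣ) : L) := h5.symm
      _ ≤ 𝔓.valuation L (u : L) * 1 := mul_le_mul' le_rfl h4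
      _ = _ := mul_one _
  rw [Units.val_mul, map_mul, h6, mul_one, Units.val_pow_eq_pow_val, map_pow]

theorem sq_le_hw (θ : L) (w : HeightOneSpectrum (𝓞 F)) : Sq L ≤ Hw θ w := by
  rintro _ ⟨y, rfl⟩
  exact ⟨y, 1, by simp, by simpa using InR.one θ w, by simpa using InR.one θ w⟩

theorem sq_le_vz (Z : Set (HeightOneSpectrum (𝓞 F))) : Sq L ≤ Vz F L Z := by
  rintro _ ⟨y, rfl⟩
  refine ⟨?_, fun 𝔓 _ => ?_⟩
  · refine ⟨Algebra.norm F (y : L), ?_⟩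
    show Algebra.norm F (((y ^ 2 : Lˣ)) : L) = _
    rw [Units.val_pow_eq_pow_val, map_pow, sq]
  · show Ev 𝔓 ((y ^ 2 : Lˣ) : L)
    rw [Units.val_pow_eq_pow_val]
    exact ev_sq 𝔓 _

theorem vz_inf_le (hG : IsGen 1 f θ) {Z : Set (HeightOneSpectrum (𝓞 F))} (hZ : Zf f ⊆ Z) :
    Vz F L Z ⊓ ⨅ w : Z, Hw θ w.1 ≤ Sp f θ := by
  intro x hx
  rw [Subgroup.mem_inf, Subgroup.mem_iInf] at hx
  rw [mem_sp]
  refine ⟨⟨hx.1.1, fun 𝔓 h𝔓 => ?_⟩, fun w hw => hx.2 ⟨w, hZ hw⟩⟩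
  by_cases h : below F 𝔓 ∈ Z
  · exact ev_hw hG rfl (hx.2 ⟨_, h⟩)
  · exact hx.1.2 𝔓 h

end

/-- The index. -/
theorem rel_le (F : Type) [Field F] [NumberField F] : ∃ K : ℕ, ∀ (L : Type) [Field L]
    [NumberField L] [Algebra F L] (f : (𝓞 F)[X]) (θ : L), IsGen 1 f θ →
    (Sq L).relIndex (Sp f θ) ≠ 0 → ∀ Z : Set (HeightOneSpectrum (𝓞 F)), Z.Finite → Zf f ⊆ Z →
    (Sq L).relIndex (Vz F L Z) ≠ 0 ∧
    (Sq L).relIndex (Vz F L Z) ≤ (Sq L).relIndex (Sp f θ) *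
      2 ^ (6 * (Z \ {w | (2 : 𝓞 F) ∈ w.asIdeal}).ncard + K) := by
  obtain ⟨C, hC⟩ := idx0 F
  obtain ⟨c, hc⟩ : ∃ c, C ≤ 2 ^ c := ⟨C, Nat.lt_two_pow_self.le⟩
  have hW2 : {w : HeightOneSpectrum (𝓞 F) | (2 : 𝓞 F) ∈ w.asIdeal}.Finite := fin_dvd two_ne_zero
  refine ⟨c * {w : HeightOneSpectrum (𝓞 F) | (2 : 𝓞 F) ∈ w.asIdeal}.ncard,
    fun L _ _ _ f θ hG hS Z hZ hfZ => ?_⟩
  have hrk : Module.finrank F L = 3 := hG.rank
  have hC' := fun w => hC L θ w (int_gen hG) (Pool.Agent.H459.UT.top_gen hG) hrk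
  haveI : Finite Z := hZ.to_subtype
  haveI : Fintype Z := Fintype.ofFinite Z
  obtain ⟨H, hH⟩ : ∃ H : Subgroup Lˣ, H = ⨅ w : Z, Hw θ w.1 := ⟨_, rfl⟩
  have hH0 : H.index ≠ 0 := by
    rw [hH]
    exact Subgroup.index_iInf_ne_zero fun w => (hC' w.1).1
  have hHle : H.index ≤ 2 ^ (6 * (Z \ {w | (2 : 𝓞 F) ∈ w.asIdeal}).ncard +
      c * {w : HeightOneSpectrum (𝓞 F) | (2 : 𝓞 F) ∈ w.asIdeal}.ncard) := by
    rw [hH]
    refine (Subgroup.index_iInf_le _).trans ?_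
    have h1 : ∏ w : Z, (Hw θ w.1).index ≤ ∏ w : Z,
        (if (2 : 𝓞 F) ∈ w.1.asIdeal then 2 ^ c else 2 ^ 6) := by
      refine Finset.prod_le_prod' fun w _ => ?_
      split_ifs with h
      · exact ((hC' w.1).2.2 h).trans hc
      · exact (hC' w.1).2.1 h
    refine h1.trans ?_
    have h2 : ∏ w : Z, (if (2 : 𝓞 F) ∈ w.1.asIdeal then 2 ^ c else 2 ^ 6) =
        ∏ w ∈ hZ.toFinset, (if (2 : 𝓞 F) ∈ w.asIdeal then 2 ^ c else 2 ^ 6) := by
      rw [← Finset.prod_coe_sort hZ.toFinset]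
      refine Fintype.prod_equiv (Equiv.subtypeEquivRight fun w => hZ.mem_toFinset.symm) _ _ ?_
      intro w
      rfl
    rw [h2, Finset.prod_ite, Finset.prod_const, Finset.prod_const, ← pow_mul, ← pow_mul, ← pow_add]
    apply Nat.pow_le_pow_right (by norm_num)
    have h3 : (hZ.toFinset.filter fun w => (2 : 𝓞 F) ∈ w.asIdeal).card ≤
        {w : HeightOneSpectrum (𝓞 F) | (2 : 𝓞 F) ∈ w.asIdeal}.ncard := by
      rw [← Set.ncard_coe_finset]
      refine Set.ncard_le_ncard ?_ hW2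
      intro w hw
      have := Finset.mem_coe.1 hw
      exact (Finset.mem_filter.1 this).2
    have h4 : (hZ.toFinset.filter fun w => ¬ (2 : 𝓞 F) ∈ w.asIdeal).card =
        (Z \ {w | (2 : 𝓞 F) ∈ w.asIdeal}).ncard := by
      rw [← Set.ncard_coe_finset]
      congr 1
      ext w
      rw [Finset.mem_coe, Finset.mem_filter, hZ.mem_toFinset]
      rfl
    rw [h4]
    have h5 := Nat.mul_le_mul_left c h3
    omega
  -- the chain of subgroups
  obtain ⟨V, hV⟩ : ∃ V : Subgroup Lˣ, V = Vz F L Z := ⟨_, rfl⟩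
  have hSH : Sq L ≤ H := by
    rw [hH]
    exact le_iInf fun w => sq_le_hw θ w.1
  have hSV : Sq L ≤ V := by
    rw [hV]
    exact sq_le_vz Z
  have hle : V ⊓ H ≤ Sp f θ := by
    rw [hV, hH]
    exact vz_inf_le hG hfZ
  have e1 := Subgroup.relIndex_mul_relIndex (Sq L) (V ⊓ H) V (le_inf hSV hSH) inf_le_left
  have e2 : (V ⊓ H).relIndex V = H.relIndex V := by
    rw [inf_comm]
    exact Subgroup.inf_relIndex_right H V
  have e3 : H.relIndex V ∣ H.index := Subgroup.relIndex_dvd_index_of_normal H V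
  have e4 : H.relIndex V ≠ 0 := fun h0 => hH0 (by
    rw [h0] at e3
    exact Nat.eq_zero_of_zero_dvd e3)
  have e5 : (Sq L).relIndex (V ⊓ H) ≤ (Sq L).relIndex (Sp f θ) :=
    Subgroup.relIndex_le_of_le_right hle hS
  have e6 : (Sq L).relIndex (V ⊓ H) ≠ 0 := fun h0 => hS
    (Subgroup.relIndex_eq_zero_of_le_right hle h0)
  rw [← hV, ← e1, e2]
  refine ⟨mul_ne_zero e6 e4, ?_⟩
  exact Nat.mul_le_mul e5 ((Nat.le_of_dvd (Nat.pos_of_ne_zero hH0) e3).trans hHle)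

end Pool.Agent.H459.UN
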