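import Pool.Agent.H459.UT.Par
import Pool.Graph.R_pool_sql_team_seeded_63374d34.N874.PM.Big

/-!
# Project UN (helper459): statement of PR4
-/

set_option autoImplicit false
set_option linter.all false

open Polynomial IsDedekindDomain NumberField
open scoped Classical

namespace Pool.Agent.H459.UN

open Pool.Agent.N783.PF
open Pool.Agent.N874.PP (Ev)
open Pool.Agent.N874.PM (ev_sq ev_mul)

/-- The elements with square norm. -/
def Nq (F L : Type) [Field F] [Field L] [Algebra F L] : Subgroup Lˣ where
  carrier := {x | IsSquare (Algebra.norm F (x : L))}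
  mul_mem' := by
    intro x y hx hy
    show IsSquare (Algebra.norm F ((x * y : Lˣ) : L))
    rw [Units.val_mul, map_mul]
    exact IsSquare.mul hx hy
  one_mem' := by
    show IsSquare (Algebra.norm F ((1 : Lˣ) : L))
    simp
  inv_mem' := by
    intro x hx
    obtain ⟨y, hy⟩ := hx
    have h3 : Algebra.norm F ((x⁻¹ : Lˣ) : L) * Algebra.norm F (x : L) = 1 := by
      rw [← map_mul, ← Units.val_mul, inv_mul_cancel, Units.val_one, map_one]
    exact ⟨y⁻¹, by rw [eq_inv_of_mul_eq_one_left h3, hy, mul_inv]⟩

/-- The elements with even valuation at all primes over `w`. -/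
def Ew {F : Type} (L : Type) [Field F] [NumberField F] [Field L] [NumberField L] [Algebra F L]
    (w : HeightOneSpectrum (𝓞 F)) : Subgroup Lˣ where
  carrier := {x | ∀ 𝔓 : HeightOneSpectrum (𝓞 L), Ov w.asIdeal 𝔓 → Ev 𝔓 (x : L)}
  mul_mem' := by
    intro x y hx hy 𝔓 h
    rw [Units.val_mul]
    exact ev_mul (hx 𝔓 h) (hy 𝔓 h)
  one_mem' := by
    intro 𝔓 h
    have h1 := ev_sq 𝔓 (1 : L)
    rw [one_pow] at h1
    exact h1
  inv_mem' := by
    intro x hx 𝔓 h
    obtain ⟨y, hy⟩ := hx 𝔓 h
    refine ⟨y⁻¹, ?_⟩
    rw [Units.val_inv_eq_inv_val, map_inv₀, map_inv₀, hy, inv_pow]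

/-- **S_PR4** (parities at a prime over which the discriminant is not divisible by the square).

`Ov w.asIdeal 𝔓` says that `𝔓` is over `w`; `Ev 𝔓 x` that the valuation of `x` at `𝔓` is even (the square of a value).

Proof. There are at most three primes over `w` (`∑ e f = [L : F] = 3`: `IsGen 1 f θ` gives `finrank F L = 3`). The map
which sends `x` to the parities at these primes is a homomorphism with kernel `Ew L w`. If there are at most two
primes over `w`, the image has at most `4` elements. If there are three, all residue degrees are one, so for one of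
them, `𝔓₀`, there is `c ∈ 𝓞 F` with `θ - c ∈ 𝔓₀`, and `Pool.Agent.H459.UT.par` (file UT/Par.lean) says: an element with square
norm which is even at the primes over `w` other than `𝔓₀` is even at `𝔓₀`. So on `Nq F L` the kernel of the parities at
the two other primes is `Nq F L ⊓ Ew L w`, and again the index is at most `4`. -/
def S_PR4 : Prop := ∀ (F L : Type) [Field F] [NumberField F] [Field L] [NumberField L] [Algebra F L]
  (f : (𝓞 F)[X]) (θ : L) (w : HeightOneSpectrum (𝓞 F)), IsGen 1 f θ → dsc 1 f ∉ w.asIdeal ^ 2 →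
  (Ew L w).relIndex (Nq F L) ≠ 0 ∧ (Ew L w).relIndex (Nq F L) ≤ 4

end Pool.Agent.H459.UN
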