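import Pool.Agent.H459.UN.Ind
import Pool.Agent.H459.UN.Stm4

/-!
# The number of the classes which are even outside a finite set, sharp constant (helper459)
-/

set_option autoImplicit false
set_option linter.all false

open Polynomial IsDedekindDomain Matrix NumberField
open scoped Classical IntermediateField

namespace Pool.Agent.H459.UN

open Pool.Agent.N783.PF
open Pool.Agent.N874.PP (Ev sW)
open Pool.Agent.N874.PM (ev_down sq_down ev_sq ev_mul)
open Pool.Agent.H459.UF (cu cu_monic cu_deg below lies_below eq_below Unr exists_above val_pow fo fb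
  fb_eq agr_top Agr mem_below pp mk_pp norm_pp pp_act disc_ne)
open Pool.Agent.N61.PF (pol pol_natDegree pol_monic pol_coeff0 pol_coeff1 pol_coeff2)
open Pool.Agent.H459.AV

/-- The index. -/
theorem rel_le2 (hP : S_PR4) (F : Type) [Field F] [NumberField F] : ∃ K : ℕ, ∀ (L : Type) [Field L]
    [NumberField L] [Algebra F L] (f : (𝓞 F)[X]) (θ : L), IsGen 1 f θ →
    (Sq L).relIndex (Sp f θ) ≠ 0 → ∀ R : Set (HeightOneSpectrum (𝓞 F)), R.Finite →
    (Sq L).relIndex (Vz F L (Zf f ∪ R)) ≠ 0 ∧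
    (Sq L).relIndex (Vz F L (Zf f ∪ R)) ≤ (Sq L).relIndex (Sp f θ) *
      2 ^ (6 * (Zf f \ {w | (2 : 𝓞 F) ∈ w.asIdeal}).ncard + K + 2 * R.ncard) := by
  obtain ⟨K, hK⟩ := rel_le F
  refine ⟨K, fun L _ _ _ f θ hG hS R hR => ?_⟩
  have hZf : (Zf f).Finite := zf_fin (Pool.Agent.H459.UT.dsc_ne hG)
  obtain ⟨h1, h2⟩ := hK L f θ hG hS (Zf f) hZf subset_rfl
  obtain ⟨R', hR'⟩ : ∃ R' : Set (HeightOneSpectrum (𝓞 F)), R' = R \ Zf f := ⟨_, rfl⟩
  have hR'f : R'.Finite := by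
    rw [hR']
    exact hR.subset Set.diff_subset
  haveI : Finite R' := hR'f.to_subtype
  haveI : Fintype R' := Fintype.ofFinite R'
  obtain ⟨V, hV⟩ : ∃ V : Subgroup Lˣ, V = Vz F L (Zf f ∪ R) := ⟨_, rfl⟩
  have hVN : V ≤ Nq F L := by
    rw [hV]
    exact fun x hx => hx.1
  obtain ⟨H, hH⟩ : ∃ H : Subgroup Lˣ, H = ⨅ w : R', Ew L w.1 := ⟨_, rfl⟩
  have hw : ∀ w : R', (Ew L w.1).relIndex V ≠ 0 ∧ (Ew L w.1).relIndex V ≤ 4 := by
    intro w
    have hw1 : w.1 ∉ Zf f := (hR'.le w.2).2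
    obtain ⟨k1, k2⟩ := hP F L f θ w.1 hG fun h => hw1 (Or.inr h)
    exact ⟨fun h0 => k1 (Subgroup.relIndex_eq_zero_of_le_right hVN h0),
      (Subgroup.relIndex_le_of_le_right hVN k1).trans k2⟩
  have hH0 : H.relIndex V ≠ 0 := by
    rw [hH]
    exact Subgroup.relIndex_iInf_ne_zero fun w => (hw w).1
  have hHle : H.relIndex V ≤ 2 ^ (2 * R.ncard) := by
    rw [hH]
    refine (Subgroup.relIndex_iInf_le _).trans ?_
    refine (Finset.prod_le_prod' fun w _ => (hw w).2).trans ?_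
    rw [Finset.prod_const, Finset.card_univ, ← Nat.card_eq_fintype_card, Nat.card_coe_set_eq,
      show (4 : ℕ) = 2 ^ 2 by norm_num, ← pow_mul]
    apply Nat.pow_le_pow_right (by norm_num)
    have : R'.ncard ≤ R.ncard := Set.ncard_le_ncard (by rw [hR']; exact Set.diff_subset) hR
    omega
  have hVZ : Vz F L (Zf f) ≤ V := by
    rw [hV]
    exact fun x hx => ⟨hx.1, fun 𝔓 h => hx.2 𝔓 fun h' => h (Or.inl h')⟩
  have hinf : V ⊓ H ≤ Vz F L (Zf f) := by
    intro x hx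
    rw [Subgroup.mem_inf, hH, Subgroup.mem_iInf] at hx
    obtain ⟨hx1, hx2⟩ := hx
    rw [hV] at hx1
    refine ⟨hx1.1, fun 𝔓 h𝔓 => ?_⟩
    by_cases hb : below F 𝔓 ∈ R
    · exact hx2 ⟨below F 𝔓, by rw [hR']; exact ⟨hb, h𝔓⟩⟩ 𝔓 (ov_below rfl)
    · exact hx1.2 𝔓 fun h => h.elim h𝔓 hb
  have e1 := Subgroup.relIndex_mul_relIndex (Sq L) (Vz F L (Zf f)) V (sq_le_vz _) hVZ
  have e2 : (Vz F L (Zf f)).relIndex V ≤ H.relIndex V := by
    have e3 : (V ⊓ H).relIndex V = H.relIndex V := by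
      rw [inf_comm]
      exact Subgroup.inf_relIndex_right H V
    rw [← e3]
    exact Subgroup.relIndex_le_of_le_left hinf (by rw [e3]; exact hH0)
  have e4 : (Vz F L (Zf f)).relIndex V ≠ 0 := by
    intro h0
    have e3 : (V ⊓ H).relIndex V = H.relIndex V := by
      rw [inf_comm]
      exact Subgroup.inf_relIndex_right H V
    apply hH0
    rw [← e3]
    exact Subgroup.relIndex_eq_zero_of_le_left hinf h0
  rw [← hV, ← e1]
  refine ⟨mul_ne_zero h1 e4, ?_⟩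
  refine (Nat.mul_le_mul h2 (e2.trans hHle)).trans (le_of_eq ?_)
  rw [mul_assoc, ← pow_add]

end Pool.Agent.H459.UN
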