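import Pool.Agent.H459.UT.Sdt
import Pool.Agent.H459.UN.Stm

/-!
# The local lattice of a square times a unit of `O_w[θ]` (helper459)
-/

set_option autoImplicit false
set_option linter.all false

open Polynomial IsDedekindDomain Matrix NumberField
open scoped Classical

namespace Pool.Agent.H459.UN

open Pool.Agent.N783.PF
open Pool.Agent.N352.PJ (Mt Typ dd)
open Pool.Agent.N862.PF (top_pow theta_int theta_ex int_iff dvd_of_sqf)
open Pool.Agent.H459.UT (top_val top_nd LL UG)

section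

variable {F L : Type} [Field F] [NumberField F] [Field L] [NumberField L] [Algebra F L]
  {g : ℕ} {f : (𝓞 F)[X]} {θ : L}

theorem crd_of_top (hG : IsGen g f θ) (w : HeightOneSpectrum (𝓞 F)) {z : L}
    (hz : ∀ m ≤ 2 * g, w.valuation F (hG.top (z * θ ^ m)) ≤ 1) (i : Fin (2 * g + 1)) :
    w.valuation F (hG.basis.repr z i) ≤ 1 := by
  obtain ⟨c, hcd⟩ : ∃ c : Fin (2 * g + 1) → F, c = fun i => hG.basis.repr z i := ⟨_, rfl⟩
  have hc : z = ∑ i, algebraMap F L (c i) * θ ^ (i : ℕ) := by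
    conv_lhs => rw [← hG.basis.sum_repr z]
    refine Finset.sum_congr rfl fun i _ => ?_
    rw [hG.basis_apply, Algebra.smul_def, hcd]
  have key : ∀ m : ℕ, ∀ i : Fin (2 * g + 1), (i : ℕ) + m = 2 * g → w.valuation F (c i) ≤ 1 := by
    intro m
    induction m using Nat.strong_induction_on with
    | _ m ih =>
      intro i him
      have h1 : z * θ ^ m = ∑ l : Fin (2 * g + 1), c l • θ ^ ((l : ℕ) + m) := by
        conv_lhs => rw [hc, Finset.sum_mul]
        refine Finset.sum_congr rfl fun l _ => ?_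
        rw [pow_add, Algebra.smul_def]
        ring
      have h2 := hz m (by omega)
      rw [h1, map_sum, ← Finset.add_sum_erase _ _ (Finset.mem_univ i), map_smul, smul_eq_mul,
        top_pow hG _ (by omega), if_pos him, mul_one] at h2
      have h3 : w.valuation F (∑ l ∈ Finset.univ.erase i, hG.top (c l • θ ^ ((l : ℕ) + m))) ≤ 1 := by
        refine Valuation.map_sum_le _ fun l hl => ?_
        have hli : l ≠ i := (Finset.mem_erase.mp hl).1
        have hli' : (l : ℕ) ≠ i := fun hh => hli (Fin.ext hh)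
        rw [map_smul, smul_eq_mul]
        rcases lt_or_gt_of_ne hli' with hlt | hgt
        · rw [top_pow hG _ (by omega), if_neg (by omega), mul_zero, map_zero]
          exact zero_le
        · rw [map_mul]
          exact mul_le_one' (ih (2 * g - l) (by omega) l (by omega)) (top_val hG w _)
      have h4 := Valuation.map_sub_le _ h2 h3
      rwa [add_sub_cancel_right] at h4
  have := key (2 * g - i) i (by omega)
  rwa [hcd] at this

theorem inR_top (hG : IsGen g f θ) {w : HeightOneSpectrum (𝓞 F)} {z : L} (h : InR θ w z) (m : ℕ) :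
    w.valuation F (hG.top (z * θ ^ m)) ≤ 1 := by
  obtain ⟨q, hq, rfl⟩ := h
  have e : aeval θ q * θ ^ m = ∑ i ∈ q.support, q.coeff i • θ ^ (i + m) := by
    rw [aeval_eq_sum_range, Finset.sum_mul]
    rw [← Finset.sum_subset (s₁ := q.support)]
    · refine Finset.sum_congr rfl fun i _ => ?_
      rw [smul_mul_assoc, pow_add]
    · intro i hi
      rw [Finset.mem_range]
      have := le_natDegree_of_mem_supp i hi
      omega
    · intro i _ hi
      rw [notMem_support_iff.1 hi, zero_smul, zero_mul]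
  rw [e, map_sum]
  refine Valuation.map_sum_le _ fun i _ => ?_
  rw [map_smul, smul_eq_mul, map_mul]
  exact mul_le_one' (hq i) (top_val hG w _)

theorem inR_crd (hG : IsGen g f θ) {w : HeightOneSpectrum (𝓞 F)} {z : L} (h : InR θ w z)
    (i : Fin (2 * g + 1)) : w.valuation F (hG.basis.repr z i) ≤ 1 :=
  crd_of_top hG w (fun m _ => inR_top hG h m) i

theorem inR_pow (w : HeightOneSpectrum (𝓞 F)) (m : ℕ) : InR θ w (θ ^ m) := by
  refine ⟨X ^ m, fun i => ?_, by rw [map_pow, aeval_X]⟩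
  rw [coeff_X_pow]
  split_ifs <;> simp

theorem inR_of_crd (hG : IsGen g f θ) {w : HeightOneSpectrum (𝓞 F)} {z : L}
    (h : ∀ i, w.valuation F (hG.basis.repr z i) ≤ 1) : InR θ w z := by
  refine ⟨∑ i : Fin (2 * g + 1), C (hG.basis.repr z i) * X ^ (i : ℕ), fun k => ?_, ?_⟩
  · rw [finset_sum_coeff]
    refine Valuation.map_sum_le _ fun i _ => ?_
    rw [coeff_C_mul, coeff_X_pow, map_mul]
    refine mul_le_one' (h i) ?_
    split_ifs <;> simp
  · rw [map_sum]
    conv_rhs => rw [← hG.basis.sum_repr z]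
    refine Finset.sum_congr rfl fun i _ => ?_
    rw [map_mul, map_pow, aeval_C, aeval_X, hG.basis_apply, Algebra.smul_def]

/-- The matrix of the form `top (x y)`. -/
noncomputable def G0 (hG : IsGen g f θ) : Mt g F := Matrix.of fun i j => hG.top (θ ^ (i : ℕ) * θ ^ (j : ℕ))

theorem G0_inv (hG : IsGen g f θ) (w : HeightOneSpectrum (𝓞 F)) : ∃ D : Mt g F,
    (∀ i j, w.valuation F (D i j) ≤ 1) ∧ D * G0 hG = 1 := by
  have hdet : (G0 hG).det ≠ 0 := by
    intro h0
    obtain ⟨v, hv, hv0⟩ := Matrix.exists_mulVec_eq_zero_iff.2 h0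
    have h4 : ∑ j : Fin (2 * g + 1), v j • θ ^ (j : ℕ) = 0 := by
      refine top_nd hG fun i => ?_
      have h5 := congrFun hv0 i
      rw [Pi.zero_apply] at h5
      rw [← h5, Finset.sum_mul, map_sum]
      unfold Matrix.mulVec dotProduct
      refine Finset.sum_congr rfl fun j _ => ?_
      rw [smul_mul_assoc, map_smul, smul_eq_mul, mul_comm (v j), mul_comm (θ ^ (j : ℕ))]
      rfl
    apply hv
    funext i
    exact Fintype.linearIndependent_iff.1 hG.basis.linearIndependent v (by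
      rw [← h4]
      refine Finset.sum_congr rfl fun i _ => ?_
      rw [hG.basis_apply]) i
  have hunit : IsUnit (G0 hG).det := isUnit_iff_ne_zero.2 hdet
  refine ⟨(G0 hG)⁻¹, fun i j => ?_, Matrix.nonsing_inv_mul _ hunit⟩
  obtain ⟨D, hD⟩ : ∃ D, D = (G0 hG)⁻¹ := ⟨_, rfl⟩
  have hGD : G0 hG * D = 1 := by rw [hD]; exact Matrix.mul_nonsing_inv _ hunit
  rw [← hD]
  obtain ⟨b, hb⟩ : ∃ b : L, b = ∑ i : Fin (2 * g + 1), D i j • θ ^ (i : ℕ) := ⟨_, rfl⟩
  have hrep : ∀ i, hG.basis.repr b i = D i j := by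
    intro i
    have e : b = ∑ i, D i j • hG.basis i := by
      rw [hb]
      refine Finset.sum_congr rfl fun i _ => ?_
      rw [hG.basis_apply]
    rw [e, hG.basis.repr_sum_self]
  rw [← hrep]
  refine crd_of_top hG w (fun m hm => ?_) i
  have h1 : hG.top (b * θ ^ m) = (1 : Mt g F) ⟨m, by omega⟩ j := by
    rw [← hGD, Matrix.mul_apply, hb, Finset.sum_mul, map_sum]
    refine Finset.sum_congr rfl fun i _ => ?_
    rw [smul_mul_assoc, map_smul, smul_eq_mul, mul_comm (D i j), G0, Matrix.of_apply]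
    congr 2
    simp only
    ring
  rw [h1, Matrix.one_apply]
  split_ifs <;> simp

/-- **The local lattice.** -/
theorem ll_hw (hG : IsGen g f θ) (w : HeightOneSpectrum (𝓞 F)) {r u : L} (hr : r ≠ 0) (hu : u ≠ 0)
    (h1 : InR θ w u) (h2 : InR θ w u⁻¹) : ∃ (G : Mt g (w.adicCompletion F))
      (lam : L → Fin (2 * g + 1) → w.adicCompletion F), UG G ∧ LL hG w (r ^ 2 * u) G lam := by
  obtain ⟨D, hD1, hD2⟩ := G0_inv hG w
  obtain ⟨j, hj⟩ : ∃ j : F →+* w.adicCompletion F, j = algebraMap F _ := ⟨_, rfl⟩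
  have hvx : ∀ x : F, Valued.v (j x) = w.valuation F x := by
    intro x
    rw [hj, Pool.Agent.N704.PP.vx]
  obtain ⟨Mu, hMu⟩ : ∃ Mu : Mt g F, Mu = Algebra.leftMulMatrix hG.basis u := ⟨_, rfl⟩
  obtain ⟨Mi, hMi⟩ : ∃ Mi : Mt g F, Mi = Algebra.leftMulMatrix hG.basis u⁻¹ := ⟨_, rfl⟩
  have hMM : Mu * Mi = 1 := by
    rw [hMu, hMi, ← map_mul, mul_inv_cancel₀ hu, map_one]
  have hint : ∀ z : L, InR θ w z → ∀ k l, w.valuation F (Algebra.leftMulMatrix hG.basis z k l) ≤ 1 := by
    intro z hz k l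
    rw [Algebra.leftMulMatrix_eq_repr_mul, hG.basis_apply]
    exact inR_crd hG (hz.mul (inR_pow w _)) k
  have hmul : ∀ A B : Mt g F, (∀ i j, w.valuation F (A i j) ≤ 1) → (∀ i j, w.valuation F (B i j) ≤ 1) →
      ∀ i j, w.valuation F ((A * B) i j) ≤ 1 := by
    intro A B hA hB i k
    rw [Matrix.mul_apply]
    refine Valuation.map_sum_le _ fun l _ => ?_
    rw [map_mul]
    exact mul_le_one' (hA _ _) (hB _ _)
  have hG0 : ∀ i k, w.valuation F (G0 hG i k) ≤ 1 := by
    intro i k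
    rw [G0, Matrix.of_apply, ← pow_add]
    exact top_val hG w _
  have hGi : ∀ i k, (G0 hG * Mi) i k = hG.top (θ ^ (i : ℕ) * θ ^ (k : ℕ) * u⁻¹) := by
    intro i k
    rw [Matrix.mul_apply]
    have e : θ ^ (i : ℕ) * θ ^ (k : ℕ) * u⁻¹ = ∑ l, Mi l k • (θ ^ (i : ℕ) * θ ^ (l : ℕ)) := by
      have e1 : u⁻¹ * θ ^ (k : ℕ) = ∑ l, Mi l k • θ ^ (l : ℕ) := by
        conv_lhs => rw [← hG.basis.sum_repr (u⁻¹ * θ ^ (k : ℕ))]
        refine Finset.sum_congr rfl fun l _ => ?_
        rw [hMi, Algebra.leftMulMatrix_eq_repr_mul, hG.basis_apply, hG.basis_apply]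
      calc θ ^ (i : ℕ) * θ ^ (k : ℕ) * u⁻¹ = θ ^ (i : ℕ) * (u⁻¹ * θ ^ (k : ℕ)) := by ring
        _ = _ := by
            rw [e1, Finset.mul_sum]
            refine Finset.sum_congr rfl fun l _ => ?_
            rw [mul_smul_comm]
    rw [e, map_sum]
    refine Finset.sum_congr rfl fun l _ => ?_
    rw [map_smul, smul_eq_mul, mul_comm, G0, Matrix.of_apply]
  obtain ⟨c, hc⟩ : ∃ c : L → Fin (2 * g + 1) → F, c = fun x i => hG.basis.repr (x / r) i := ⟨_, rfl⟩
  have hcx : ∀ x, x / r = ∑ i, c x i • θ ^ (i : ℕ) := by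
    intro x
    conv_lhs => rw [← hG.basis.sum_repr (x / r)]
    refine Finset.sum_congr rfl fun i _ => ?_
    rw [hc, hG.basis_apply]
  refine ⟨(G0 hG * Mi).map j, fun x i => j (c x i), ⟨fun i k => ?_, (Mu * D).map j, fun i k => ?_, ?_⟩,
    ⟨fun x y => ?_, fun a x => ?_, fun x y => ?_, fun x hx i => ?_⟩⟩
  · rw [Matrix.map_apply, hvx]
    exact hmul _ _ hG0 (by rw [hMi]; exact hint _ h2) i k
  · rw [Matrix.map_apply, hvx]
    exact hmul _ _ (by rw [hMu]; exact hint _ h1) hD1 i k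
  · have e : Mu * D * (G0 hG * Mi) = 1 := by
      rw [Matrix.mul_assoc, ← Matrix.mul_assoc D, hD2, Matrix.one_mul, hMM]
    rw [← Matrix.map_mul, e]
    exact Matrix.map_one _ (map_zero j) (map_one j)
  · funext i
    rw [Pi.add_apply, hc]
    simp only [add_div, map_add, Finsupp.add_apply]
  · funext i
    rw [Pi.smul_apply, smul_eq_mul, ← hj, ← map_mul]
    congr 1
    rw [hc]
    simp only
    rw [mul_div_assoc, ← Algebra.smul_def, map_smul, Finsupp.smul_apply, smul_eq_mul]
  · rw [← hj]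
    have e : x * y / (r ^ 2 * u) = ∑ i, ∑ k, (c x i * c y k) • (θ ^ (i : ℕ) * θ ^ (k : ℕ) * u⁻¹) := by
      have e1 : x * y / (r ^ 2 * u) = (x / r) * (y / r) * u⁻¹ := by
        field_simp
      rw [e1, hcx x, hcx y, Finset.sum_mul, Finset.sum_mul]
      refine Finset.sum_congr rfl fun i _ => ?_
      rw [Finset.mul_sum, Finset.sum_mul]
      refine Finset.sum_congr rfl fun k _ => ?_
      rw [smul_mul_smul_comm, smul_mul_assoc]
    rw [e, map_sum, map_sum]
    unfold dotProduct Matrix.mulVec dotProduct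
    refine Finset.sum_congr rfl fun i _ => ?_
    rw [map_sum, map_sum, Finset.mul_sum]
    refine Finset.sum_congr rfl fun k _ => ?_
    rw [map_smul, smul_eq_mul, ← hGi]
    change j (c x i * c y k * (G0 hG * Mi) i k) = j (c x i) * (j ((G0 hG * Mi) i k) * j (c y k))
    rw [← map_mul, ← map_mul]
    congr 1
    ring
  · have hx' : ∀ i, Valued.v (j (c x i)) ≤ 1 := hx
    change Valued.v (j (c (θ * x) i)) ≤ 1
    rw [hvx]
    have hin : InR θ w (x / r) := inR_of_crd hG fun i => by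
      have := hx' i
      rw [hvx, hc] at this
      exact this
    have h3 : θ * x / r = θ * (x / r) := by ring
    rw [hc]
    simp only
    rw [h3]
    have h4 : InR θ w θ := by
      have := inR_pow (θ := θ) w 1
      rwa [pow_one] at this
    exact inR_crd hG (h4.mul hin) i

end

end Pool.Agent.H459.UN
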