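import Pool.Agent.H459.UN.Evd
import Pool.Agent.H459.UN.Bh90
import Pool.Agent.H459.UN.Bkuh
import Pool.Agent.H459.UN.Bkuk
import Pool.Agent.H459.AV.Rk

/-!
# Points over an extension of 2-power degree, invariant modulo 2 (helper459)
-/

set_option autoImplicit false
set_option linter.all false

open Polynomial IsDedekindDomain Matrix NumberField
open scoped Classical IntermediateField

namespace Pool.Agent.H459.UN

open Pool.Agent.N783.PF
open Pool.Agent.N783.PQ (LocIm)
open Pool.Agent.N874.PP (Ev sW)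
open Pool.Agent.N630.PP (IsS isS)
open Pool.Agent.TH115.GD (Pt act act_act)
open Pool.Agent.H459.UF (cu cu_monic cu_deg below lies_below eq_below Unr exists_above val_pow fo fb
  fb_eq agr_top Agr mem_below pp mk_pp norm_pp pp_act disc_ne)
open Pool.Agent.N61.PF (pol pol_natDegree pol_monic pol_coeff0 pol_coeff1 pol_coeff2)
open Pool.Agent.H459.AV

section irr

/-- An irreducible cubic stays irreducible in an extension whose degree is a power of two. -/
theorem irr_up {F M : Type} [Field F] [Field M] [Algebra F M] [FiniteDimensional F M] {A B : F}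
    (h : Irreducible (cu A B)) {k : ℕ} (hk : Module.finrank F M = 2 ^ k) :
    Irreducible (cu (algebraMap F M A) (algebraMap F M B)) := by
  rw [Polynomial.irreducible_iff_roots_eq_zero_of_degree_le_three (by rw [cu_deg]; omega)
    (by rw [cu_deg]), Multiset.eq_zero_iff_forall_notMem]
  intro x hx
  have h1 := Polynomial.isRoot_of_mem_roots hx
  have h2 : aeval x (cu A B) = 0 := by
    rw [← Pool.Agent.H459.UF.cu_map, IsRoot, eval_map_algebraMap] at h1
    exact h1
  have h3 : minpoly F x = cu A B :=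
    (minpoly.eq_of_irreducible_of_monic h h2 (cu_monic A B)).symm
  have h4 := minpoly.degree_dvd (K := F) (Algebra.IsIntegral.isIntegral (R := F) x)
  rw [h3, cu_deg, hk] at h4
  have h5 : (3 : ℕ) ∣ 2 := Nat.Prime.dvd_of_dvd_pow Nat.prime_three h4
  omega

end irr

section kum

variable {K : Type} [Field K] [CharZero K] {A B : K} {W : WeierstrassCurve.Affine K}

theorem root_cu : aeval (AdjoinRoot.root (cu A B)) (cb A B) = 0 := by
  rw [aeval_def]
  exact AdjoinRoot.eval₂_root _

theorem kp_eq [Fact (Irreducible (cu A B))] (P : W.Point) : kp (AdjoinRoot.root (cu A B)) P = AdjoinRoot.mk (cu A B) (pp P) := by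
  rcases P with _ | ⟨x, y, h⟩
  · exact (map_one _).symm
  · show algebraMap K (AdjoinRoot (cu A B)) x - AdjoinRoot.root (cu A B) =
      AdjoinRoot.mk (cu A B) (C x - X)
    rw [map_sub, AdjoinRoot.mk_C, AdjoinRoot.mk_X, AdjoinRoot.algebraMap_eq]

theorem aev_eq (s : K[X]) : aeval (AdjoinRoot.root (cu A B)) s = AdjoinRoot.mk (cu A B) s :=
  AdjoinRoot.aeval_eq s

theorem pp_cop (hirr : Irreducible (cu A B)) (P : W.Point) : IsCoprime (pp P) (cu A B) := by
  rcases P with _ | ⟨x, y, h⟩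
  · exact isCoprime_one_left
  · refine ((hirr.coprime_iff_not_dvd).2 ?_).symm
    intro hd
    have h1 : pp (WeierstrassCurve.Affine.Point.some x y h) = C x - X := rfl
    rw [h1] at hd
    have h2 : (C x - X : K[X]).natDegree = 1 := by
      rw [← natDegree_neg, neg_sub]
      exact natDegree_X_sub_C x
    have h3 : (C x - X : K[X]) ≠ 0 := by
      intro h0
      rw [h0, natDegree_zero] at h2
      omega
    have h4 := natDegree_le_of_dvd hd h3
    rw [cu_deg, h2] at h4
    omega

/-- `W` is `y ^ 2 = x ^ 3 + A x + B`. -/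
def IsW (W : WeierstrassCurve.Affine K) (A B : K) : Prop :=
  W.a₁ = 0 ∧ W.a₂ = 0 ∧ W.a₃ = 0 ∧ W.a₄ = A ∧ W.a₆ = B

theorem mk_mul (hirr : Irreducible (cu A B)) (hW : IsW W A B) (P Q : W.Point) :
    ∃ s : K[X], AdjoinRoot.mk (cu A B) (pp P) * AdjoinRoot.mk (cu A B) (pp Q) *
      AdjoinRoot.mk (cu A B) (pp (P + Q)) = (AdjoinRoot.mk (cu A B) s) ^ 2 := by
  haveI : Fact (Irreducible (cu A B)) := ⟨hirr⟩
  obtain ⟨h1, h2, h3, h4, h6⟩ := hW
  obtain ⟨s, hs⟩ := Pool.Agent.H740.UN.kuh K (AdjoinRoot (cu A B)) A B (AdjoinRoot.root (cu A B)) W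
    h1 h2 h3 h4 h6 hirr root_cu P Q
  refine ⟨s, ?_⟩
  rw [kp_eq, kp_eq, kp_eq, aev_eq] at hs
  exact hs

theorem mk_half (hirr : Irreducible (cu A B)) (hW : IsW W A B) {P : W.Point}
    (h : IsSquare (AdjoinRoot.mk (cu A B) (pp P))) : ∃ Q, P = Q + Q := by
  haveI : Fact (Irreducible (cu A B)) := ⟨hirr⟩
  obtain ⟨h1, h2, h3, h4, h6⟩ := hW
  obtain ⟨s, hs⟩ := h
  obtain ⟨s, rfl⟩ := AdjoinRoot.mk_surjective s
  refine Pool.Agent.H307.UN.kuk K (AdjoinRoot (cu A B)) A B (AdjoinRoot.root (cu A B)) W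
    h1 h2 h3 h4 h6 hirr root_cu P ⟨s, ?_⟩
  rw [kp_eq, aev_eq, hs, sq]

theorem mk_ne (hirr : Irreducible (cu A B)) {g : K[X]} (h : IsCoprime g (cu A B)) :
    AdjoinRoot.mk (cu A B) g ≠ 0 := by
  intro h0
  rw [AdjoinRoot.mk_eq_zero] at h0
  exact hirr.not_isUnit (h.symm.isUnit_of_dvd' dvd_rfl h0)

theorem mk_dbl (hirr : Irreducible (cu A B)) (hW : IsW W A B) (P : W.Point) :
    IsSquare (AdjoinRoot.mk (cu A B) (pp (P + P))) := by
  haveI : Fact (Irreducible (cu A B)) := ⟨hirr⟩
  obtain ⟨s, hs⟩ := mk_mul hirr hW P P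
  have h0 := mk_ne hirr (pp_cop (W := W) hirr P)
  refine ⟨AdjoinRoot.mk (cu A B) s / AdjoinRoot.mk (cu A B) (pp P), ?_⟩
  field_simp
  rw [← hs]
  ring

/-- Congruent points modulo `2`. -/
theorem mk_congr (hirr : Irreducible (cu A B)) (hW : IsW W A B) {P P' : W.Point} {Q : W.Point}
    (h : P' - P = Q + Q) :
    IsSquare (AdjoinRoot.mk (cu A B) (pp P') * AdjoinRoot.mk (cu A B) (pp P)) := by
  haveI : Fact (Irreducible (cu A B)) := ⟨hirr⟩
  obtain ⟨s, hs⟩ := mk_mul hirr hW P' P
  have e1 : P' + P = (Q + P) + (Q + P) := by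
    have : P' = Q + Q + P := by rw [← h]; abel
    rw [this]
    abel
  obtain ⟨t, ht⟩ := mk_dbl hirr hW (Q + P)
  have h0 := mk_ne hirr (pp_cop (W := W) hirr ((Q + P) + (Q + P)))
  rw [e1, ht] at hs
  rw [ht] at h0
  have h1 : t ≠ 0 := by
    rintro rfl
    exact h0 (mul_zero _)
  refine ⟨AdjoinRoot.mk (cu A B) s / t, ?_⟩
  field_simp
  rw [← hs]
  ring

/-- Points with the same class are congruent modulo `2`. -/
theorem congr_of_mk (hirr : Irreducible (cu A B)) (hW : IsW W A B) {P P' : W.Point}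
    (h : IsSquare (AdjoinRoot.mk (cu A B) (pp P) * AdjoinRoot.mk (cu A B) (pp P'))) :
    ∃ Q, P - P' = Q + Q := by
  haveI : Fact (Irreducible (cu A B)) := ⟨hirr⟩
  obtain ⟨s, hs⟩ := mk_mul hirr hW P P'
  obtain ⟨t, ht⟩ := h
  have h0 := mk_ne hirr (pp_cop (W := W) hirr P)
  have h0' := mk_ne hirr (pp_cop (W := W) hirr P')
  have h1 : t ≠ 0 := by
    rintro rfl
    rw [mul_zero] at ht
    exact (mul_ne_zero h0 h0') ht
  obtain ⟨R, hR⟩ := mk_half hirr hW (P := P + P') (by
    refine ⟨AdjoinRoot.mk (cu A B) s / t, ?_⟩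
    rw [ht] at hs
    field_simp
    rw [← hs]
    ring)
  refine ⟨R - P', ?_⟩
  have : P = R + R - P' := by rw [← hR]; abel
  rw [this]
  abel

/-- The classes of the points are locally (and globally) images. -/
theorem locIm_pp (hirr : Irreducible (cu A B)) (hW : IsW W A B) (P : W.Point) :
    LocIm K (cu A B) (pp P) := by
  obtain ⟨h1, h2, h3, h4, h6⟩ := hW
  rcases P with _ | ⟨x, y, h⟩
  · refine ⟨[], 1, by simp, ?_⟩
    have h7 : pp (WeierstrassCurve.Affine.Point.zero : W.Point) = 1 := rfl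
    rw [h7]
    simp
  · have heq : y ^ 2 = x ^ 3 + A * x + B := by
      have h7 := (WeierstrassCurve.Affine.equation_iff x y).1 h.1
      rw [h1, h2, h3, h4, h6] at h7
      linear_combination h7
    have h7 : pp (WeierstrassCurve.Affine.Point.some x y h) = C x - X := rfl
    refine ⟨[(X - C x, C y)], C x - X, ?_, ?_⟩
    · intro p hp
      rw [List.mem_singleton] at hp
      subst hp
      refine ⟨monic_X_sub_C x, ?_, ?_⟩
      · have h8 := pp_cop hirr (WeierstrassCurve.Affine.Point.some x y h)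
        rw [h7] at h8
        have h9 := h8.neg_left
        rwa [neg_sub] at h9
      · rw [dvd_iff_isRoot, IsRoot]
        simp only [eval_sub, eval_pow, eval_C, eval_add, eval_mul, eval_X]
        linear_combination heq
    · rw [h7]
      simp only [List.map_cons, List.map_nil, List.prod_cons, List.prod_nil, natDegree_X_sub_C,
        pow_one, mul_one]
      have : (C x - X) * (-1 * (X - C x)) - (C x - X) ^ 2 = (0 : K[X]) := by ring
      rw [this]
      exact dvd_zero _

theorem norm_pt (hirr : Irreducible (cu A B)) (hW : IsW W A B) (P : W.Point) :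
    IsSquare (Algebra.norm K (AdjoinRoot.mk (cu A B) (pp P))) := by
  obtain ⟨h1, h2, h3, h4, h6⟩ := hW
  rcases P with _ | ⟨x, y, h⟩
  · have h7 : pp (WeierstrassCurve.Affine.Point.zero : W.Point) = 1 := rfl
    rw [h7, map_one, map_one]
    exact ⟨1, by ring⟩
  · have heq : y ^ 2 = x ^ 3 + A * x + B := by
      have h7 := (WeierstrassCurve.Affine.equation_iff x y).1 h.1
      rw [h1, h2, h3, h4, h6] at h7
      linear_combination h7
    have h7 : pp (WeierstrassCurve.Affine.Point.some x y h) = C x - X := rfl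
    rw [h7, norm_pp hirr, ← heq]
    exact ⟨y, sq y⟩

end kum

end Pool.Agent.H459.UN
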