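import Pool.Agent.H459.UN.Fin
import Pool.Agent.H459.UN.Bpr4

/-!
# Definitions for the statement of the theorem (helper459)
-/

set_option autoImplicit false

open Polynomial NumberField IsDedekindDomain
open scoped Classical TensorProduct

namespace Pool.Agent.H459.UN

open Pool.Agent.N783.PF (Crv)
open Pool.Agent.N874.PP (sW)
open Pool.Agent.TH115.GD (Pt)
open Pool.Agent.H459.AV (NoTwo)

/-- The complex vector space `ℂ ⊗ A`. -/
def CA (A : Type) [AddCommGroup A] : Type := ℂ ⊗[ℤ] A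

noncomputable instance CA.grp (A : Type) [AddCommGroup A] : AddCommGroup (CA A) :=
  inferInstanceAs (AddCommGroup (ℂ ⊗[ℤ] A))

noncomputable instance CA.mod (A : Type) [AddCommGroup A] : Module ℂ (CA A) :=
  inferInstanceAs (Module ℂ (ℂ ⊗[ℤ] A))

/-- The map `id ⊗ f`. -/
noncomputable def CA.map {A : Type} [AddCommGroup A] (f : AddMonoid.End A) : CA A →ₗ[ℂ] CA A :=
  LinearMap.baseChange ℂ (AddMonoidHom.toIntLinearMap f)

/-- The equivariant maps from `ρ` to `ℂ ⊗ A`, where `G` acts on `A` by `τ`. -/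
noncomputable def Hm {A G V : Type} [AddCommGroup A] [Group G] (τ : G →* AddMonoid.End A)
    [AddCommGroup V] [Module ℂ V] (ρ : Representation ℂ G V) : Submodule ℂ (V →ₗ[ℂ] CA A) where
  carrier := {φ | ∀ g v, φ (ρ g v) = CA.map (τ g) (φ v)}
  add_mem' := by
    intro φ ψ h1 h2 g v
    rw [LinearMap.add_apply, LinearMap.add_apply, map_add, h1, h2]
  zero_mem' := by
    intro g v
    rw [LinearMap.zero_apply, LinearMap.zero_apply, map_zero]
  smul_mem' := by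
    intro c φ h g v
    rw [LinearMap.smul_apply, LinearMap.smul_apply, map_smul, h]

/-- The dimension of the space of the equivariant maps from `ρ` to `ℂ ⊗ A`. -/
noncomputable def mult {A G V : Type} [AddCommGroup A] [Group G] (τ : G →* AddMonoid.End A)
    [AddCommGroup V] [Module ℂ V] (ρ : Representation ℂ G V) : ℕ :=
  Module.finrank ℂ (Hm τ ρ)

/-- The multiplicity: the dimension of the space of the equivariant maps from `ρ` to `ℂ ⊗ E(M)`, where
`E : y² = x³ + ax + b`. -/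
noncomputable def mE {F : Type} [Field F] (a b : F) {M : Type} [Field M] [Algebra F M] {V : Type}
    [AddCommGroup V] [Module ℂ V] (ρ : Representation ℂ (M ≃ₐ[F] M) V) : ℕ :=
  mult (ga a b M) ρ

/-- The rank of `E(M)`. -/
noncomputable def rM {F : Type} [Field F] (a b : F) (M : Type) [Field M] [Algebra F M] : ℕ :=
  Module.finrank ℤ (Pt (sW a b) M)

/-- For the curve `E : y² = x³ + ax + b`, `p = (a, b)`, over `F`, every Galois extension `M/F` of 2-power degree with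
`r` ramified primes and every complex representation `ρ` of its Galois group: `dim Hom(ρ, ℂ ⊗ E(M)) ≤ (c + 2r) dim ρ`
and `rank E(M) ≤ (c + 2r) [M : F]`. -/
def Bd (F : Type) [Field F] [NumberField F] (p : 𝓞 F × 𝓞 F) (c : ℕ) : Prop :=
  ∀ (M : Type) [Field M] [NumberField M] [Algebra F M] [IsGalois F M] (k : ℕ),
    Module.finrank F M = 2 ^ k →
    (∀ (V : Type) [AddCommGroup V] [Module ℂ V] [FiniteDimensional ℂ V]
      (ρ : Representation ℂ (M ≃ₐ[F] M) V),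
      mE (p.1 : F) (p.2 : F) ρ ≤ (c + 2 * (Rm F M).ncard) * Module.finrank ℂ V) ∧
    rM (p.1 : F) (p.2 : F) M ≤ (c + 2 * (Rm F M).ncard) * Module.finrank F M

/-- The number of the minimal pairs of height at most `Y`. -/
noncomputable def NY (F : Type) [Field F] [NumberField F] (Y : ℝ) : ℝ :=
  ({p : 𝓞 F × 𝓞 F | Crv Y p}.ncard : ℝ)

theorem hm_eq {A G V : Type} [AddCommGroup A] [Group G] (τ : G →* AddMonoid.End A)
    [AddCommGroup V] [Module ℂ V] (ρ : Representation ℂ G V) :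
    Module.finrank ℂ (Hm τ ρ) = Module.finrank ℂ (Intw τ ρ) := rfl

theorem fin' (F : Type) [Field F] [NumberField F] : ∃ c : 𝓞 F × 𝓞 F → ℕ,
    (∀ p : 𝓞 F × 𝓞 F, NoTwo p → Bd F p (c p)) ∧
    (∀ (M : Type) [Field M] [NumberField M] [Algebra F M], (Rm F M).Finite) ∧
    (∀ Y : ℝ, {p : 𝓞 F × 𝓞 F | Crv Y p}.Finite) ∧
    ∀ s : ℝ, 0 < s → s < 1 → ∃ C : ℝ, 0 < C ∧ ∃ Y₀ : ℝ, ∀ Y ≥ Y₀, 0 < NY F Y ∧
    (∀ T : Finset (𝓞 F × 𝓞 F), (∀ p ∈ T, Crv Y p ∧ NoTwo p) →
      ∑ p ∈ T, (2 : ℝ) ^ (s * (c p : ℝ)) ≤ C * NY F Y) ∧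
    ∀ R : ℝ, ({p : 𝓞 F × 𝓞 F | Crv Y p ∧ (¬ NoTwo p ∨ R ≤ c p)}.ncard : ℝ) ≤
      C * ((2 : ℝ) ^ (-(s * R)) + Y ^ (-(Module.finrank ℚ F : ℝ) / 3)) * NY F Y := by
  obtain ⟨c, h1, h2, h3, h4⟩ := fin Pool.Agent.H323.UN.pr4 F
  refine ⟨c, fun p hp M _ _ _ _ k hk => ⟨fun V _ _ _ ρ => ?_, (h1 p hp M k hk).2⟩, fun M _ _ _ => h2 M,
    h3, fun s hs hs1 => ?_⟩
  · have := (h1 p hp M k hk).1 V ρ
    rw [← hm_eq] at this
    exact this
  obtain ⟨C, hC, Y₀, h5⟩ := h4 s hs hs1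
  refine ⟨C, hC, Y₀, fun Y hY => ?_⟩
  obtain ⟨h6, h7, h8⟩ := h5 Y hY
  refine ⟨?_, h7, h8⟩
  unfold NY
  exact_mod_cast h6

end Pool.Agent.H459.UN
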