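import Pool.Agent.H459.UN.Ind
import Pool.Agent.H459.UN.Bmod
import Pool.Agent.H459.UN.Bmul

/-!
# One curve: all the extensions of 2-power degree and all the representations (helper459)
-/

set_option autoImplicit false
set_option linter.all false

open Polynomial IsDedekindDomain Matrix NumberField
open scoped Classical IntermediateField

namespace Pool.Agent.H459.UN

open Pool.Agent.N783.PF
open Pool.Agent.N874.PP (Ev sW)
open Pool.Agent.TH115.GD (Pt act act_act)
open Pool.Agent.H459.UF (cu cu_monic cu_deg below lies_below eq_below Unr exists_above val_pow fo fb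
  fb_eq agr_top Agr mem_below pp mk_pp norm_pp pp_act disc_ne)
open Pool.Agent.N61.PF (pol pol_natDegree pol_monic pol_coeff0 pol_coeff1 pol_coeff2)
open Pool.Agent.H459.AV

section

variable {F M : Type} [Field F] [NumberField F] [Field M] [NumberField M] [Algebra F M]

/-- The action of the Galois group on the points. -/
noncomputable def ga (A B : F) (M : Type) [Field M] [Algebra F M] :
    (M ≃ₐ[F] M) →* AddMonoid.End (Pt (sW A B) M) where
  toFun σ := act (sW A B) (σ : M →ₐ[F] M)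
  map_one' := by
    ext P
    rcases P with _ | ⟨x, y, h⟩ <;> rfl
  map_mul' σ τ := by
    ext P
    exact (act_act (sW A B) (τ : M →ₐ[F] M) (σ : M →ₐ[F] M) P).symm

theorem ga_apply (A B : F) (σ : M ≃ₐ[F] M) (P : Pt (sW A B) M) :
    ga A B M σ P = act (sW A B) (σ : M →ₐ[F] M) P := rfl

theorem fg_up {A B : F} (hd : 4 * A ^ 3 + 27 * B ^ 2 ≠ 0) : AddGroup.FG (Pt (sW A B) M) := by
  have hd' : 4 * (algebraMap F M A) ^ 3 + 27 * (algebraMap F M B) ^ 2 ≠ 0 := by
    intro h0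
    apply hd
    apply (algebraMap F M).injective
    rw [map_zero, ← h0]
    simp only [map_add, map_mul, map_pow, map_ofNat]
  have hfg : AddGroup.FG (Pool.Agent.TH942.SPt (algebraMap F M A) (algebraMap F M B)) :=
    Pool.Agent.TH942.sfg hd'
  have heq : (Pool.Agent.TH942.sw (algebraMap F M A) (algebraMap F M B)).toAffine =
      ((sW A B).baseChange M).toAffine := by
    apply WeierstrassCurve.ext <;> simp [Pool.Agent.TH942.sw, sW, WeierstrassCurve.baseChange]
  exact Pool.Agent.TH942.fg_of_eq heq hfg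

theorem no_two {K : Type} [Field K] [CharZero K] {A B : K} {W : WeierstrassCurve.Affine K}
    (hirr : Irreducible (cu A B)) (hW : IsW W A B) {P : W.Point} (h : P + P = 0) : P = 0 := by
  obtain ⟨h1, h2, h3, h4, h6⟩ := hW
  rcases P with _ | ⟨x, y, hxy⟩
  · rfl
  · exfalso
    have hneg : WeierstrassCurve.Affine.Point.some x y hxy =
        -WeierstrassCurve.Affine.Point.some x y hxy := eq_neg_of_add_eq_zero_left h
    rw [WeierstrassCurve.Affine.Point.neg_some] at hneg
    have h5 : y = W.negY x y := (WeierstrassCurve.Affine.Point.some.inj hneg).2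
    rw [WeierstrassCurve.Affine.negY, h1, h3] at h5
    have hy : y = 0 := by
      have : 2 * y = 0 := by linear_combination h5
      exact (mul_eq_zero.1 this).resolve_left two_ne_zero
    have heq : y ^ 2 = x ^ 3 + A * x + B := by
      have h7 := (WeierstrassCurve.Affine.equation_iff x y).1 hxy.1
      rw [h1, h2, h3, h4, h6] at h7
      linear_combination h7
    rw [hy] at heq
    have h8 : (cu A B).IsRoot x := by
      unfold cu
      simp only [IsRoot, eval_add, eval_pow, eval_X, eval_mul, eval_C]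
      linear_combination -heq
    have h9 := natDegree_eq_of_degree_eq_some (degree_eq_one_of_irreducible_of_root hirr h8)
    rw [cu_deg] at h9
    norm_num at h9

/-- Representatives of the invariant classes modulo `2`. -/
theorem reps [IsGalois F M] {p : 𝓞 F × 𝓞 F} (D : Gd p)
    (hirr : Irreducible (cu (p.1 : F) (p.2 : F))) {k : ℕ} (hk : Module.finrank F M = 2 ^ k)
    (h0 : (Sq D.L).relIndex (Vz F D.L (Zf (pol p.1 p.2) ∪ Rm F M)) ≠ 0) :
    ∃ T : Finset (Pt (sW (p.1 : F) (p.2 : F)) M),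
      T.card ≤ (Sq D.L).relIndex (Vz F D.L (Zf (pol p.1 p.2) ∪ Rm F M)) ∧
      ∀ P : Pt (sW (p.1 : F) (p.2 : F)) M,
        (∀ σ : M ≃ₐ[F] M, ∃ Q, ga (p.1 : F) (p.2 : F) M σ P - P = Q + Q) →
        ∃ t ∈ T, ∃ Q, P - t = Q + Q := by
  obtain ⟨V, hV⟩ : ∃ V, V = Vz F D.L (Zf (pol p.1 p.2) ∪ Rm F M) := ⟨_, rfl⟩
  rw [← hV] at h0 ⊢
  have hQ : Nat.card (↥V ⧸ (Sq D.L).subgroupOf V) = (Sq D.L).relIndex V := rfl
  haveI hfin : Finite (↥V ⧸ (Sq D.L).subgroupOf V) := Nat.finite_of_card_ne_zero (by rwa [hQ])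
  obtain ⟨I, hI⟩ : ∃ I : Set (Pt (sW (p.1 : F) (p.2 : F)) M), I = {P |
    ∀ σ : M ≃ₐ[F] M, ∃ Q, ga (p.1 : F) (p.2 : F) M σ P - P = Q + Q} := ⟨_, rfl⟩
  have h1 : ∀ P : I, ∃ q : ↥V, ∃ (h : F[X]) (t : M[X]), ((q : D.Lˣ) : D.L) = aeval D.θ h ∧
      cu (algebraMap F M (p.1 : F)) (algebraMap F M (p.2 : F)) ∣
        pp P.1 - h.map (algebraMap F M) * t ^ 2 := by
    rintro ⟨P, hP⟩
    rw [hI] at hP
    obtain ⟨h, t, x, hx, -, hd, hxV⟩ := pt_class D hirr hk P hP
    rw [← hV] at hxV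
    exact ⟨⟨x, hxV⟩, h, t, hx, hd⟩
  choose q hq using h1
  obtain ⟨κ, hκ⟩ : ∃ κ : I → ↥V ⧸ (Sq D.L).subgroupOf V, κ = fun P => QuotientGroup.mk (q P) :=
    ⟨_, rfl⟩
  have h2 : ∀ P P' : I, κ P = κ P' → ∃ Q, P.1 - P'.1 = Q + Q := by
    intro P P' he
    obtain ⟨h, t, hx, hd⟩ := hq P
    obtain ⟨h', t', hx', hd'⟩ := hq P'
    refine pt_inj D hirr hk hd hd' ?_
    rw [← hx, ← hx', ← Units.val_mul, ← mem_sq]
    rw [hκ] at he
    have h3 := QuotientGroup.eq.1 he
    rw [Subgroup.mem_subgroupOf] at h3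
    have h4 : ((q P : D.Lˣ)) * (q P' : D.Lˣ) = ((q P)⁻¹ * q P' : ↥V) * ((q P : D.Lˣ)) ^ 2 := by
      rw [Subgroup.coe_mul, Subgroup.coe_inv, sq]
      calc (q P : D.Lˣ) * (q P' : D.Lˣ) =
            ((q P : D.Lˣ)⁻¹ * (q P : D.Lˣ)) * ((q P : D.Lˣ) * (q P' : D.Lˣ)) := by
            rw [inv_mul_cancel, one_mul]
        _ = _ := by
            simp only [mul_comm, mul_left_comm, mul_assoc]
    rw [h4]
    exact (Sq D.L).mul_mem h3 ⟨_, rfl⟩
  haveI hr : Finite (Set.range κ) := inferInstance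
  haveI := Fintype.ofFinite (Set.range κ)
  refine ⟨(Finset.univ : Finset (Set.range κ)).image (fun z => (z.2.choose).1), ?_, ?_⟩
  · refine Finset.card_image_le.trans ?_
    rw [Finset.card_univ, ← Nat.card_eq_fintype_card, ← hQ]
    exact Nat.card_le_card_of_injective _ Subtype.val_injective
  · intro P hP
    have hPI : P ∈ I := by rw [hI]; exact hP
    refine ⟨_, Finset.mem_image_of_mem _ (Finset.mem_univ
      (⟨κ ⟨P, hPI⟩, ⟨P, hPI⟩, rfl⟩ : Set.range κ)), ?_⟩
    exact h2 ⟨P, hPI⟩ _ ((⟨κ ⟨P, hPI⟩, ⟨P, hPI⟩, rfl⟩ : Set.range κ).2.choose_spec).symm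

end

end Pool.Agent.H459.UN
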