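import Pool.Agent.H459.UN.Sgl
import Pool.Agent.H459.UN.Ind2

/-!
# One curve: all the extensions of 2-power degree and all the representations (helper459)
-/

set_option autoImplicit false
set_option linter.all false

open Polynomial IsDedekindDomain Matrix NumberField
open scoped Classical IntermediateField

namespace Pool.Agent.H459.UN

open Pool.Agent.N783.PF
open Pool.Agent.N874.PP (Ev sW)
open Pool.Agent.TH115.GD (Pt act act_act)
open Pool.Agent.H459.UF (cu cu_monic cu_deg disc_ne)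
open Pool.Agent.N61.PF (pol pol_natDegree pol_monic pol_coeff0 pol_coeff1 pol_coeff2)
open Pool.Agent.H459.AV

/-- The constant of a curve. -/
noncomputable def cc {F : Type} [Field F] [NumberField F] (K : ℕ) (p : 𝓞 F × 𝓞 F) : ℕ :=
  Nat.clog 2 (sN p) + 6 * (Zd p).ncard + K

/-- **One curve.** -/
theorem single (hP : S_PR4) (F : Type) [Field F] [NumberField F] : ∃ K : ℕ, ∀ p : 𝓞 F × 𝓞 F,
    Irreducible (cu (p.1 : F) (p.2 : F)) → sN p ≠ 0 →
    ∀ (M : Type) [Field M] [NumberField M] [Algebra F M] [IsGalois F M] (k : ℕ),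
    Module.finrank F M = 2 ^ k →
    ∀ (V : Type) [AddCommGroup V] [Module ℂ V] [FiniteDimensional ℂ V]
      (ρ : Representation ℂ (M ≃ₐ[F] M) V),
    Module.finrank ℂ (Intw (ga (p.1 : F) (p.2 : F) M) ρ) ≤
      (cc K p + 2 * (Rm F M).ncard) * Module.finrank ℂ V ∧
    Module.finrank ℤ (Pt (sW (p.1 : F) (p.2 : F)) M) ≤
      (cc K p + 2 * (Rm F M).ncard) * Module.finrank F M := by
  obtain ⟨K, hK⟩ := rel_le2 hP F
  refine ⟨K, fun p hirr hsN M _ _ _ _ k hk V _ _ _ ρ => ?_⟩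
  obtain ⟨D, hD⟩ : ∃ D : Gd p, D = gd p hirr := ⟨_, rfl⟩
  have hsN' : sN p = (Sq D.L).relIndex (Sp (pol p.1 p.2) D.θ) := by
    unfold sN
    rw [dif_pos hirr, hD]
  rw [hsN'] at hsN
  have hdsc : dsc 1 (pol p.1 p.2) ≠ 0 := Pool.Agent.H459.UT.dsc_ne D.gen
  have hZf : (Zf (pol p.1 p.2)).Finite := zf_fin hdsc
  have hRm := rm_fin F M
  obtain ⟨h1, h2⟩ := hK D.L (pol p.1 p.2) D.θ D.gen hsN (Rm F M) hRm
  obtain ⟨T, hT1, hT2⟩ := reps D hirr hk h1
  have hZd : (Zd p).Finite := by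
    refine (fin_dvd hdsc).subset ?_
    intro w hw
    rw [Set.mem_setOf_eq, dsc_pol]
    exact Ideal.pow_le_self two_ne_zero hw
  have h3 : (Zf (pol p.1 p.2) \ {w | (2 : 𝓞 F) ∈ w.asIdeal}).ncard ≤ (Zd p).ncard := by
    refine Set.ncard_le_ncard ?_ hZd
    rintro w ⟨h4, h5⟩
    rcases h4 with h4 | h4
    · exact absurd h4 h5
    · rw [dsc_pol] at h4
      exact h4
  have h4 : T.card ≤ 2 ^ (cc K p + 2 * (Rm F M).ncard) := by
    refine hT1.trans (h2.trans ?_)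
    have h5 : (Sq D.L).relIndex (Sp (pol p.1 p.2) D.θ) ≤ 2 ^ Nat.clog 2 (sN p) := by
      rw [← hsN']
      exact Nat.le_pow_clog (by norm_num) _
    refine (Nat.mul_le_mul_right _ h5).trans ?_
    rw [← pow_add]
    apply Nat.pow_le_pow_right (by norm_num)
    unfold cc
    omega
  have hd := disc_ne hirr
  haveI : AddGroup.FG (Pt (sW (p.1 : F) (p.2 : F)) M) := fg_up hd
  have hcard : Nat.card (M ≃ₐ[F] M) = 2 ^ k := by
    rw [IsGalois.card_aut_eq_finrank, hk]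
  have hirrM := irr_up hirr hk
  obtain ⟨Φ, hΦ⟩ := Pool.Agent.H860.UN.mod (Pt (sW (p.1 : F) (p.2 : F)) M) (M ≃ₐ[F] M)
    (ga (p.1 : F) (p.2 : F) M) k (cc K p + 2 * (Rm F M).ncard) hcard
    (fun P hP => no_two hirrM (isW_bc _ _) hP) T h4 hT2
  have h6 := Pool.Agent.H94.UN.mul (Pt (sW (p.1 : F) (p.2 : F)) M) (M ≃ₐ[F] M) V
    (ga (p.1 : F) (p.2 : F) M) ρ (cc K p + 2 * (Rm F M).ncard) Φ hΦ
  rw [IsGalois.card_aut_eq_finrank] at h6
  exact h6

end Pool.Agent.H459.UN
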