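import Mathlib

/-!
# Project UN (helper459): more statements
-/

set_option autoImplicit false
set_option linter.all false

open Polynomial IsDedekindDomain NumberField
open scoped Classical

namespace Pool.Agent.H459.UN

/-- **S_RAM** (finitely many ramified primes). `w` is ramified if its extension to `𝓞 M` is contained in the square
of a prime.

Proof. `M = F(β)` with `β` integral over `𝓞 F` (primitive element, multiplied by a denominator),
`g = minpoly (𝓞 F) β`, `g'(β) ≠ 0`. Only finitely many `w` are below a prime `P` of `𝓞 M` with `g'(β) ∈ P`. For the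
other `w` every `P` over `w` is unramified over `w`: `𝓞 M_P = 𝓞 F_w[β]` and `g` is separable modulo `w`. Or with Mathlib's
`differentIdeal` (nonzero; `P ^ 2 ∣ w 𝓞 M` implies `P ∣ differentIdeal (𝓞 F) (𝓞 M)`: `pow_sub_one_dvd_differentIdeal` or
similar), and only finitely many primes divide a nonzero ideal. -/
def S_RAM : Prop := ∀ (F M : Type) [Field F] [NumberField F] [Field M] [NumberField M] [Algebra F M],
  {w : HeightOneSpectrum (𝓞 F) | ∃ P : HeightOneSpectrum (𝓞 M),
    w.asIdeal.map (algebraMap (𝓞 F) (𝓞 M)) ≤ P.asIdeal ^ 2}.Finite

end Pool.Agent.H459.UN
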